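import Mathlib

/-! Lifts of Frobenius which are ramified like the covering `u = T + 1/T - 2`. -/

set_option autoImplicit false

open Polynomial

namespace Pool.Agent.H35.CE

noncomputable def sg : ℕ → ℤ[X]
  | 0 => 1
  | 1 => X + 3
  | (m + 2) => (X + 2) * sg (m + 1) - sg m

noncomputable def gs : ℕ → ℤ[X]
  | 0 => 1
  | 1 => X + 1
  | (m + 2) => (X + 2) * gs (m + 1) - gs m

theorem inv1 (m : ℕ) : (X + 4) * gs m ^ 2 - X * sg m ^ 2 = 4 ∧
    (X + 4) * (gs m * gs (m + 1)) - X * (sg m * sg (m + 1)) = 2 * (X + 2) ∧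
    (X + 4) * gs (m + 1) ^ 2 - X * sg (m + 1) ^ 2 = 4 := by
  induction m with
  | zero =>
    simp only [gs, sg]
    refine ⟨by ring, by ring, by ring⟩
  | succ m ih =>
    obtain ⟨h1, h2, h3⟩ := ih
    refine ⟨h3, ?_, ?_⟩
    · rw [show gs (m + 1 + 1) = (X + 2) * gs (m + 1) - gs m from rfl,
        show sg (m + 1 + 1) = (X + 2) * sg (m + 1) - sg m from rfl]
      linear_combination (X + 2) * h3 - h2
    · rw [show gs (m + 1 + 1) = (X + 2) * gs (m + 1) - gs m from rfl,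
        show sg (m + 1 + 1) = (X + 2) * sg (m + 1) - sg m from rfl]
      linear_combination (X + 2) ^ 2 * h3 - 2 * (X + 2) * h2 + h1

theorem inv2 (m : ℕ) : sg m ^ 2 + sg (m + 1) ^ 2 - (X + 2) * (sg m * sg (m + 1)) = X + 4 := by
  induction m with
  | zero => simp only [sg]; ring
  | succ m ih =>
    rw [show sg (m + 1 + 1) = (X + 2) * sg (m + 1) - sg m from rfl]
    linear_combination ih

theorem dk (m : ℕ) : X * sg m ^ 2 + 2 = (dickson 1 (1 : ℤ) (2 * m + 1)).comp (X + 2) ∧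
    X * sg (m + 1) ^ 2 + 2 = (dickson 1 (1 : ℤ) (2 * (m + 1) + 1)).comp (X + 2) := by
  induction m with
  | zero =>
    refine ⟨?_, ?_⟩
    · simp [sg]
    · simp only [sg]
      rw [show 2 * (0 + 1) + 1 = 1 + 2 from rfl, dickson_add_two, dickson_add_two]
      simp only [dickson_one, dickson_zero, Nat.cast_one, sub_comp, mul_comp, X_comp,
        map_one, one_mul, zero_add, ofNat_comp, one_comp]
      ring
  | succ m ih =>
    obtain ⟨h1, h2⟩ := ih
    refine ⟨h2, ?_⟩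
    have e1 : dickson 1 (1 : ℤ) (2 * (m + 1 + 1) + 1) =
        (X ^ 2 - 2) * dickson 1 (1 : ℤ) (2 * (m + 1) + 1) - dickson 1 (1 : ℤ) (2 * m + 1) := by
      have a1 := dickson_add_two 1 (1 : ℤ) (2 * m + 1)
      have a2 := dickson_add_two 1 (1 : ℤ) (2 * m + 1 + 1)
      have a3 := dickson_add_two 1 (1 : ℤ) (2 * m + 1 + 2)
      rw [show 2 * (m + 1 + 1) + 1 = 2 * m + 1 + 2 + 2 by ring,
        show 2 * (m + 1) + 1 = 2 * m + 1 + 2 by ring]
      rw [show 2 * m + 1 + 1 + 2 = 2 * m + 1 + 2 + 1 by ring] at a2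
      rw [show 2 * m + 1 + 1 + 1 = 2 * m + 1 + 2 by ring] at a2
      rw [map_one, one_mul] at a1 a2 a3
      linear_combination a3 + X * a2 + a1
    rw [e1, sub_comp, mul_comp, ← h1, ← h2,
      show sg (m + 1 + 1) = (X + 2) * sg (m + 1) - sg m from rfl]
    simp only [sub_comp, pow_comp, X_comp, ofNat_comp]
    linear_combination 2 * X * inv2 m

theorem sg_monic (m : ℕ) : ((sg m).Monic ∧ (sg m).natDegree = m) ∧
    ((sg (m + 1)).Monic ∧ (sg (m + 1)).natDegree = m + 1) := by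
  induction m with
  | zero =>
    refine ⟨⟨by simp [sg], by simp [sg]⟩, ⟨?_, ?_⟩⟩
    · simp only [sg]; exact monic_X_add_C 3
    · simp only [sg]; exact natDegree_X_add_C (3 : ℤ)
  | succ m ih =>
    obtain ⟨⟨a1, a2⟩, ⟨b1, b2⟩⟩ := ih
    refine ⟨⟨b1, b2⟩, ?_⟩
    have hm : ((X + 2 : ℤ[X])).Monic := monic_X_add_C 2
    have hd : ((X + 2 : ℤ[X])).natDegree = 1 := natDegree_X_add_C (2 : ℤ)
    have c1 : ((X + 2) * sg (m + 1)).Monic := hm.mul b1
    have c2 : ((X + 2) * sg (m + 1)).natDegree = m + 2 := by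
      rw [hm.natDegree_mul b1, hd, b2]; ring
    have hlt : (sg m).degree < ((X + 2) * sg (m + 1)).degree := by
      rw [degree_eq_natDegree a1.ne_zero, degree_eq_natDegree c1.ne_zero, a2, c2]
      exact_mod_cast (by omega)
    rw [show sg (m + 1 + 1) = (X + 2) * sg (m + 1) - sg m from rfl]
    refine ⟨c1.sub_of_left hlt, ?_⟩
    rw [natDegree_sub_eq_left_of_natDegree_lt (by rw [a2, c2]; omega), c2]

theorem lift_exists {p : ℕ} [Fact p.Prime] {n : ℕ} (hp : p = 4 * n + 1) :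
    ∃ ψ σ τ : ℤ[X], ψ = X * σ ^ 2 ∧ ψ + 4 = (X + 4) * τ ^ 2 ∧ ψ.Monic ∧ ψ.natDegree = p ∧
      ψ.map (Int.castRingHom (ZMod p)) = X ^ p ∧
      σ.map (Int.castRingHom (ZMod p)) = X ^ (2 * n) ∧
      τ.map (Int.castRingHom (ZMod p)) = (X + 4) ^ (2 * n) := by
  set F := Int.castRingHom (ZMod p) with hF
  have hψ : (X * sg (2 * n) ^ 2).map F = X ^ p := by
    have h1 := (dk (2 * n)).1
    have h2 : X * sg (2 * n) ^ 2 = (dickson 1 (1 : ℤ) (2 * (2 * n) + 1)).comp (X + 2) - 2 := by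
      rw [← h1]; ring
    rw [h2, show 2 * (2 * n) + 1 = p by omega, Polynomial.map_sub, map_comp, map_dickson]
    rw [map_one, dickson_one_one_zmod_p]
    simp only [pow_comp, X_comp, Polynomial.map_add, map_X, Polynomial.map_ofNat]
    rw [add_pow_char]
    have : (2 : (ZMod p)[X]) ^ p = 2 := by
      rw [show (2 : (ZMod p)[X]) = C 2 from (map_ofNat C 2).symm, ← C_pow, ZMod.pow_card]
    rw [this]; ring
  have hsq : ((sg (2 * n)).map F) ^ 2 = (X ^ (2 * n)) ^ 2 := by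
    have : (X : (ZMod p)[X]) * ((sg (2 * n)).map F) ^ 2 = X * (X ^ (2 * n)) ^ 2 := by
      have h := hψ
      rw [Polynomial.map_mul, Polynomial.map_pow, map_X] at h
      rw [h, ← pow_mul, ← pow_succ']; congr 1; omega
    exact mul_left_cancel₀ X_ne_zero this
  have h4 : (X + 4 : (ZMod p)[X]) ≠ 0 := (monic_X_add_C (4 : ZMod p)).ne_zero
  have h4p : (X + 4 : (ZMod p)[X]) ^ p = X ^ p + 4 := by
    rw [add_pow_char]
    congr 1
    rw [show (4 : (ZMod p)[X]) = C 4 from (map_ofNat C 4).symm, ← C_pow, ZMod.pow_card]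
  have hψ4 : X * sg (2 * n) ^ 2 + 4 = (X + 4) * gs (2 * n) ^ 2 := by
    have := (inv1 (2 * n)).1; linear_combination -this
  have hsq2 : ((gs (2 * n)).map F) ^ 2 = ((X + 4) ^ (2 * n)) ^ 2 := by
    have : (X + 4 : (ZMod p)[X]) * ((gs (2 * n)).map F) ^ 2 = (X + 4) * ((X + 4) ^ (2 * n)) ^ 2 := by
      have h := congrArg (Polynomial.map F) hψ4
      rw [Polynomial.map_add, hψ, Polynomial.map_mul, Polynomial.map_pow, Polynomial.map_add, map_X,
        Polynomial.map_ofNat, ← h4p] at h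
      rw [← h, ← pow_mul, ← pow_succ']; congr 1; omega
    exact mul_left_cancel₀ h4 this
  obtain ⟨σ, hσ, hσ'⟩ : ∃ σ : ℤ[X], σ ^ 2 = sg (2 * n) ^ 2 ∧ σ.map F = X ^ (2 * n) := by
    rcases sq_eq_sq_iff_eq_or_eq_neg.1 hsq with h | h
    · exact ⟨_, rfl, h⟩
    · exact ⟨-sg (2 * n), by ring, by rw [Polynomial.map_neg, h, neg_neg]⟩
  obtain ⟨τ, hτ, hτ'⟩ : ∃ τ : ℤ[X], τ ^ 2 = gs (2 * n) ^ 2 ∧ τ.map F = (X + 4) ^ (2 * n) := by
    rcases sq_eq_sq_iff_eq_or_eq_neg.1 hsq2 with h | h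
    · exact ⟨_, rfl, h⟩
    · exact ⟨-gs (2 * n), by ring, by rw [Polynomial.map_neg, h, neg_neg]⟩
  have hm : (sg (2 * n)).Monic := (sg_monic (2 * n)).1.1
  have hd : (sg (2 * n)).natDegree = 2 * n := (sg_monic (2 * n)).1.2
  refine ⟨X * sg (2 * n) ^ 2, σ, τ, by rw [hσ], by rw [hτ, hψ4], monic_X.mul (hm.pow 2), ?_, hψ, hσ', hτ'⟩
  rw [monic_X.natDegree_mul (hm.pow 2), hm.natDegree_pow, natDegree_X, hd]; omega

end Pool.Agent.H35.CE
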