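import Pool.Agent.H35.CE.A1

/-! Arithmetic derivations of polynomials attached to the lift of Frobenius. -/

set_option autoImplicit false

open Polynomial

namespace Pool.Agent.H35.CE

/-- The lift. -/
structure Lf (p n : ℕ) [Fact p.Prime] where
  ψ : ℤ[X]
  σ : ℤ[X]
  τ : ℤ[X]
  hp : p = 4 * n + 1
  h1 : ψ = X * σ ^ 2
  h2 : ψ + 4 = (X + 4) * τ ^ 2
  mon : ψ.Monic
  deg : ψ.natDegree = p
  m1 : ψ.map (Int.castRingHom (ZMod p)) = X ^ p
  m2 : σ.map (Int.castRingHom (ZMod p)) = X ^ (2 * n)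
  m3 : τ.map (Int.castRingHom (ZMod p)) = (X + 4) ^ (2 * n)

theorem lf_exists {p : ℕ} [Fact p.Prime] {n : ℕ} (hp : p = 4 * n + 1) : Nonempty (Lf p n) := by
  obtain ⟨ψ, σ, τ, a, b, c, d, e, f, g⟩ := lift_exists hp
  exact ⟨⟨ψ, σ, τ, hp, a, b, c, d, e, f, g⟩⟩

variable {p n : ℕ} [Fact p.Prime]

/-- reduction of integral polynomials -/
noncomputable abbrev rp (p : ℕ) (f : ℤ[X]) : (ZMod p)[X] := f.map (Int.castRingHom (ZMod p))

theorem rp_zero_iff {f : ℤ[X]} : rp p f = 0 ↔ ∃ g : ℤ[X], f = C (p : ℤ) * g := by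
  constructor
  · intro h
    have : C (p : ℤ) ∣ f := by
      rw [C_dvd_iff_dvd_coeff]
      intro i
      have := congrArg (fun g => coeff g i) h
      simp only [rp, coeff_map, coeff_zero, eq_intCast] at this
      exact (ZMod.intCast_zmod_eq_zero_iff_dvd _ _).1 (by simpa using this)
    exact this
  · rintro ⟨g, rfl⟩
    simp [rp]

theorem C_cancel {a b : ℤ[X]} (h : C (p : ℤ) * a = C (p : ℤ) * b) : a = b := by
  have hp0 : (p : ℤ) ≠ 0 := by exact_mod_cast (Fact.out : p.Prime).ne_zero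
  exact mul_left_cancel₀ (by rwa [Ne, C_eq_zero]) h

variable (L : Lf p n)
include L

theorem ex_dl (f : ℤ[X]) : ∃ g : ℤ[X], f ^ p = f.comp L.ψ + C (p : ℤ) * g := by
  have h : rp p (f ^ p - f.comp L.ψ) = 0 := by
    simp only [rp, Polynomial.map_sub, Polynomial.map_pow, map_comp, L.m1]
    rw [← expand_eq_comp_X_pow, ZMod.expand_card, sub_self]
  obtain ⟨g, hg⟩ := rp_zero_iff.1 h
  exact ⟨g, by rw [← hg]; ring⟩

noncomputable def dlP (f : ℤ[X]) : (ZMod p)[X] := rp p (ex_dl L f).choose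

theorem dlP_eq {f g : ℤ[X]} (h : f ^ p = f.comp L.ψ + C (p : ℤ) * g) : dlP L f = rp p g := by
  have h2 := (ex_dl L f).choose_spec
  have : (ex_dl L f).choose = g := C_cancel (p := p) (by linear_combination h - h2)
  rw [dlP, this]

theorem dlP_spec (f : ℤ[X]) : ∃ g : ℤ[X], f ^ p = f.comp L.ψ + C (p : ℤ) * g ∧ dlP L f = rp p g := by
  obtain ⟨g, hg⟩ := ex_dl L f
  exact ⟨g, hg, dlP_eq L hg⟩

theorem rp_comp (f : ℤ[X]) : rp p (f.comp L.ψ) = (rp p f) ^ p := by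
  simp only [rp, map_comp, L.m1]
  rw [← expand_eq_comp_X_pow, ZMod.expand_card]

theorem dlP_mul (f g : ℤ[X]) :
    dlP L (f * g) = dlP L f * rp p g ^ p + rp p f ^ p * dlP L g := by
  obtain ⟨a, ha, ha'⟩ := dlP_spec L f
  obtain ⟨b, hb, hb'⟩ := dlP_spec L g
  rw [dlP_eq L (f := f * g) (g := a * g.comp L.ψ + f ^ p * b) (by
    rw [mul_pow, mul_comp, ha, hb]; ring)]
  have hc := rp_comp L g
  simp only [rp, Polynomial.map_add, Polynomial.map_mul, Polynomial.map_pow] at *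
  rw [ha', hb', hc]

theorem dlP_C {a b : ℤ} (h : a ^ p = a + p * b) : dlP L (C a) = C (b : ZMod p) := by
  rw [dlP_eq L (g := C b) (by rw [C_comp, ← C_mul, ← C_add, ← C_pow, h])]
  simp [rp]

theorem dlP_pow (f : ℤ[X]) (m : ℕ) :
    dlP L (f ^ (m + 1)) = (m + 1) * rp p f ^ (p * m) * dlP L f := by
  induction m with
  | zero => simp
  | succ m ih =>
    rw [pow_succ, dlP_mul, ih]
    simp only [rp, Polynomial.map_pow]
    push_cast
    ring

theorem dlP_natDegree (f : ℤ[X]) : (dlP L f).natDegree ≤ p * f.natDegree := by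
  obtain ⟨g, hg, hg'⟩ := dlP_spec L f
  rw [hg']
  refine (natDegree_map_le).trans ?_
  have hp0 : (p : ℤ) ≠ 0 := by exact_mod_cast (Fact.out : p.Prime).ne_zero
  rw [← natDegree_C_mul hp0, show C (p : ℤ) * g = f ^ p - f.comp L.ψ by rw [hg]; ring]
  refine (natDegree_sub_le _ _).trans (max_le (natDegree_pow_le) ?_)
  rw [natDegree_comp, L.deg, Nat.mul_comm]

theorem dlP_X : ∃ d : (ZMod p)[X], dlP L X = X ^ (2 * n + 1) * d ∧
    (dlP L X).natDegree < p := by
  obtain ⟨t, ht⟩ : ∃ t : ℤ[X], X ^ (2 * n) - L.σ = C (p : ℤ) * t := by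
    refine rp_zero_iff.1 ?_
    simp only [rp, Polynomial.map_sub, Polynomial.map_pow, map_X, L.m2, sub_self]
  have hσ : L.σ = X ^ (2 * n) - C (p : ℤ) * t := by rw [← ht]; ring
  have hX : (X : ℤ[X]) ^ p = X * (X ^ (2 * n)) ^ 2 := by
    rw [← pow_mul, ← pow_succ']; congr 1; have := L.hp; omega
  have hg : (X : ℤ[X]) ^ p = (X : ℤ[X]).comp L.ψ + C (p : ℤ) * (X * t * (X ^ (2 * n) + L.σ)) := by
    rw [X_comp, L.h1, hX]
    linear_combination (X * (X ^ (2 * n) + L.σ)) * ht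
  refine ⟨2 * rp p t, ?_, ?_⟩
  · rw [dlP_eq L hg]
    simp only [rp, Polynomial.map_mul, Polynomial.map_add, Polynomial.map_pow, map_X, L.m2]
    ring
  · rw [dlP_eq L hg]
    refine lt_of_le_of_lt natDegree_map_le ?_
    have hp0 : (p : ℤ) ≠ 0 := by exact_mod_cast (Fact.out : p.Prime).ne_zero
    rw [← natDegree_C_mul hp0, show C (p : ℤ) * (X * t * (X ^ (2 * n) + L.σ)) = X ^ p - L.ψ by
      rw [X_comp] at hg; rw [hg]; ring]
    have h1 : (X ^ p - L.ψ : ℤ[X]).degree < (X ^ p : ℤ[X]).degree := by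
      refine degree_sub_lt_left ?_ (pow_ne_zero _ X_ne_zero) ?_
      · rw [degree_X_pow, degree_eq_natDegree L.mon.ne_zero, L.deg]
      · rw [(monic_X_pow p).leadingCoeff, L.mon.leadingCoeff]
    rw [degree_X_pow] at h1
    by_cases h0 : (X ^ p - L.ψ : ℤ[X]) = 0
    · rw [h0]; simpa using (Fact.out : p.Prime).pos
    · exact (natDegree_lt_iff_degree_lt h0).2 h1

theorem dlP_k : ∃ d : (ZMod p)[X], dlP L (X + 4) = (X + 4) ^ (2 * n + 1) * d ∧
    (dlP L (X + 4)).natDegree < p := by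
  obtain ⟨t, ht⟩ : ∃ t : ℤ[X], (X + 4) ^ (2 * n) - L.τ = C (p : ℤ) * t := by
    refine rp_zero_iff.1 ?_
    simp only [rp, Polynomial.map_sub, Polynomial.map_pow, map_X, L.m3, Polynomial.map_add,
      Polynomial.map_ofNat, sub_self]
  have hX : (X + 4 : ℤ[X]) ^ p = (X + 4) * ((X + 4) ^ (2 * n)) ^ 2 := by
    rw [← pow_mul, ← pow_succ']; congr 1; have := L.hp; omega
  have hc : (X + 4 : ℤ[X]).comp L.ψ = L.ψ + 4 := by simp
  have hg : (X + 4 : ℤ[X]) ^ p = (X + 4 : ℤ[X]).comp L.ψ +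
      C (p : ℤ) * ((X + 4) * t * ((X + 4) ^ (2 * n) + L.τ)) := by
    rw [hc, L.h2, hX]
    linear_combination ((X + 4) * ((X + 4) ^ (2 * n) + L.τ)) * ht
  refine ⟨2 * rp p t, ?_, ?_⟩
  · rw [dlP_eq L hg]
    simp only [rp, Polynomial.map_mul, Polynomial.map_add, Polynomial.map_pow, map_X, L.m3,
      Polynomial.map_ofNat]
    ring
  · rw [dlP_eq L hg]
    refine lt_of_le_of_lt natDegree_map_le ?_
    have hp0 : (p : ℤ) ≠ 0 := by exact_mod_cast (Fact.out : p.Prime).ne_zero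
    rw [← natDegree_C_mul hp0, show C (p : ℤ) * ((X + 4) * t * ((X + 4) ^ (2 * n) + L.τ)) =
      (X + 4) ^ p - (L.ψ + 4) by
      rw [hc] at hg; rw [hg]; ring]
    have hm : ((X + 4 : ℤ[X])).Monic := monic_X_add_C 4
    have hd : ((X + 4 : ℤ[X])).natDegree = 1 := natDegree_X_add_C (4 : ℤ)
    have hdp : ((X + 4 : ℤ[X]) ^ p).natDegree = p := by rw [hm.natDegree_pow, hd, mul_one]
    have h4 : (4 : ℤ[X]).degree < L.ψ.degree := by
      rw [degree_eq_natDegree L.mon.ne_zero, L.deg]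
      refine lt_of_le_of_lt (degree_le_natDegree) ?_
      rw [show (4 : ℤ[X]).natDegree = 0 from natDegree_ofNat 4]
      exact_mod_cast (Fact.out : p.Prime).pos
    have hm2 : (L.ψ + 4).Monic := L.mon.add_of_left h4
    have hd2 : (L.ψ + 4).natDegree = p := by
      rw [natDegree_add_eq_left_of_degree_lt h4, L.deg]
    have h1 : ((X + 4) ^ p - (L.ψ + 4) : ℤ[X]).degree < ((X + 4) ^ p : ℤ[X]).degree := by
      refine degree_sub_lt_left ?_ (hm.pow p).ne_zero ?_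
      · rw [degree_eq_natDegree (hm.pow p).ne_zero, hdp, degree_eq_natDegree hm2.ne_zero, hd2]
      · rw [(hm.pow p).leadingCoeff, hm2.leadingCoeff]
    rw [degree_eq_natDegree (hm.pow p).ne_zero, hdp] at h1
    by_cases h0 : ((X + 4) ^ p - (L.ψ + 4) : ℤ[X]) = 0
    · rw [h0]; simpa using (Fact.out : p.Prime).pos
    · exact (natDegree_lt_iff_degree_lt h0).2 h1

end Pool.Agent.H35.CE
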