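import Pool.Agent.H35.CE.A2
import Pool.Agent.H35.Q51.W1

/-! The arithmetic derivation on power series over the `p`-adic integers. -/

set_option autoImplicit false

open PowerSeries

namespace Pool.Agent.H35.CE

variable {p n : ℕ} [hpf : Fact p.Prime]

/-- coefficientwise reduction -/
noncomputable abbrev rs (p : ℕ) [Fact p.Prime] (f : ℤ_[p]⟦X⟧) : (ZMod p)⟦X⟧ :=
  PowerSeries.map PadicInt.toZMod f

/-- integral polynomials as power series -/
noncomputable def io (p : ℕ) [Fact p.Prime] : Polynomial ℤ →+* ℤ_[p]⟦X⟧ :=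
  (Polynomial.coeToPowerSeries.ringHom).comp (Polynomial.mapRingHom (Int.castRingHom ℤ_[p]))

theorem io_apply (f : Polynomial ℤ) : io p f = ((f.map (Int.castRingHom ℤ_[p]) : Polynomial ℤ_[p]) : ℤ_[p]⟦X⟧) := rfl

theorem io_X : io p Polynomial.X = X := by rw [io_apply]; simp

theorem io_C (a : ℤ) : io p (Polynomial.C a) = C (a : ℤ_[p]) := by
  rw [io_apply, Polynomial.map_C, Polynomial.coe_C, eq_intCast]

theorem rs_io (f : Polynomial ℤ) : rs p (io p f) = ((rp p f : Polynomial (ZMod p)) : (ZMod p)⟦X⟧) := by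
  rw [io_apply, rs, rp]
  ext k
  rw [coeff_map, Polynomial.coeff_coe, Polynomial.coeff_coe, Polynomial.coeff_map,
    Polynomial.coeff_map]
  simp

theorem rs_zero_iff {f : ℤ_[p]⟦X⟧} : rs p f = 0 ↔ ∃ g, f = C (p : ℤ_[p]) * g := by
  constructor
  · intro h
    have h1 : ∀ k, ∃ c, coeff k f = (p : ℤ_[p]) * c := by
      intro k
      have := congrArg (coeff k) h
      rw [rs, coeff_map, map_zero] at this
      exact (Pool.Agent.H35.Q51.padic_dvd_iff _).1 this
    choose c hc using h1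
    refine ⟨PowerSeries.mk c, ?_⟩
    ext k
    rw [hc, coeff_C_mul, coeff_mk]
  · rintro ⟨g, rfl⟩
    have : PadicInt.toZMod (p : ℤ_[p]) = 0 := by simp
    rw [rs, map_mul, map_C, this, map_zero, zero_mul]

theorem Cs_cancel {a b : ℤ_[p]⟦X⟧} (h : C (p : ℤ_[p]) * a = C (p : ℤ_[p]) * b) : a = b := by
  have hp0 : (p : ℤ_[p]) ≠ 0 := by exact_mod_cast hpf.out.ne_zero
  refine mul_left_cancel₀ ?_ h
  intro h0
  exact hp0 (by simpa using congrArg constantCoeff h0)

theorem charP_ps : CharP ((ZMod p)⟦X⟧) p :=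
  charP_of_injective_ringHom (f := (C : ZMod p →+* (ZMod p)⟦X⟧)) (C_injective) p

variable (L : Lf p n)
include L

theorem hs : HasSubst (io p L.ψ) := by
  refine HasSubst.of_constantCoeff_zero' ?_
  rw [L.h1, map_mul, io_X, map_mul, constantCoeff_X, zero_mul]

noncomputable def sS : ℤ_[p]⟦X⟧ →ₐ[ℤ_[p]] ℤ_[p]⟦X⟧ := substAlgHom (hs L)

theorem sS_X : sS L X = io p L.ψ := substAlgHom_X (hs L)

theorem sS_C (a : ℤ_[p]) : sS L (C a) = C a := by
  have := (sS L).commutes a
  simpa using this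

theorem sS_io (f : Polynomial ℤ) : sS L (io p f) = io p (f.comp L.ψ) := by
  induction f using Polynomial.induction_on with
  | C a => rw [Polynomial.C_comp, io_C, sS_C]
  | add f g hf hg => rw [map_add, map_add, hf, hg, Polynomial.add_comp, map_add]
  | monomial k a _ =>
    rw [map_mul, map_mul, io_C, sS_C, map_pow, map_pow, io_X, sS_X, Polynomial.mul_comp,
      Polynomial.C_comp, Polynomial.pow_comp, Polynomial.X_comp, map_mul, io_C, map_pow]

theorem dvd_frob (m : ℕ) : ∀ f : ℤ_[p]⟦X⟧, X ^ (p * m) ∣ rs p (sS L f) - rs p f ^ p := by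
  have := charP_ps (p := p)
  induction m with
  | zero => intro f; simp
  | succ m ih =>
    intro f
    obtain ⟨g, hg⟩ : ∃ g, f = C (constantCoeff f) + X * g := by
      have h : X ∣ f - C (constantCoeff f) := by rw [X_dvd_iff]; simp
      obtain ⟨g, hg⟩ := h
      exact ⟨g, by rw [← hg]; ring⟩
    obtain ⟨e, he⟩ := ih g
    have h1 : rs p (sS L f) = C (PadicInt.toZMod (constantCoeff f)) + X ^ p * rs p (sS L g) := by
      conv_lhs => rw [hg]
      rw [map_add, map_mul, sS_C, sS_X, rs, map_add, map_mul, map_C]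
      congr 2
      have := rs_io (p := p) L.ψ
      rw [rs] at this
      rw [this, rp, L.m1]
      simp
    have h2 : rs p f ^ p = C (PadicInt.toZMod (constantCoeff f)) + X ^ p * rs p g ^ p := by
      conv_lhs => rw [hg]
      rw [rs, map_add, map_mul, map_C, map_X, add_pow_char, mul_pow, ← map_pow, ZMod.pow_card]
    rw [h1, h2]
    refine ⟨e, ?_⟩
    rw [show p * (m + 1) = p + p * m by ring, pow_add]
    linear_combination X ^ p * he

theorem frob_ps (f : ℤ_[p]⟦X⟧) : rs p (sS L f) = rs p f ^ p := by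
  rw [← sub_eq_zero]
  ext k
  obtain ⟨e, he⟩ := dvd_frob L (k + 1) f
  rw [he, map_zero, coeff_X_pow_mul']
  rw [if_neg]
  have := hpf.out.pos
  nlinarith

theorem ex_ds (f : ℤ_[p]⟦X⟧) : ∃ g, f ^ p = sS L f + C (p : ℤ_[p]) * g := by
  have h : rs p (f ^ p - sS L f) = 0 := by
    rw [rs, map_sub, map_pow, sub_eq_zero]
    exact (frob_ps L f).symm
  obtain ⟨g, hg⟩ := rs_zero_iff.1 h
  exact ⟨g, by rw [← hg]; ring⟩

noncomputable def ds (f : ℤ_[p]⟦X⟧) : (ZMod p)⟦X⟧ := rs p (ex_ds L f).choose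

theorem ds_eq {f g : ℤ_[p]⟦X⟧} (h : f ^ p = sS L f + C (p : ℤ_[p]) * g) : ds L f = rs p g := by
  have h2 := (ex_ds L f).choose_spec
  have : (ex_ds L f).choose = g := Cs_cancel (p := p) (by linear_combination h - h2)
  rw [ds, this]

theorem ds_spec (f : ℤ_[p]⟦X⟧) : ∃ g, f ^ p = sS L f + C (p : ℤ_[p]) * g ∧ ds L f = rs p g := by
  obtain ⟨g, hg⟩ := ex_ds L f
  exact ⟨g, hg, ds_eq L hg⟩

theorem ds_mul (f g : ℤ_[p]⟦X⟧) : ds L (f * g) = ds L f * rs p g ^ p + rs p f ^ p * ds L g := by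
  obtain ⟨a, ha, ha'⟩ := ds_spec L f
  obtain ⟨b, hb, hb'⟩ := ds_spec L g
  rw [ds_eq L (f := f * g) (g := a * sS L g + f ^ p * b) (by
    rw [mul_pow, map_mul, ha, hb]; ring)]
  have hc := frob_ps L g
  simp only [rs, map_add, map_mul, map_pow] at *
  rw [ha', hb', hc]

theorem ds_io (f : Polynomial ℤ) : ds L (io p f) = ((dlP L f : Polynomial (ZMod p)) : (ZMod p)⟦X⟧) := by
  obtain ⟨g, hg, hg'⟩ := dlP_spec L f
  rw [ds_eq L (g := io p g), hg', rs_io]
  have := congrArg (io p) hg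
  rw [map_pow, map_add, map_mul, io_C] at this
  rw [this, sS_io]
  simp

theorem ds_C {a b : ℤ_[p]} (h : a ^ p = a + p * b) : ds L (C a) = C (PadicInt.toZMod b) := by
  rw [ds_eq L (g := C b)]
  · simp [rs]
  · rw [sS_C, ← map_pow, h]; simp

end Pool.Agent.H35.CE
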