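import Pool.Agent.H35.CE.A3

/-! The functional `u^k ↦ (-1)^k (2k choose k)`. -/

set_option autoImplicit false

open PowerSeries

namespace Pool.Agent.H35.CE

section gen
variable {R : Type*} [CommRing R]

noncomputable def Lp (p : ℕ) (f : R⟦X⟧) : R :=
  ∑ k ∈ Finset.range p, (-1) ^ k * (Nat.centralBinom k : R) * coeff k f

noncomputable def DD (g : R⟦X⟧) : R⟦X⟧ := (X + 2) * g + (X ^ 2 + 4 * X) * d⁄dX R g

theorem coeff_DD_zero (g : R⟦X⟧) : coeff 0 (DD g) = 2 * coeff 0 g := by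
  have h2 : constantCoeff (2 : R⟦X⟧) = 2 := by
    rw [show (2 : R⟦X⟧) = C 2 from (map_ofNat C 2).symm, constantCoeff_C]
  simp [DD, h2]

theorem coeff_DD_succ (g : R⟦X⟧) (k : ℕ) :
    coeff (k + 1) (DD g) = (k + 1) * coeff k g + (4 * (k + 1) + 2) * coeff (k + 1) g := by
  have e : DD g = X * g + C 2 * g + X * (X * d⁄dX R g) + C 4 * (X * d⁄dX R g) := by
    rw [DD, map_ofNat, map_ofNat]; ring
  rw [e]
  simp only [map_add, coeff_succ_X_mul, coeff_C_mul, coeff_derivative]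
  cases k with
  | zero => simp; ring
  | succ k =>
    rw [coeff_succ_X_mul, coeff_derivative]
    push_cast; ring

theorem Lp_DD (g : R⟦X⟧) (m : ℕ) :
    Lp (m + 1) (DD g) = (-1) ^ m * (2 * (2 * m + 1)) * (Nat.centralBinom m : R) * coeff m g := by
  induction m with
  | zero =>
    rw [Lp, Finset.sum_range_one, coeff_DD_zero]; simp
  | succ m ih =>
    rw [Lp, Finset.sum_range_succ, ← Lp, ih, coeff_DD_succ]
    have h : ((m : R) + 1) * (Nat.centralBinom (m + 1) : R) = 2 * (2 * m + 1) * Nat.centralBinom m := by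
      exact_mod_cast congrArg (Nat.cast (R := R)) (Nat.succ_mul_centralBinom_succ m)
    push_cast
    rw [pow_succ]
    linear_combination (-(-1) ^ m * coeff m g) * h

theorem Lp_add (p : ℕ) (f g : R⟦X⟧) : Lp p (f + g) = Lp p f + Lp p g := by
  simp only [Lp, ← Finset.sum_add_distrib, map_add, mul_add]

theorem Lp_C_mul (p : ℕ) (a : R) (f : R⟦X⟧) : Lp p (C a * f) = a * Lp p f := by
  simp only [Lp, Finset.mul_sum, coeff_C_mul]
  exact Finset.sum_congr rfl fun k _ => by ring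

theorem Lp_sum {ι : Type*} (p : ℕ) (s : Finset ι) (f : ι → R⟦X⟧) :
    Lp p (∑ i ∈ s, f i) = ∑ i ∈ s, Lp p (f i) := by
  classical
  induction s using Finset.induction_on with
  | empty => simp [Lp]
  | insert a s ha ih => rw [Finset.sum_insert ha, Finset.sum_insert ha, Lp_add, ih]

theorem Lp_congr {p : ℕ} {f g : R⟦X⟧} (h : X ^ p ∣ f - g) : Lp p f = Lp p g := by
  refine Finset.sum_congr rfl fun k hk => ?_
  have := X_pow_dvd_iff.1 h k (Finset.mem_range.1 hk)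
  rw [map_sub, sub_eq_zero] at this
  rw [this]

theorem DD_pow {Y h : R⟦X⟧} {θ : R} (hY : Y = C θ * (X ^ 2 + 4 * X) * h ^ 2) (m : ℕ) :
    DD (Y ^ m * h) = C ((2 * m + 1 : ℕ) : R) * (Y ^ m * DD h) := by
  have hYd : (X ^ 2 + 4 * X) * h * d⁄dX R Y = 2 * Y * DD h := by
    rw [hY, DD]
    simp only [Derivation.leibniz, map_add, derivative_X, derivative_C, derivative_pow, smul_eq_mul,
      pow_one, Nat.cast_ofNat, map_ofNat]
    have h4 : d⁄dX R (4 : R⟦X⟧) = 0 := by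
      rw [show (4 : R⟦X⟧) = C 4 from (map_ofNat C 4).symm, derivative_C]
    simp only [h4, show (2 : ℕ) - 1 = 1 from rfl, pow_one]
    ring
  rw [map_natCast]
  cases m with
  | zero => simp
  | succ m =>
    rw [DD, Derivation.leibniz, derivative_pow, smul_eq_mul, smul_eq_mul, Nat.add_sub_cancel, DD]
    rw [DD] at hYd
    push_cast
    linear_combination ((m : R⟦X⟧) + 1) * Y ^ m * hYd

end gen

variable {p : ℕ} [hpf : Fact p.Prime]

/-- coefficients of `(1+y)^r` up to order `p` -/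
noncomputable def bp (p : ℕ) [Fact p.Prime] (r : ℤ_[p]) (y : ℤ_[p]⟦X⟧) : ℤ_[p]⟦X⟧ :=
  ∑ k ∈ Finset.range p, C (Ring.choose r k) * y ^ k

theorem bp_pow {r : ℤ_[p]} {j : ℕ} (h : 4 * r = -(j : ℤ_[p])) {y : ℤ_[p]⟦X⟧} (hy : X ∣ y) :
    X ^ p ∣ bp p r y ^ 4 * (1 + y) ^ j - 1 := by
  set B : ℤ_[p]⟦X⟧ := binomialSeries ℤ_[p] r with hB
  have hB4 : B ^ 4 * (1 + X) ^ j = 1 := by
    rw [show B ^ 4 = B * B * B * B by ring, hB, ← binomialSeries_nat (R := ℤ_[p]) j,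
      ← binomialSeries_add, ← binomialSeries_add, ← binomialSeries_add, ← binomialSeries_add,
      show r + r + r + r + (j : ℤ_[p]) = 0 by linear_combination h, binomialSeries_zero]
  set P : Polynomial ℤ_[p] := ∑ k ∈ Finset.range p, Polynomial.C (Ring.choose r k) * Polynomial.X ^ k
    with hP
  have hPc : ∀ k, k < p → P.coeff k = Ring.choose r k := by
    intro k hk
    rw [hP, Polynomial.finsetSum_coeff]
    simp only [Polynomial.coeff_C_mul_X_pow]
    rw [Finset.sum_ite_eq]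
    simp [hk]
  obtain ⟨g, hg⟩ : ∃ g, B = (P : ℤ_[p]⟦X⟧) + X ^ p * g := by
    have : X ^ p ∣ B - (P : ℤ_[p]⟦X⟧) := by
      rw [X_pow_dvd_iff]
      intro k hk
      rw [map_sub, Polynomial.coeff_coe, hPc k hk, hB, binomialSeries_coeff]
      simp
    obtain ⟨g, hg⟩ := this
    exact ⟨g, by rw [← hg]; ring⟩
  set Q : Polynomial ℤ_[p] := P ^ 4 * (1 + Polynomial.X) ^ j - 1 with hQ
  have hQX : (X : ℤ_[p]⟦X⟧) ^ p ∣ (Q : ℤ_[p]⟦X⟧) := by
    have e : (Q : ℤ_[p]⟦X⟧) = (P : ℤ_[p]⟦X⟧) ^ 4 * (1 + X) ^ j - 1 := by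
      rw [hQ]; push_cast; rfl
    rw [e, show (P : ℤ_[p]⟦X⟧) = B - X ^ p * g by rw [hg]; ring]
    refine ⟨(-4 * B ^ 3 * g + 6 * B ^ 2 * (X ^ p) * g ^ 2 - 4 * B * (X ^ p) ^ 2 * g ^ 3 +
      (X ^ p) ^ 3 * g ^ 4) * (1 + X) ^ j, ?_⟩
    linear_combination hB4
  obtain ⟨Q', hQ'⟩ : ∃ Q', Q = Polynomial.X ^ p * Q' := by
    have : Polynomial.X ^ p ∣ Q := by
      rw [Polynomial.X_pow_dvd_iff]
      intro d hd
      have := X_pow_dvd_iff.1 hQX d hd
      rwa [Polynomial.coeff_coe] at this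
    exact this
  have e1 : Polynomial.aeval y P = bp p r y := by
    rw [hP, bp, map_sum]
    refine Finset.sum_congr rfl fun k _ => ?_
    rw [map_mul, map_pow, Polynomial.aeval_X, Polynomial.aeval_C]
    rfl
  have e2 := congrArg (Polynomial.aeval y) hQ'
  rw [hQ, map_sub, map_mul, map_pow, map_pow, e1, map_add, map_one, Polynomial.aeval_X, map_mul,
    map_pow, Polynomial.aeval_X] at e2
  rw [e2]
  exact Dvd.dvd.mul_right (pow_dvd_pow_of_dvd hy p) _

theorem root4 (hp2 : p ≠ 2) {a b : ℤ_[p]⟦X⟧} (ha : constantCoeff a = 1) (hb : constantCoeff b = 1)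
    (h : X ^ p ∣ a ^ 4 - b ^ 4) : X ^ p ∣ a - b := by
  have e : a ^ 4 - b ^ 4 = (a - b) * (a ^ 3 + a ^ 2 * b + a * b ^ 2 + b ^ 3) := by ring
  have hu : IsUnit (a ^ 3 + a ^ 2 * b + a * b ^ 2 + b ^ 3) := by
    rw [isUnit_iff_constantCoeff]
    simp only [map_add, map_mul, map_pow, ha, hb]
    have : IsUnit (4 : ℤ_[p]) := by
      refine Pool.Agent.H35.Q51.padic_unit ?_
      rw [map_ofNat]
      have : ((2 : ℕ) : ZMod p) ≠ 0 := by
        rw [Ne, ZMod.natCast_eq_zero_iff]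
        intro hd
        exact hp2 ((Nat.prime_dvd_prime_iff_eq hpf.out Nat.prime_two).1 hd)
      have h4 : (4 : ZMod p) = ((2 : ℕ) : ZMod p) * ((2 : ℕ) : ZMod p) := by norm_num
      rw [h4]
      exact mul_ne_zero this this
    convert this using 1; norm_num
  rw [e] at h
  exact (hu.dvd_mul_right).1 h

/-- Data of power series. -/
structure PD (p : ℕ) [Fact p.Prime] where
  θ : ℤ_[p]
  κ : ℤ_[p]
  Y : ℤ_[p]⟦X⟧
  h : ℤ_[p]⟦X⟧
  hY : Y = C θ * (X ^ 2 + 4 * X) * h ^ 2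
  h0 : 2 * constantCoeff h = 1
  hD : DD h ^ 4 * (1 + C κ * X) = (1 - Y) ^ 3

theorem PD.XY (D : PD p) : X ∣ D.Y := by
  rw [D.hY]; exact ⟨C D.θ * (X + 4) * D.h ^ 2, by ring⟩

theorem DD_const {R : Type*} [CommRing R] (g : R⟦X⟧) : constantCoeff (DD g) = 2 * constantCoeff g := by
  have := coeff_DD_zero g
  simpa using this

theorem bp_const (r : ℤ_[p]) {y : ℤ_[p]⟦X⟧} (hy : X ∣ y) : constantCoeff (bp p r y) = 1 := by
  have hy0 : constantCoeff y = 0 := X_dvd_iff.1 hy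
  rw [bp, map_sum]
  rw [Finset.sum_eq_single 0]
  · simp
  · intro k _ hk
    rw [map_mul, map_pow, hy0, zero_pow hk, mul_zero]
  · intro h; exact absurd (Finset.mem_range.2 hpf.out.pos) h

theorem F_eq (hp2 : p ≠ 2) (D : PD p) {r1 r3 : ℤ_[p]} (h1 : 4 * r1 = -1) (h3 : 4 * r3 = -3) :
    X ^ p ∣ bp p r1 (C D.κ * X) - bp p r3 (-D.Y) * DD D.h := by
  have hy1 : (X : ℤ_[p]⟦X⟧) ∣ C D.κ * X := Dvd.intro_left _ rfl
  have hy3 : (X : ℤ_[p]⟦X⟧) ∣ -D.Y := (dvd_neg).2 D.XY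
  refine root4 hp2 (bp_const _ hy1) ?_ ?_
  · rw [map_mul, bp_const _ hy3, DD_const, D.h0, one_mul]
  · obtain ⟨a, ha⟩ := bp_pow (r := r1) (j := 1) (by rw [h1]; norm_num) hy1
    obtain ⟨b, hb⟩ := bp_pow (r := r3) (j := 3) (by rw [h3]; norm_num) hy3
    have hu : IsUnit (1 + C D.κ * X) := by
      rw [isUnit_iff_constantCoeff]; simp
    refine (hu.dvd_mul_right).1 ⟨a - b, ?_⟩
    have hD := D.hD
    linear_combination ha - hb - bp p r3 (-D.Y) ^ 4 * hD

end Pool.Agent.H35.CE
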