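import Pool.Agent.H35.CE.B1

/-! Evaluation of the functional on `(1+κu)^(-1/4)`. -/

set_option autoImplicit false

open PowerSeries

namespace Pool.Agent.H35.CE

variable {p : ℕ} [hpf : Fact p.Prime]

/-- the truncated hypergeometric sum -/
noncomputable def SS (p : ℕ) [Fact p.Prime] (r κ : ℤ_[p]) : ℤ_[p] :=
  ∑ k ∈ Finset.range p, (-1) ^ k * (Nat.centralBinom k : ℤ_[p]) * (Ring.choose r k * κ ^ k)

theorem Lp_bp (r κ : ℤ_[p]) : Lp p (bp p r (C κ * X)) = SS p r κ := by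
  refine Finset.sum_congr rfl fun k hk => ?_
  congr 1
  have e : bp p r (C κ * X) = ∑ k ∈ Finset.range p, C (Ring.choose r k * κ ^ k) * X ^ k := by
    refine Finset.sum_congr rfl fun i _ => ?_
    rw [mul_pow, map_mul, map_pow]; ring
  rw [e, map_sum]
  simp only [coeff_C_mul_X_pow]
  rw [Finset.sum_ite_eq]
  simp [Finset.mem_range.1 hk]

/-- `β_m = (3/4)_m / m!` -/
noncomputable def bt (r : ℤ_[p]) (m : ℕ) : ℤ_[p] := (-1) ^ m * Ring.choose r m

theorem bp_neg (r : ℤ_[p]) (Y : ℤ_[p]⟦X⟧) :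
    bp p r (-Y) = ∑ m ∈ Finset.range p, C (bt r m) * Y ^ m := by
  refine Finset.sum_congr rfl fun i _ => ?_
  rw [bt, map_mul, neg_pow, map_pow, map_neg, map_one]; ring

/-- `e_m` -/
noncomputable def em (D : PD p) (m : ℕ) : ℤ_[p] := coeff (p - 1) (D.Y ^ m * D.h)

noncomputable def lm (D : PD p) (m : ℕ) : ℤ_[p] := Lp p (D.Y ^ m * DD D.h)

theorem SS_eq (hp2 : p ≠ 2) (D : PD p) {r1 r3 : ℤ_[p]} (h1 : 4 * r1 = -1) (h3 : 4 * r3 = -3) :
    SS p r1 D.κ = ∑ m ∈ Finset.range p, bt r3 m * lm D m := by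
  rw [← Lp_bp, Lp_congr (F_eq hp2 D h1 h3), bp_neg, Finset.sum_mul, Lp_sum]
  refine Finset.sum_congr rfl fun m _ => ?_
  rw [mul_assoc, Lp_C_mul, lm]

theorem Lp_DD' {R : Type*} [CommRing R] (g : R⟦X⟧) {P : ℕ} (hP : Odd P) :
    Lp P (DD g) = (P : R) * (Nat.centralBinom P : R) * coeff (P - 1) g := by
  obtain ⟨q, hq⟩ : ∃ q, P = q + 1 := ⟨P - 1, by have := hP.pos; omega⟩
  have hqe : Even q := by
    rw [hq] at hP
    rcases Nat.even_or_odd q with h | h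
    · exact h
    · exact absurd hP (by rw [Nat.not_odd_iff_even]; exact h.add_one)
  subst hq
  have h2 : ((q : R) + 1) * (Nat.centralBinom (q + 1) : R) = 2 * (2 * q + 1) * Nat.centralBinom q := by
    exact_mod_cast congrArg (Nat.cast (R := R)) (Nat.succ_mul_centralBinom_succ q)
  rw [Lp_DD, hqe.neg_one_pow, Nat.add_sub_cancel]
  push_cast
  linear_combination (-coeff q g) * h2

theorem lm_eq (hp2 : p ≠ 2) (D : PD p) (m : ℕ) :
    ((2 * m + 1 : ℕ) : ℤ_[p]) * lm D m = (p : ℤ_[p]) * (Nat.centralBinom p : ℤ_[p]) * em D m := by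
  rw [lm, ← Lp_C_mul, ← DD_pow D.hY, em]
  exact Lp_DD' _ (hpf.out.odd_of_ne_two hp2)

/-- the middle term -/
theorem lm_mid (hp2 : p ≠ 2) (D : PD p) {m : ℕ} (hm : 2 * m + 1 = p) :
    lm D m = (Nat.centralBinom p : ℤ_[p]) * em D m := by
  have h := lm_eq hp2 D m
  have hp0 : (p : ℤ_[p]) ≠ 0 := by exact_mod_cast hpf.out.ne_zero
  rw [hm, mul_assoc] at h
  exact mul_left_cancel₀ hp0 h

theorem unit_natCast {m : ℕ} (h : ¬ p ∣ m) : IsUnit (m : ℤ_[p]) := by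
  refine Pool.Agent.H35.Q51.padic_unit ?_
  rw [map_natCast, Ne, ZMod.natCast_eq_zero_iff]
  exact h

/-- off the middle -/
theorem two_m_unit {m : ℕ} (hm : m < p) (hm2 : 2 * m + 1 ≠ p) (hp2 : p ≠ 2) :
    ¬ p ∣ (2 * m + 1) := by
  rintro ⟨c, hc⟩
  have h2 : 2 * m + 1 < 2 * p := by omega
  have : c < 2 := by
    by_contra h
    push Not at h
    have : p * 2 ≤ p * c := Nat.mul_le_mul_left p h
    omega
  interval_cases c
  · omega
  · omega

theorem lm_dvd (hp2 : p ≠ 2) (D : PD p) {m : ℕ} (hm : m < p) (hm2 : 2 * m + 1 ≠ p) :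
    (p : ℤ_[p]) ∣ lm D m := by
  have h := lm_eq hp2 D m
  have hu := unit_natCast (two_m_unit hm hm2 hp2)
  exact (hu.dvd_mul_left).1 ⟨(Nat.centralBinom p : ℤ_[p]) * em D m, by rw [h]; ring⟩

theorem toZMod_eq_iff {a b : ℤ_[p]} : PadicInt.toZMod a = PadicInt.toZMod b ↔ (p : ℤ_[p]) ∣ a - b := by
  rw [← Pool.Agent.H35.Q51.padic_dvd_iff, map_sub, sub_eq_zero]

/-- reduction modulo `p` -/
theorem SS_mod (hp2 : p ≠ 2) (D : PD p) {r1 r3 : ℤ_[p]} (h1 : 4 * r1 = -1) (h3 : 4 * r3 = -3)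
    {m : ℕ} (hm : 2 * m + 1 = p) :
    PadicInt.toZMod (SS p r1 D.κ) = PadicInt.toZMod (bt r3 m * ((Nat.centralBinom p : ℤ_[p]) * em D m)) := by
  rw [SS_eq hp2 D h1 h3, ← lm_mid hp2 D hm]
  have hmp : m ∈ Finset.range p := Finset.mem_range.2 (by omega)
  rw [← Finset.add_sum_erase _ _ hmp, toZMod_eq_iff, add_sub_cancel_left]
  refine Finset.dvd_sum fun i hi => ?_
  obtain ⟨hi1, hi2⟩ := Finset.mem_erase.1 hi
  exact Dvd.dvd.mul_left (lm_dvd hp2 D (Finset.mem_range.1 hi2) (by omega)) _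

theorem fac_choose (r : ℤ_[p]) (k : ℕ) :
    (k.factorial : ℤ_[p]) * Ring.choose r k = ∏ j ∈ Finset.range k, (r - j) := by
  have h := Ring.descPochhammer_eq_factorial_smul_choose r k
  rw [nsmul_eq_mul] at h
  rw [← h]
  clear h
  induction k with
  | zero => simp
  | succ k ih =>
    rw [Finset.prod_range_succ, ← ih, descPochhammer_succ_right, Polynomial.smeval_mul,
      Polynomial.smeval_sub, Polynomial.smeval_X, Polynomial.smeval_natCast]
    simp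

end Pool.Agent.H35.CE
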