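import Mathlib

/-! Polynomial identities modulo `p = 4n+1`. -/

set_option autoImplicit false

open Polynomial

namespace Pool.Agent.H35.CE

/-- `-(-1)^j (p choose j)/p` -/
def ee (p j : ℕ) : ℤ := -(-1) ^ j * ((p.choose j / p : ℕ) : ℤ)

theorem sub_pow_ee {p : ℕ} (hp : p.Prime) (hp2 : p ≠ 2) {A : Type*} [CommRing A] (a b : A) :
    (a - b) ^ p = a ^ p - b ^ p - p * ∑ j ∈ Finset.Ico 1 p, (ee p j : A) * (b ^ j * a ^ (p - j)) := by
  have hodd : Odd p := hp.odd_of_ne_two hp2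
  rw [sub_eq_neg_add, add_pow, Finset.sum_range_succ, Finset.range_eq_Ico,
    Finset.sum_eq_sum_Ico_succ_bot hp.pos, hodd.neg_pow]
  have h : ∑ k ∈ Finset.Ico (0 + 1) p, (-b) ^ k * a ^ (p - k) * (p.choose k : A) =
      -(p * ∑ j ∈ Finset.Ico 1 p, (ee p j : A) * (b ^ j * a ^ (p - j))) := by
    rw [Finset.mul_sum, ← Finset.sum_neg_distrib]
    refine Finset.sum_congr rfl fun k hk => ?_
    obtain ⟨hk1, hk2⟩ := Finset.mem_Ico.1 hk
    have hd : p ∣ p.choose k := hp.dvd_choose_self (by omega) hk2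
    have hc : (p.choose k : A) = (p : A) * ((p.choose k / p : ℕ) : A) := by
      rw [← Nat.cast_mul, Nat.mul_div_cancel' hd]
    rw [hc, ee, neg_pow]
    simp only [Int.cast_mul, Int.cast_neg, Int.cast_pow, Int.cast_one, Int.cast_natCast]
    ring
  rw [h]
  simp
  ring

/-- `(1 - X^p - (1-X)^p)/p` -/
noncomputable def Ez (p : ℕ) : ℤ[X] := ∑ j ∈ Finset.Ico 1 p, C (ee p j) * X ^ j

theorem Ez_eq {p : ℕ} (hp : p.Prime) (hp2 : p ≠ 2) :
    C (p : ℤ) * Ez p = 1 - X ^ p - (1 - X) ^ p := by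
  have h := sub_pow_ee hp hp2 (1 : ℤ[X]) X
  rw [h, Ez]
  simp

variable {p n : ℕ} [hpf : Fact p.Prime]

noncomputable abbrev rq (p : ℕ) (f : ℤ[X]) : (ZMod p)[X] := f.map (Int.castRingHom (ZMod p))

theorem Cp_cancel {a b : ℤ[X]} (h : C (p : ℤ) * a = C (p : ℤ) * b) : a = b := by
  have hp0 : (p : ℤ) ≠ 0 := by exact_mod_cast (Fact.out : p.Prime).ne_zero
  exact mul_left_cancel₀ (by rwa [Ne, C_eq_zero]) h

theorem Ez_eval (hp2 : p ≠ 2) : (rq p (Ez p)).eval 1 = 0 := by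
  have h := Ez_eq hpf.out hp2
  have h1 := congrArg (Polynomial.eval 1) h
  simp only [eval_mul, eval_C, eval_sub, eval_one, eval_pow, eval_X, one_pow, sub_self] at h1
  rw [zero_pow hpf.out.ne_zero, sub_zero] at h1
  have hp0 : (p : ℤ) ≠ 0 := by exact_mod_cast (Fact.out : p.Prime).ne_zero
  have h2 : (Ez p).eval 1 = 0 := by
    rcases mul_eq_zero.1 h1 with h | h
    · exact absurd h hp0
    · exact h
  rw [rq, eval_map, ← Int.cast_one, ← eq_intCast (Int.castRingHom (ZMod p)) 1, eval₂_at_apply, h2,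
    map_zero]

theorem Ez_deriv (hp2 : p ≠ 2) : derivative (rq p (Ez p)) = (1 - X) ^ (p - 1) - X ^ (p - 1) := by
  have h := congrArg derivative (Ez_eq hpf.out hp2)
  rw [derivative_C_mul, derivative_sub, derivative_sub, derivative_X_pow, derivative_pow,
    derivative_one, derivative_sub, derivative_X, derivative_one] at h
  have h2 : derivative (Ez p) = (1 - X) ^ (p - 1) - X ^ (p - 1) := by
    apply Cp_cancel (p := p)
    rw [h]; simp; ring
  rw [rq, derivative_map, h2]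
  simp

theorem Ez_deg : (rq p (Ez p)).natDegree ≤ p - 1 := by
  refine natDegree_map_le.trans ?_
  refine natDegree_sum_le_of_forall_le _ _ fun j hj => ?_
  obtain ⟨_, h2⟩ := Finset.mem_Ico.1 hj
  exact (natDegree_C_mul_X_pow_le _ _).trans (by omega)

/-- multiplicity of a root from the derivative -/
theorem root_mult {F : Type*} [Field F] {p : ℕ} [hpf : Fact p.Prime] [CharP F p] {f : F[X]} {k : ℕ}
    (hk : k < p) (h1 : f.eval 1 = 0) (hd : (1 - X) ^ k ∣ derivative f) : (1 - X) ^ (k + 1) ∣ f := by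
  have key : ∀ i, i ≤ k → (1 - X) ^ (i + 1) ∣ f := by
    intro i
    induction i with
    | zero =>
      intro _
      rw [zero_add, pow_one]
      have : X - C 1 ∣ f := dvd_iff_isRoot.2 h1
      rw [show (1 - X : F[X]) = -(X - C 1) by rw [C_1]; ring]
      exact (neg_dvd).2 this
    | succ i ih =>
      intro hi
      obtain ⟨g, hg⟩ := ih (by omega)
      have hne : (1 - X : F[X]) ≠ 0 := by
        rw [show (1 - X : F[X]) = -(X - C 1) by rw [C_1]; ring]
        exact neg_ne_zero.2 (X_sub_C_ne_zero 1)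
      have h2 : (1 - X) ^ (i + 1) ∣ derivative f := (pow_dvd_pow _ hi).trans hd
      have h3 : derivative f = -(((i + 1 : ℕ) : F[X]) * (1 - X) ^ i * g) + (1 - X) ^ (i + 1) * derivative g := by
        rw [hg, derivative_mul, derivative_pow]
        simp
      have h4 : (1 - X) ^ (i + 1) ∣ ((i + 1 : ℕ) : F[X]) * (1 - X) ^ i * g := by
        have e : ((i + 1 : ℕ) : F[X]) * (1 - X) ^ i * g = (1 - X) ^ (i + 1) * derivative g - derivative f := by
          rw [h3]; ring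
        rw [e]
        exact dvd_sub (Dvd.intro _ rfl) h2
      obtain ⟨w, hw⟩ := h4
      have h5 : ((i + 1 : ℕ) : F[X]) * g = (1 - X) * w := by
        refine mul_left_cancel₀ (pow_ne_zero i hne) ?_
        rw [pow_succ] at hw
        linear_combination hw
      have h6 : ((i + 1 : ℕ) : F) ≠ 0 := by
        rw [Ne, CharP.cast_eq_zero_iff F p]
        intro hdv
        have := Nat.le_of_dvd (by omega) hdv
        omega
      refine ⟨C (((i + 1 : ℕ) : F)⁻¹) * w, ?_⟩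
      rw [hg, pow_succ (1 - X) (i + 1)]
      have h7 : g = C (((i + 1 : ℕ) : F)⁻¹) * ((1 - X) * w) := by
        rw [← h5, ← C_eq_natCast, ← mul_assoc, ← C_mul, inv_mul_cancel₀ h6, C_1, one_mul]
      rw [h7]; ring
  exact key k le_rfl

/-- coefficients `(-1)^m (3n choose m)` -/
def bb (p n m : ℕ) : ZMod p := (-1) ^ m * ((3 * n).choose m : ZMod p)

theorem bb_ne (hp : p = 4 * n + 1) : bb p n (2 * n) ≠ 0 := by
  rw [bb]
  refine mul_ne_zero (pow_ne_zero _ (neg_ne_zero.2 one_ne_zero)) ?_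
  rw [Ne, ZMod.natCast_eq_zero_iff]
  intro h
  have h1 : p ∣ (3 * n).factorial := by
    rw [← Nat.choose_mul_factorial_mul_factorial (show 2 * n ≤ 3 * n by omega)]
    exact Dvd.dvd.mul_right (Dvd.dvd.mul_right h _) _
  rw [hpf.out.dvd_factorial] at h1
  omega

theorem bb_zero {m : ℕ} (h : 3 * n < m) : bb p n m = 0 := by
  rw [bb, Nat.choose_eq_zero_of_lt h]; simp

noncomputable def Si (p n : ℕ) [Fact p.Prime] : (ZMod p)[X] :=
  ∑ m ∈ (Finset.range p).erase (2 * n), C (bb p n m / (2 * m + 1 : ℕ)) * X ^ (2 * n + m + 1)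

noncomputable def P1 (p n : ℕ) [Fact p.Prime] : ZMod p :=
  ∑ m ∈ (Finset.range p).erase (2 * n), bb p n m / (2 * m + 1 : ℕ)

theorem Si_eval : (Si p n).eval 1 = P1 p n := by
  rw [Si, P1, eval_finsetSum]
  simp

noncomputable def cc (p n : ℕ) [Fact p.Prime] : ZMod p := -(2 / bb p n (2 * n)) * P1 p n

noncomputable def G1 (p n : ℕ) [Fact p.Prime] : (ZMod p)[X] :=
  rq p (Ez p) - C (2 / bb p n (2 * n)) * Si p n - C (cc p n) * X ^ p

theorem G1_eval (hp : p = 4 * n + 1) (hp2 : p ≠ 2) : (G1 p n).eval 1 = 0 := by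
  rw [G1, eval_sub, eval_sub, Ez_eval hp2, eval_mul, eval_C, Si_eval, eval_mul, eval_C, eval_pow,
    eval_X, one_pow, cc]
  ring

theorem two_m (hp : p = 4 * n + 1) {m : ℕ} (hm : m < p) (hm2 : m ≠ 2 * n) :
    ((2 * m + 1 : ℕ) : ZMod p) ≠ 0 := by
  rw [Ne, ZMod.natCast_eq_zero_iff]
  rintro ⟨c, hc⟩
  have : c < 2 := by
    by_contra h
    push Not at h
    have : p * 2 ≤ p * c := Nat.mul_le_mul_left p h
    omega
  interval_cases c
  · omega
  · omega

theorem Si_deriv (hp : p = 4 * n + 1) (hp2 : p ≠ 2) :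
    C 2 * derivative (Si p n) = X ^ (2 * n) * ((1 - X) ^ (3 * n) - C (bb p n (2 * n)) * X ^ (2 * n)) := by
  have e1 : (1 - X : (ZMod p)[X]) ^ (3 * n) = ∑ m ∈ Finset.range p, C (bb p n m) * X ^ m := by
    rw [sub_eq_neg_add, add_pow]
    have hsub : Finset.range (3 * n + 1) ⊆ Finset.range p := by
      intro x hx; rw [Finset.mem_range] at *; omega
    rw [← Finset.sum_subset hsub]
    · refine Finset.sum_congr rfl fun m _ => ?_
      rw [bb, neg_pow, one_pow, mul_one, C_mul, C_pow, C_neg, C_1, C_eq_natCast]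
      ring
    · intro m _ hm
      rw [bb_zero (by rw [Finset.mem_range] at hm; omega), C_0, zero_mul]
  have hmem : 2 * n ∈ Finset.range p := Finset.mem_range.2 (by omega)
  rw [e1, ← Finset.add_sum_erase _ _ hmem, add_sub_cancel_left, Si, derivative_sum, Finset.mul_sum,
    Finset.mul_sum]
  refine Finset.sum_congr rfl fun m hm => ?_
  obtain ⟨hm1, hm2⟩ := Finset.mem_erase.1 hm
  have h0 := two_m hp (Finset.mem_range.1 hm2) hm1
  rw [derivative_C_mul_X_pow, Nat.add_sub_cancel, ← mul_assoc, ← C_mul, pow_add]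
  have : (2 : ZMod p) * (bb p n m / ((2 * m + 1 : ℕ) : ZMod p) * ((2 * n + m + 1 : ℕ) : ZMod p)) = bb p n m := by
    have hc : (2 : ZMod p) * ((2 * n + m + 1 : ℕ) : ZMod p) = ((2 * m + 1 : ℕ) : ZMod p) := by
      have : (2 : ZMod p) * ((2 * n + m + 1 : ℕ) : ZMod p) = ((p + (2 * m + 1) : ℕ) : ZMod p) := by
        rw [show p + (2 * m + 1) = 2 * (2 * n + m + 1) by omega]; push_cast; ring
      rw [this]; push_cast; simp
    rw [div_mul_eq_mul_div, mul_div_assoc', div_eq_iff h0, ← hc]; ring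
  rw [this]
  ring

theorem G1_deriv (hp : p = 4 * n + 1) (hp2 : p ≠ 2) : (1 - X) ^ (3 * n) ∣ derivative (G1 p n) := by
  have hb := bb_ne hp
  have h2 : (2 : ZMod p) ≠ 0 := by
    have : ((2 : ℕ) : ZMod p) ≠ 0 := by
      rw [Ne, ZMod.natCast_eq_zero_iff]
      intro hd
      exact hp2 ((Nat.prime_dvd_prime_iff_eq hpf.out Nat.prime_two).1 hd)
    exact_mod_cast this
  have e : derivative (G1 p n) = (1 - X) ^ (3 * n) * ((1 - X) ^ n - C (1 / bb p n (2 * n)) * X ^ (2 * n)) := by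
    rw [G1, derivative_sub, derivative_sub, derivative_C_mul, derivative_C_mul, Ez_deriv hp2,
      derivative_X_pow]
    have h3 := Si_deriv hp hp2
    have h4 : C (2 / bb p n (2 * n)) * derivative (Si p n) =
        C (1 / bb p n (2 * n)) * (X ^ (2 * n) * ((1 - X) ^ (3 * n) - C (bb p n (2 * n)) * X ^ (2 * n))) := by
      rw [← h3, ← mul_assoc, ← C_mul]; congr 2; ring
    have h5 : C (1 / bb p n (2 * n)) * C (bb p n (2 * n)) = 1 := by
      rw [← C_mul, one_div, inv_mul_cancel₀ hb, C_1]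
    have hp1 : p - 1 = 4 * n := by omega
    rw [h4, hp1, CharP.cast_eq_zero, C_0]
    have e4 : (1 - X : (ZMod p)[X]) ^ (4 * n) = (1 - X) ^ (3 * n) * (1 - X) ^ n := by
      rw [← pow_add]; congr 1; omega
    have e5 : (X : (ZMod p)[X]) ^ (4 * n) = X ^ (2 * n) * X ^ (2 * n) := by
      rw [← pow_add]; congr 1; omega
    rw [e4, e5]
    linear_combination X ^ (2 * n) * X ^ (2 * n) * h5
  exact ⟨_, e⟩

theorem G1_dvd (hp : p = 4 * n + 1) (hp2 : p ≠ 2) : (1 - X) ^ (3 * n + 1) ∣ G1 p n :=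
  root_mult (p := p) (by omega) (G1_eval hp hp2) (G1_deriv hp hp2)

theorem Si_deg (hp : p = 4 * n + 1) : (Si p n).natDegree ≤ 5 * n + 1 := by
  refine natDegree_sum_le_of_forall_le _ _ fun m hm => ?_
  by_cases h : 3 * n < m
  · rw [bb_zero h]; simp
  · exact (natDegree_C_mul_X_pow_le _ _).trans (by omega)

theorem G1_deg (hp : p = 4 * n + 1) : (G1 p n).natDegree ≤ 5 * n + 1 := by
  refine (natDegree_sub_le _ _).trans (max_le ((natDegree_sub_le _ _).trans (max_le ?_ ?_)) ?_)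
  · exact Ez_deg.trans (by omega)
  · exact (natDegree_C_mul_le _ _).trans (Si_deg hp)
  · exact (natDegree_C_mul_X_pow_le _ _).trans (by omega)

theorem G4_ex (hp : p = 4 * n + 1) (hp2 : p ≠ 2) :
    ∃ G4 : (ZMod p)[X], G1 p n = (1 - X) ^ (3 * n + 1) * G4 ∧ G4.natDegree ≤ 2 * n := by
  obtain ⟨G4, h⟩ := G1_dvd hp hp2
  refine ⟨G4, h, ?_⟩
  by_cases h0 : G4 = 0
  · simp [h0]
  have hd1 : (1 - X : (ZMod p)[X]).natDegree = 1 := by
    rw [show (1 - X : (ZMod p)[X]) = -(X - C 1) by rw [C_1]; ring, natDegree_neg, natDegree_X_sub_C]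
  have hne : (1 - X : (ZMod p)[X]) ≠ 0 := by
    intro h; rw [h] at hd1; simp at hd1
  have hd := G1_deg (p := p) hp
  rw [h, natDegree_mul (pow_ne_zero _ hne) h0, natDegree_pow, hd1] at hd
  omega

theorem G5_ex (hp : p = 4 * n + 1) :
    ∃ G5 : (ZMod p)[X], G1 p n - rq p (Ez p) = X ^ (2 * n + 1) * G5 ∧ G5.natDegree ≤ 3 * n := by
  have hdv : X ^ (2 * n + 1) ∣ G1 p n - rq p (Ez p) := by
    rw [G1, show rq p (Ez p) - C (2 / bb p n (2 * n)) * Si p n - C (cc p n) * X ^ p - rq p (Ez p) =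
      -(C (2 / bb p n (2 * n)) * Si p n) - C (cc p n) * X ^ p by ring]
    refine dvd_sub ((dvd_neg).2 (Dvd.dvd.mul_left ?_ _)) (Dvd.dvd.mul_left (pow_dvd_pow _ (by omega)) _)
    refine Finset.dvd_sum fun m _ => Dvd.dvd.mul_left (pow_dvd_pow _ (by omega)) _
  obtain ⟨G5, h⟩ := hdv
  refine ⟨G5, h, ?_⟩
  by_cases h0 : G5 = 0
  · simp [h0]
  have hd : (G1 p n - rq p (Ez p)).natDegree ≤ 5 * n + 1 :=
    (natDegree_sub_le _ _).trans (max_le (G1_deg hp) (Ez_deg.trans (by omega)))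
  rw [h, natDegree_mul (pow_ne_zero _ X_ne_zero) h0, natDegree_pow, natDegree_X] at hd
  omega

end Pool.Agent.H35.CE
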