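import Pool.Agent.H35.CE.A3
import Pool.Agent.H35.CE.C1

/-! The rational function identity modulo `p`. -/

set_option autoImplicit false
set_option linter.unusedVariables false
set_option linter.unusedSectionVars false

open Polynomial

namespace Pool.Agent.H35.CE

variable {p n : ℕ} [hpf : Fact p.Prime]

noncomputable def hm {F : Type*} [CommRing F] (N H : F[X]) (d : ℕ) (G : F[X]) : F[X] :=
  ∑ j ∈ Finset.range (d + 1), C (G.coeff j) * (N ^ j * H ^ (d - j))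

theorem hm_ps {F : Type*} [CommRing F] {N H : F[X]} {Y : PowerSeries F}
    (hY : Y * (H : PowerSeries F) = N) {d : ℕ} {G : F[X]} (hG : G.natDegree ≤ d) :
    ((hm N H d G : F[X]) : PowerSeries F) = (H : PowerSeries F) ^ d * aeval Y G := by
  rw [aeval_eq_sum_range' (Nat.lt_succ_of_le hG), Finset.mul_sum, hm]
  rw [← coeToPowerSeries.ringHom_apply, map_sum]
  refine Finset.sum_congr rfl fun j hj => ?_
  have hj' : j ≤ d := Nat.lt_succ_iff.1 (Finset.mem_range.1 hj)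
  simp only [map_mul, map_pow, coeToPowerSeries.ringHom_apply, coe_C]
  rw [← hY, PowerSeries.smul_eq_C_mul, mul_pow]
  have : (H : PowerSeries F) ^ d = H ^ j * H ^ (d - j) := by rw [← pow_add]; congr 1; omega
  rw [this]; ring

theorem hm_deg {F : Type*} [CommRing F] {N H : F[X]} {d g : ℕ} {G : F[X]} (hN : N.natDegree ≤ g)
    (hH : H.natDegree ≤ g) : (hm N H d G).natDegree ≤ d * g := by
  refine natDegree_sum_le_of_forall_le _ _ fun j hj => ?_
  have hj' : j ≤ d := Nat.lt_succ_iff.1 (Finset.mem_range.1 hj)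
  refine (natDegree_C_mul_le _ _).trans (natDegree_mul_le.trans ?_)
  have h1 : (N ^ j).natDegree ≤ j * g := natDegree_pow_le.trans (Nat.mul_le_mul_left _ hN)
  have h2 : (H ^ (d - j)).natDegree ≤ (d - j) * g := natDegree_pow_le.trans (Nat.mul_le_mul_left _ hH)
  calc _ ≤ j * g + (d - j) * g := add_le_add h1 h2
    _ = d * g := by rw [← add_mul]; congr 1; omega

/-- Polynomial data of a covering. -/
structure CD (p : ℕ) [Fact p.Prime] where
  c : ℤ
  K : ℤ[X]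
  ρ : ℤ[X]
  q : ℤ[X]
  a : ℕ
  b : ℕ
  g : ℕ
  hab : a + b = 1
  hA : C c * K ^ 4 * (X + 4) ^ (2 * a) + X * ρ ^ 2 = q ^ 3 * (X + 4) ^ (2 * b)
  dA : (C c * K ^ 4 * (X + 4) ^ (2 * a)).natDegree ≤ g
  dH : (q ^ 3 * (X + 4) ^ (2 * b)).natDegree ≤ g + 1
  dN : (X * ρ ^ 2).natDegree ≤ g + 1
  dB : 3 * (rp p K).natDegree + (rp p ρ).natDegree + 2 * (rp p q).natDegree + 1 = 2 * g
  nK : rp p K ≠ 0
  nρ : rp p ρ ≠ 0
  nq : rp p q ≠ 0
  cXk : IsCoprime (X : (ZMod p)[X]) (X + 4)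
  cXK : IsCoprime (X : (ZMod p)[X]) (rp p K)
  cXρ : IsCoprime (X : (ZMod p)[X]) (rp p ρ)
  cXq : IsCoprime (X : (ZMod p)[X]) (rp p q)
  ckK : IsCoprime (X + 4 : (ZMod p)[X]) (rp p K)
  ckρ : IsCoprime (X + 4 : (ZMod p)[X]) (rp p ρ)
  ckq : IsCoprime (X + 4 : (ZMod p)[X]) (rp p q)
  cKρ : IsCoprime (rp p K) (rp p ρ)
  cKq : IsCoprime (rp p K) (rp p q)
  cρq : IsCoprime (rp p ρ) (rp p q)
  q0 : (rp p q).eval 0 ≠ 0

namespace CD
variable (D : CD p)

noncomputable def A : ℤ[X] := C D.c * D.K ^ 4 * (X + 4) ^ (2 * D.a)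
noncomputable def H : ℤ[X] := D.q ^ 3 * (X + 4) ^ (2 * D.b)
noncomputable def N : ℤ[X] := X * D.ρ ^ 2

theorem AN : D.A = D.H - D.N := by rw [A, H, N, ← D.hA]; ring

end CD

variable (L : Lf p n) (D : CD p)

noncomputable def Num : (ZMod p)[X] :=
  rp p D.H ^ p * dlP L D.A - rp p D.A ^ p * dlP L D.H + hm (rp p D.N) (rp p D.H) (2 * p) (G1 p n)

theorem dlP_A (hp2 : p ≠ 2) : dlP L D.A = dlP L D.H - dlP L D.N -
    hm (rp p D.N) (rp p D.H) p (rp p (Ez p)) := by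
  obtain ⟨h, hh, hh'⟩ := dlP_spec L D.H
  obtain ⟨m, hm1, hm'⟩ := dlP_spec L D.N
  have h1 := sub_pow_ee hpf.out hp2 D.H D.N
  rw [← D.AN] at h1
  set Z : ℤ[X] := ∑ j ∈ Finset.Ico 1 p, (ee p j : ℤ[X]) * (D.N ^ j * D.H ^ (p - j)) with hZ
  have h2 : D.A ^ p = D.A.comp L.ψ + C (p : ℤ) * (h - m - Z) := by
    have : D.A.comp L.ψ = D.H.comp L.ψ - D.N.comp L.ψ := by rw [D.AN, sub_comp]
    rw [this, h1, hh, hm1]
    simp only [map_natCast]
    ring
  rw [dlP_eq L h2, hh', hm']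
  have h3 : hm (rp p D.N) (rp p D.H) p (rp p (Ez p)) = rp p Z := by
    have hcoef : ∀ j, (Ez p).coeff j = if j ∈ Finset.Ico 1 p then ee p j else 0 := by
      intro j
      rw [Ez, finsetSum_coeff]
      simp only [coeff_C_mul_X_pow]
      rw [Finset.sum_ite_eq]
    have hZ' : rp p Z = ∑ j ∈ Finset.Ico 1 p, C ((ee p j : ℤ) : ZMod p) *
        (rp p D.N ^ j * rp p D.H ^ (p - j)) := by
      simp only [hZ, rp, Polynomial.map_sum, Polynomial.map_mul, Polynomial.map_pow,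
        Polynomial.map_intCast, C_eq_intCast]
    rw [hZ', hm]
    symm
    refine Finset.sum_subset_zero_on_sdiff (by
      intro x hx; rw [Finset.mem_Ico] at hx; rw [Finset.mem_range]; omega) ?_ ?_
    · intro j hj
      rw [coeff_map, hcoef, if_neg (Finset.mem_sdiff.1 hj).2]; simp
    · intro j hj
      rw [coeff_map, hcoef, if_pos hj]; simp
  rw [h3]
  simp only [rp, Polynomial.map_sub]

theorem rpA : rp p D.A = rp p D.H - rp p D.N := by rw [D.AN]; simp only [rp, Polynomial.map_sub]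

/-- second form -/
theorem Num_eq (hp2 : p ≠ 2) : Num L D = rp p D.N ^ p * dlP L D.H - rp p D.H ^ p * dlP L D.N +
    (hm (rp p D.N) (rp p D.H) (2 * p) (G1 p n) -
      rp p D.H ^ p * hm (rp p D.N) (rp p D.H) p (rp p (Ez p))) := by
  have h : rp p D.A ^ p = rp p D.H ^ p - rp p D.N ^ p := by rw [rpA, sub_pow_char]
  rw [Num, dlP_A L D hp2, h]; ring

section ser
variable {Y : PowerSeries (ZMod p)} (hY : Y * ((rp p D.H : (ZMod p)[X]) : PowerSeries (ZMod p)) = (rp p D.N : (ZMod p)[X]))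
include hY

theorem hm_G1 (hp : p = 4 * n + 1) {G4 : (ZMod p)[X]} (h4 : G1 p n = (1 - X) ^ (3 * n + 1) * G4)
    (hd : G4.natDegree ≤ 2 * n) :
    hm (rp p D.N) (rp p D.H) (2 * p) (G1 p n) =
      rp p D.A ^ (3 * n + 1) * rp p D.H ^ (3 * n + 1) * hm (rp p D.N) (rp p D.H) (2 * n) G4 := by
  apply coe_injective (ZMod p)
  rw [hm_ps hY ((G1_deg hp).trans (by omega)), h4]
  simp only [Polynomial.coe_mul, Polynomial.coe_pow]
  rw [hm_ps hY hd, rpA]
  have h1 : (((rp p D.H - rp p D.N : (ZMod p)[X])) : PowerSeries (ZMod p)) =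
      (1 - Y) * (rp p D.H : (ZMod p)[X]) := by
    rw [← coeToPowerSeries.ringHom_apply, map_sub]
    simp only [coeToPowerSeries.ringHom_apply]
    rw [← hY]; ring
  rw [h1, map_mul, map_pow, map_sub, map_one, aeval_X]
  have e : 2 * p = (3 * n + 1) + (3 * n + 1) + 2 * n := by omega
  rw [e, pow_add, pow_add, mul_pow]
  ring

theorem hm_G5 (hp : p = 4 * n + 1) {G5 : (ZMod p)[X]}
    (h5 : G1 p n - rq p (Ez p) = X ^ (2 * n + 1) * G5) (hd : G5.natDegree ≤ 3 * n) :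
    hm (rp p D.N) (rp p D.H) (2 * p) (G1 p n) -
      rp p D.H ^ p * hm (rp p D.N) (rp p D.H) p (rp p (Ez p)) =
      rp p D.N ^ (2 * n + 1) * rp p D.H ^ (3 * n + 1) * hm (rp p D.N) (rp p D.H) (3 * n) G5 := by
  apply coe_injective (ZMod p)
  simp only [Polynomial.coe_sub, Polynomial.coe_mul, Polynomial.coe_pow]
  rw [hm_ps hY ((G1_deg hp).trans (by omega)), hm_ps hY (Ez_deg.trans (by omega)), hm_ps hY hd,
    show G1 p n = rq p (Ez p) + X ^ (2 * n + 1) * G5 by rw [← h5]; ring, map_add, map_mul, map_pow,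
    aeval_X, ← hY]
  have e : 2 * p = p + p := by ring
  have e2 : (((rp p D.H : (ZMod p)[X])) : PowerSeries (ZMod p)) ^ (2 * p) =
      (rp p D.H : (ZMod p)[X]) ^ (2 * n + 1) * (rp p D.H : (ZMod p)[X]) ^ (3 * n + 1) *
        (rp p D.H : (ZMod p)[X]) ^ (3 * n) := by
    rw [← pow_add, ← pow_add]; congr 1; omega
  have e3 : (((rp p D.H : (ZMod p)[X])) : PowerSeries (ZMod p)) ^ (2 * p) =
      (rp p D.H : (ZMod p)[X]) ^ p * (rp p D.H : (ZMod p)[X]) ^ p := by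
    rw [e, pow_add]
  rw [mul_add]
  nth_rewrite 1 [e3]
  rw [e2, mul_pow]
  ring

end ser

end Pool.Agent.H35.CE
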