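import Pool.Agent.H35.CE.D1

/-! Divisibility of the numerator. -/

set_option autoImplicit false
set_option linter.unusedVariables false
set_option linter.unusedSectionVars false

open Polynomial

namespace Pool.Agent.H35.CE

variable {p n : ℕ} [hpf : Fact p.Prime] (L : Lf p n) (D : CD p)

theorem rp_mul (f g : ℤ[X]) : rp p (f * g) = rp p f * rp p g := Polynomial.map_mul _
theorem rp_pow (f : ℤ[X]) (m : ℕ) : rp p (f ^ m) = rp p f ^ m := Polynomial.map_pow _ m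
theorem rp_k : rp p (X + 4 : ℤ[X]) = X + 4 := by simp [rp]
theorem rp_X : rp p (X : ℤ[X]) = X := by simp [rp]

theorem k_dl (f : ℤ[X]) : (X + 4) ^ (6 * n + 2) ∣ dlP L (f * (X + 4) ^ 2) := by
  have hp := L.hp
  obtain ⟨d, hd, _⟩ := dlP_k L
  rw [dlP_mul, show (X + 4 : ℤ[X]) ^ 2 = (X + 4) ^ (1 + 1) from rfl, dlP_pow, hd, rp_pow, rp_k]
  refine dvd_add (Dvd.dvd.mul_left ?_ _) (Dvd.dvd.mul_left ?_ _)
  · rw [← pow_mul]; exact pow_dvd_pow _ (by omega)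
  · refine ⟨(((1 : ℕ) : (ZMod p)[X]) + 1) * d, ?_⟩
    rw [show 6 * n + 2 = p * 1 + (2 * n + 1) by omega, pow_add]; ring

theorem k_rp (f : ℤ[X]) {m : ℕ} (hm : 6 * n + 2 ≤ 2 * m) :
    (X + 4) ^ (6 * n + 2) ∣ rp p (f * (X + 4) ^ 2) ^ m := by
  rw [rp_mul, rp_pow, rp_k, mul_pow, ← pow_mul]
  exact Dvd.dvd.mul_left (pow_dvd_pow _ hm) _

theorem k_cases : (∃ f, D.A = f * (X + 4) ^ 2) ∨ (∃ f, D.H = f * (X + 4) ^ 2) := by
  have h := D.hab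
  have : D.a = 1 ∨ D.b = 1 := by omega
  rcases this with h | h
  · left; exact ⟨C D.c * D.K ^ 4, by rw [CD.A, h]⟩
  · right; exact ⟨D.q ^ 3, by rw [CD.H, h]⟩

variable {Y : PowerSeries (ZMod p)} (hY : Y * ((rp p D.H : (ZMod p)[X]) : PowerSeries (ZMod p)) = (rp p D.N : (ZMod p)[X]))
include hY

theorem dvd_k (hp2 : p ≠ 2) : (X + 4) ^ (6 * n + 2) ∣ Num L D := by
  have hp := L.hp
  obtain ⟨G4, h4, hd4⟩ := G4_ex hp hp2
  rw [Num, hm_G1 D hY hp h4 hd4]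
  rcases k_cases D with ⟨f, hf⟩ | ⟨f, hf⟩
  · rw [hf]
    refine dvd_add (dvd_sub (Dvd.dvd.mul_left (k_dl L f) _) (Dvd.dvd.mul_right (k_rp f (by omega)) _)) ?_
    exact Dvd.dvd.mul_right (Dvd.dvd.mul_right (k_rp f (by omega)) _) _
  · rw [hf]
    refine dvd_add (dvd_sub (Dvd.dvd.mul_right (k_rp f (by omega)) _) (Dvd.dvd.mul_left (k_dl L f) _)) ?_
    exact Dvd.dvd.mul_right (Dvd.dvd.mul_left (k_rp f (by omega)) _) _

theorem dvd_q (hp2 : p ≠ 2) : rp p D.q ^ (2 * p) ∣ Num L D := by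
  have hp := L.hp
  obtain ⟨G4, h4, hd4⟩ := G4_ex hp hp2
  rw [Num, hm_G1 D hY hp h4 hd4]
  have hH : ∀ m, 2 * p ≤ 3 * m → rp p D.q ^ (2 * p) ∣ rp p D.H ^ m := by
    intro m hm
    rw [CD.H, rp_mul, mul_pow, rp_pow D.q 3, ← pow_mul (rp p D.q) 3 m]
    exact Dvd.dvd.mul_right (pow_dvd_pow _ hm) _
  have hdH : rp p D.q ^ (2 * p) ∣ dlP L D.H := by
    rw [CD.H, dlP_mul, show D.q ^ 3 = D.q ^ (2 + 1) from rfl, dlP_pow, rp_pow D.q (2 + 1),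
      ← pow_mul (rp p D.q) (2 + 1) p]
    refine dvd_add (Dvd.dvd.mul_right (Dvd.dvd.mul_right (Dvd.dvd.mul_left ?_ _) _) _)
      (Dvd.dvd.mul_right (pow_dvd_pow _ (by omega)) _)
    exact pow_dvd_pow _ (by omega)
  refine dvd_add (dvd_sub (Dvd.dvd.mul_right (hH _ (by omega)) _) (Dvd.dvd.mul_left hdH _)) ?_
  exact Dvd.dvd.mul_right (Dvd.dvd.mul_left (hH _ (by omega)) _) _

theorem dvd_K (hp2 : p ≠ 2) : rp p D.K ^ (3 * p) ∣ Num L D := by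
  have hp := L.hp
  obtain ⟨G4, h4, hd4⟩ := G4_ex hp hp2
  rw [Num, hm_G1 D hY hp h4 hd4]
  have e : D.A = D.K ^ 4 * (C D.c * (X + 4) ^ (2 * D.a)) := by rw [CD.A]; ring
  have hA : ∀ m, 3 * p ≤ 4 * m → rp p D.K ^ (3 * p) ∣ rp p D.A ^ m := by
    intro m hm
    rw [e, rp_mul, mul_pow, rp_pow, ← pow_mul]
    exact Dvd.dvd.mul_right (pow_dvd_pow _ hm) _
  have hdA : rp p D.K ^ (3 * p) ∣ dlP L D.A := by
    rw [e, dlP_mul, show D.K ^ 4 = D.K ^ (3 + 1) from rfl, dlP_pow, rp_pow, ← pow_mul]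
    refine dvd_add (Dvd.dvd.mul_right (Dvd.dvd.mul_right (Dvd.dvd.mul_left ?_ _) _) _)
      (Dvd.dvd.mul_right (pow_dvd_pow _ (by omega)) _)
    exact pow_dvd_pow _ (by omega)
  refine dvd_add (dvd_sub (Dvd.dvd.mul_left hdA _) (Dvd.dvd.mul_right (hA _ (by omega)) _)) ?_
  exact Dvd.dvd.mul_right (Dvd.dvd.mul_right (hA _ (by omega)) _) _

theorem dvd_ρ (hp2 : p ≠ 2) : rp p D.ρ ^ p ∣ Num L D := by
  have hp := L.hp
  obtain ⟨G5, h5, hd5⟩ := G5_ex (p := p) hp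
  rw [Num_eq L D hp2, hm_G5 D hY hp h5 hd5]
  have hN : ∀ m, p ≤ 2 * m → rp p D.ρ ^ p ∣ rp p D.N ^ m := by
    intro m hm
    rw [CD.N, rp_mul, mul_pow, rp_pow, ← pow_mul]
    exact Dvd.dvd.mul_left (pow_dvd_pow _ hm) _
  have hdN : rp p D.ρ ^ p ∣ dlP L D.N := by
    rw [CD.N, dlP_mul, show D.ρ ^ 2 = D.ρ ^ (1 + 1) from rfl, dlP_pow, rp_pow, ← pow_mul]
    refine dvd_add (Dvd.dvd.mul_left (pow_dvd_pow _ (by omega)) _)
      (Dvd.dvd.mul_left (Dvd.dvd.mul_right (Dvd.dvd.mul_left ?_ _) _) _)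
    exact pow_dvd_pow _ (by omega)
  refine dvd_add (dvd_sub (Dvd.dvd.mul_right (hN _ (by omega)) _) (Dvd.dvd.mul_left hdN _)) ?_
  exact Dvd.dvd.mul_right (Dvd.dvd.mul_right (hN _ (by omega)) _) _

theorem dvd_X (hp2 : p ≠ 2) : X ^ (2 * n + 1) ∣ Num L D := by
  have hp := L.hp
  obtain ⟨G5, h5, hd5⟩ := G5_ex (p := p) hp
  rw [Num_eq L D hp2, hm_G5 D hY hp h5 hd5]
  have hN : ∀ m, 2 * n + 1 ≤ m → X ^ (2 * n + 1) ∣ rp p D.N ^ m := by
    intro m hm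
    rw [CD.N, rp_mul, mul_pow, rp_X]
    exact Dvd.dvd.mul_right (pow_dvd_pow _ hm) _
  have hdN : X ^ (2 * n + 1) ∣ dlP L D.N := by
    obtain ⟨d, hd, _⟩ := dlP_X L
    rw [CD.N, dlP_mul, hd, rp_X]
    refine dvd_add (Dvd.dvd.mul_right (Dvd.intro _ rfl) _)
      (Dvd.dvd.mul_right (pow_dvd_pow _ (by omega)) _)
  refine dvd_add (dvd_sub (Dvd.dvd.mul_right (hN _ (by omega)) _) (Dvd.dvd.mul_left hdN _)) ?_
  exact Dvd.dvd.mul_right (Dvd.dvd.mul_right (hN _ (by omega)) _) _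

theorem Num_dvd (hp2 : p ≠ 2) : X ^ (2 * n + 1) * (X + 4) ^ (6 * n + 2) *
    (rp p D.K ^ (3 * p) * rp p D.ρ ^ p * rp p D.q ^ (2 * p)) ∣ Num L D := by
  have hX := dvd_X L D hY hp2
  have hk := dvd_k L D hY hp2
  have hK := dvd_K L D hY hp2
  have hρ := dvd_ρ L D hY hp2
  have hq := dvd_q L D hY hp2
  have h1 : X ^ (2 * n + 1) * (X + 4) ^ (6 * n + 2) ∣ Num L D := (D.cXk.pow).mul_dvd hX hk
  have h2 : rp p D.K ^ (3 * p) * rp p D.ρ ^ p ∣ Num L D := (D.cKρ.pow).mul_dvd hK hρ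
  have h3 : rp p D.K ^ (3 * p) * rp p D.ρ ^ p * rp p D.q ^ (2 * p) ∣ Num L D :=
    (IsCoprime.mul_left D.cKq.pow D.cρq.pow).mul_dvd h2 hq
  refine IsCoprime.mul_dvd ?_ h1 h3
  refine IsCoprime.mul_left ?_ ?_
  · exact IsCoprime.mul_right (IsCoprime.mul_right D.cXK.pow D.cXρ.pow) D.cXq.pow
  · exact IsCoprime.mul_right (IsCoprime.mul_right D.ckK.pow D.ckρ.pow) D.ckq.pow

theorem Num_deg (hp2 : p ≠ 2) : (Num L D).natDegree ≤ (2 * D.g + 1) * p + n := by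
  have hp := L.hp
  obtain ⟨G4, h4, hd4⟩ := G4_ex hp hp2
  rw [Num, hm_G1 D hY hp h4 hd4]
  have a1 : (rp p D.A).natDegree ≤ D.g := natDegree_map_le.trans D.dA
  have a2 : (rp p D.H).natDegree ≤ D.g + 1 := natDegree_map_le.trans D.dH
  have a3 : (rp p D.N).natDegree ≤ D.g + 1 := natDegree_map_le.trans D.dN
  have b1 : (dlP L D.A).natDegree ≤ p * D.g := (dlP_natDegree L _).trans (Nat.mul_le_mul_left _ D.dA)
  have b2 : (dlP L D.H).natDegree ≤ p * (D.g + 1) :=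
    (dlP_natDegree L _).trans (Nat.mul_le_mul_left _ D.dH)
  refine (natDegree_add_le _ _).trans (max_le ((natDegree_sub_le _ _).trans (max_le ?_ ?_)) ?_)
  · refine natDegree_mul_le.trans ?_
    have : (rp p D.H ^ p).natDegree ≤ p * (D.g + 1) := natDegree_pow_le.trans (Nat.mul_le_mul_left _ a2)
    nlinarith
  · refine natDegree_mul_le.trans ?_
    have : (rp p D.A ^ p).natDegree ≤ p * D.g := natDegree_pow_le.trans (Nat.mul_le_mul_left _ a1)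
    nlinarith
  · refine natDegree_mul_le.trans ?_
    have c1 : (rp p D.A ^ (3 * n + 1)).natDegree ≤ (3 * n + 1) * D.g :=
      natDegree_pow_le.trans (Nat.mul_le_mul_left _ a1)
    have c2 : (rp p D.H ^ (3 * n + 1)).natDegree ≤ (3 * n + 1) * (D.g + 1) :=
      natDegree_pow_le.trans (Nat.mul_le_mul_left _ a2)
    have c3 : (rp p D.A ^ (3 * n + 1) * rp p D.H ^ (3 * n + 1)).natDegree ≤ _ :=
      natDegree_mul_le.trans (add_le_add c1 c2)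
    have c4 : (hm (rp p D.N) (rp p D.H) (2 * n) G4).natDegree ≤ 2 * n * (D.g + 1) := hm_deg a3 a2
    refine (add_le_add c3 c4).trans ?_
    have : (3 * n + 1) * D.g + (3 * n + 1) * (D.g + 1) + 2 * n * (D.g + 1) = (2 * D.g + 1) * p + n := by
      rw [show (2 * D.g + 1) * p = (2 * D.g + 1) * (4 * n + 1) by rw [← hp]]; ring
    rw [this]

/-- The quotient has small degree. -/
theorem Num_fac (hp2 : p ≠ 2) : ∃ r : (ZMod p)[X], Num L D = X ^ (2 * n + 1) * (X + 4) ^ (6 * n + 2) *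
    (rp p D.K ^ 3 * rp p D.ρ * rp p D.q ^ 2) ^ p * r ∧ (r = 0 ∨ r.natDegree + 1 ≤ n) := by
  obtain ⟨r, hr⟩ := Num_dvd L D hY hp2
  have e : rp p D.K ^ (3 * p) * rp p D.ρ ^ p * rp p D.q ^ (2 * p) =
      (rp p D.K ^ 3 * rp p D.ρ * rp p D.q ^ 2) ^ p := by
    rw [mul_pow, mul_pow, ← pow_mul, ← pow_mul]
  refine ⟨r, by rw [hr, e], ?_⟩
  by_cases h0 : r = 0
  · left; exact h0
  right
  have hd := Num_deg L D hY hp2
  have hk0 : (X + 4 : (ZMod p)[X]).Monic := monic_X_add_C 4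
  have hkd : (X + 4 : (ZMod p)[X]).natDegree = 1 := natDegree_X_add_C (4 : ZMod p)
  have n1 : (X : (ZMod p)[X]) ^ (2 * n + 1) ≠ 0 := pow_ne_zero _ X_ne_zero
  have n2 : (X + 4 : (ZMod p)[X]) ^ (6 * n + 2) ≠ 0 := pow_ne_zero _ hk0.ne_zero
  have n3 : rp p D.K ^ (3 * p) ≠ 0 := pow_ne_zero _ D.nK
  have n4 : rp p D.ρ ^ p ≠ 0 := pow_ne_zero _ D.nρ
  have n5 : rp p D.q ^ (2 * p) ≠ 0 := pow_ne_zero _ D.nq
  rw [hr, natDegree_mul (mul_ne_zero (mul_ne_zero n1 n2) (mul_ne_zero (mul_ne_zero n3 n4) n5)) h0,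
    natDegree_mul (mul_ne_zero n1 n2) (mul_ne_zero (mul_ne_zero n3 n4) n5), natDegree_mul n1 n2,
    natDegree_mul (mul_ne_zero n3 n4) n5, natDegree_mul n3 n4, natDegree_pow, natDegree_pow,
    natDegree_pow, natDegree_pow, natDegree_pow, natDegree_X, hkd] at hd
  have hp := L.hp
  have hB := D.dB
  have h1 : (2 * D.g + 1) * p = 3 * p * (rp p D.K).natDegree + p * (rp p D.ρ).natDegree +
      2 * p * (rp p D.q).natDegree + 2 * p := by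
    rw [← hB]; ring
  omega

end Pool.Agent.H35.CE
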