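import Pool.Agent.H35.CE.D2

/-! Extraction of the coefficient. -/

set_option autoImplicit false
set_option linter.unusedVariables false
set_option linter.unusedSectionVars false

open PowerSeries

namespace Pool.Agent.H35.CE

variable {p n : ℕ} [hpf : Fact p.Prime]

/-- the functional `Γ` -/
noncomputable def Ga (n : ℕ) {F : Type*} [CommRing F] (G : F⟦X⟧) : F :=
  coeff (6 * n + 1) ((X + 4) ^ (2 * n) * G)

theorem Ga_add {F : Type*} [CommRing F] (f g : F⟦X⟧) : Ga n (f + g) = Ga n f + Ga n g := by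
  rw [Ga, mul_add, map_add]; rfl

theorem Ga_C {F : Type*} [CommRing F] (a : F) (g : F⟦X⟧) : Ga n (C a * g) = a * Ga n g := by
  rw [Ga, show (X + 4 : F⟦X⟧) ^ (2 * n) * (C a * g) = C a * ((X + 4) ^ (2 * n) * g) by ring,
    coeff_C_mul]; rfl

theorem Ga_neg {F : Type*} [CommRing F] (g : F⟦X⟧) : Ga n (-g) = -Ga n g := by
  rw [Ga, mul_neg, map_neg]; rfl

theorem Ga_sub {F : Type*} [CommRing F] (f g : F⟦X⟧) : Ga n (f - g) = Ga n f - Ga n g := by
  rw [Ga, mul_sub, map_sub]; rfl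

theorem Ga_high {F : Type*} [CommRing F] {g : F⟦X⟧} (h : X ^ (6 * n + 2) ∣ g) : Ga n g = 0 := by
  obtain ⟨w, hw⟩ := h
  rw [Ga, hw, show (X + 4 : F⟦X⟧) ^ (2 * n) * (X ^ (6 * n + 2) * w) =
    X ^ (6 * n + 2) * ((X + 4) ^ (2 * n) * w) by ring, coeff_X_pow_mul', if_neg (by omega)]

theorem pow_p_shape (f : (ZMod p)⟦X⟧) : ∃ U, f ^ p = C (constantCoeff f) + X ^ p * U := by
  have := charP_ps (p := p)
  obtain ⟨g, hg⟩ : ∃ g, f = C (constantCoeff f) + X * g := by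
    have h : X ∣ f - C (constantCoeff f) := by rw [X_dvd_iff]; simp
    obtain ⟨g, hg⟩ := h
    exact ⟨g, by rw [← hg]; ring⟩
  refine ⟨g ^ p, ?_⟩
  conv_lhs => rw [hg]
  rw [add_pow_char, mul_pow, ← map_pow, ZMod.pow_card]

theorem k_pow_p : (X + 4 : (ZMod p)⟦X⟧) ^ p = X ^ p + 4 := by
  have := charP_ps (p := p)
  rw [add_pow_char]
  congr 1
  rw [show (4 : (ZMod p)⟦X⟧) = C 4 from (map_ofNat C 4).symm, ← map_pow, ZMod.pow_card]

variable (L : Lf p n) (D : CD p)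

theorem ds_quot {Y : ℤ_[p]⟦X⟧} (hY : Y * io p D.H = io p D.N) :
    ds L Y * ((rp p D.H : Polynomial (ZMod p)) : (ZMod p)⟦X⟧) ^ p +
      rs p Y ^ p * ((dlP L D.H : Polynomial (ZMod p)) : (ZMod p)⟦X⟧) =
      ((dlP L D.N : Polynomial (ZMod p)) : (ZMod p)⟦X⟧) := by
  have h := ds_mul L Y (io p D.H)
  rw [hY, ds_io, ds_io, rs_io] at h
  exact h.symm

theorem rs_quot {Y : ℤ_[p]⟦X⟧} (hY : Y * io p D.H = io p D.N) :
    rs p Y * ((rp p D.H : Polynomial (ZMod p)) : (ZMod p)⟦X⟧) = (rp p D.N : Polynomial (ZMod p)) := by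
  rw [← rs_io, ← rs_io, ← hY]; exact (map_mul _ _ _).symm

noncomputable def Yy (Y : ℤ_[p]⟦X⟧) : (ZMod p)⟦X⟧ :=
  -ds L Y - C (2 / bb p n (2 * n)) * Polynomial.aeval (rs p Y) (Si p n) - C (cc p n) * rs p Y ^ p

theorem Yy_eq (hp2 : p ≠ 2) {Y : ℤ_[p]⟦X⟧} (hY : Y * io p D.H = io p D.N) :
    ((rp p D.H : Polynomial (ZMod p)) : (ZMod p)⟦X⟧) ^ (2 * p) * Yy L Y =
      ((Num L D : Polynomial (ZMod p)) : (ZMod p)⟦X⟧) := by
  have h1 := ds_quot L D hY
  have h2 := rs_quot D hY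
  have hp := L.hp
  rw [Num_eq L D hp2]
  simp only [Polynomial.coe_sub, Polynomial.coe_add, Polynomial.coe_mul, Polynomial.coe_pow]
  rw [hm_ps h2 ((G1_deg hp).trans (by omega)), hm_ps h2 (Ez_deg.trans (by omega)), ← h1, G1, Yy]
  rw [map_sub, map_sub, map_mul, map_mul, Polynomial.aeval_C, Polynomial.aeval_C, map_pow,
    Polynomial.aeval_X, ← h2, show 2 * p = p + p by ring, pow_add, mul_pow]
  have ha : ∀ a : ZMod p, (algebraMap (ZMod p) (ZMod p)⟦X⟧) a = C a := fun a => rfl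
  rw [ha, ha]
  ring

theorem core (hp2 : p ≠ 2) (hn : 1 ≤ n) {Y : ℤ_[p]⟦X⟧} (hY : Y * io p D.H = io p D.N) :
    Ga n (Yy L Y) = 0 := by
  have hp := L.hp
  have hE := Yy_eq L D hp2 hY
  obtain ⟨r, hr, hrd⟩ := Num_fac L D (rs_quot D hY) hp2
  set Hs : (ZMod p)⟦X⟧ := ((rp p D.H : Polynomial (ZMod p)) : (ZMod p)⟦X⟧) with hHs
  set B : (ZMod p)⟦X⟧ := ((rp p D.K ^ 3 * rp p D.ρ * rp p D.q ^ 2 : Polynomial (ZMod p)) : (ZMod p)⟦X⟧)
    with hB
  have hk : ((Polynomial.X + 4 : Polynomial (ZMod p)) : (ZMod p)⟦X⟧) = X + 4 := by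
    rw [show (4 : Polynomial (ZMod p)) = Polynomial.C 4 from (map_ofNat Polynomial.C 4).symm,
      Polynomial.coe_add, Polynomial.coe_X, Polynomial.coe_C, map_ofNat]
  rw [hr, Polynomial.coe_mul, Polynomial.coe_mul, Polynomial.coe_mul, Polynomial.coe_pow,
    Polynomial.coe_pow, Polynomial.coe_pow, Polynomial.coe_X, hk, ← hB] at hE
  obtain ⟨U1, hU1⟩ := pow_p_shape (Hs ^ 2)
  obtain ⟨U2, hU2⟩ := pow_p_shape B
  rw [pow_mul, hU1, hU2] at hE
  have hH0 : constantCoeff (Hs ^ 2) ≠ 0 := by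
    rw [map_pow]
    refine pow_ne_zero _ ?_
    rw [hHs, Polynomial.constantCoeff_coe, Polynomial.coeff_zero_eq_eval_zero, CD.H, rp_mul, rp_pow,
      rp_pow, rp_k, Polynomial.eval_mul, Polynomial.eval_pow, Polynomial.eval_pow,
      Polynomial.eval_add, Polynomial.eval_X, Polynomial.eval_ofNat, zero_add]
    refine mul_ne_zero (pow_ne_zero _ D.q0) (pow_ne_zero _ ?_)
    have h2 : ((2 : ℕ) : ZMod p) ≠ 0 := by
      rw [Ne, ZMod.natCast_eq_zero_iff]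
      intro hd
      exact hp2 ((Nat.prime_dvd_prime_iff_eq hpf.out Nat.prime_two).1 hd)
    have h4 : (4 : ZMod p) = ((2 : ℕ) : ZMod p) * ((2 : ℕ) : ZMod p) := by norm_num
    rw [h4]; exact mul_ne_zero h2 h2
  set h0 := constantCoeff (Hs ^ 2) with hh0
  have hu : IsUnit (C h0 + X ^ p * U1) := by
    rw [isUnit_iff_constantCoeff]
    simp only [map_add, map_mul, map_pow, constantCoeff_X, zero_pow hpf.out.ne_zero, zero_mul,
      add_zero, constantCoeff_C]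
    exact isUnit_iff_ne_zero.2 hH0
  obtain ⟨Z, hZ⟩ : X ^ (2 * n + 1) ∣ Yy L Y := by
    refine (hu.dvd_mul_left).1 ?_
    rw [hE, mul_assoc, mul_assoc]
    exact Dvd.intro _ rfl
  have key : C h0 * Yy L Y = X ^ (2 * n + 1) * ((X + 4) ^ (6 * n + 2) * (C (constantCoeff B) * (r : (ZMod p)⟦X⟧))) +
      X ^ (6 * n + 2) * ((X + 4) ^ (6 * n + 2) * U2 * (r : (ZMod p)⟦X⟧) - U1 * Z) := by
    have e : (X : (ZMod p)⟦X⟧) ^ (6 * n + 2) = X ^ p * X ^ (2 * n + 1) := by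
      rw [← pow_add]; congr 1; omega
    rw [e]
    rw [hZ] at hE ⊢
    linear_combination hE
  have h1 := congrArg (Ga n) key
  rw [Ga_C, Ga_add, Ga_high (Dvd.intro _ rfl), add_zero] at h1
  have h2 : Ga n (X ^ (2 * n + 1) * ((X + 4) ^ (6 * n + 2) * (C (constantCoeff B) * (r : (ZMod p)⟦X⟧)))) = 0 := by
    rw [Ga, show (X + 4 : (ZMod p)⟦X⟧) ^ (2 * n) * (X ^ (2 * n + 1) * ((X + 4) ^ (6 * n + 2) *
      (C (constantCoeff B) * (r : (ZMod p)⟦X⟧)))) = X ^ (2 * n + 1) * (C (constantCoeff B) *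
      (((X + 4) ^ (2 * n) * (X + 4) ^ (6 * n + 2)) * (r : (ZMod p)⟦X⟧))) by ring, ← pow_add,
      show 2 * n + (6 * n + 2) = p * 2 by omega, pow_mul, k_pow_p,
      show 6 * n + 1 = 4 * n + (2 * n + 1) by ring, coeff_X_pow_mul, coeff_C_mul]
    have e : (X ^ p + 4 : (ZMod p)⟦X⟧) ^ 2 * (r : (ZMod p)⟦X⟧) =
        C 16 * (r : (ZMod p)⟦X⟧) + X ^ p * ((X ^ p + 8) * (r : (ZMod p)⟦X⟧)) := by
      rw [map_ofNat]; ring
    rw [e, map_add, coeff_C_mul, coeff_X_pow_mul', if_neg (by omega), add_zero,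
      Polynomial.coeff_coe]
    have : r.coeff (4 * n) = 0 := by
      rcases hrd with h | h
      · rw [h, Polynomial.coeff_zero]
      · exact Polynomial.coeff_eq_zero_of_natDegree_lt (by omega)
    rw [this]; ring
  rw [h2] at h1
  rcases mul_eq_zero.1 h1 with h | h
  · exact absurd h hH0
  · exact h

end Pool.Agent.H35.CE
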