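import Pool.Agent.H35.CE.B2
import Pool.Agent.H35.CE.D3

/-! Assembly. -/

set_option autoImplicit false
set_option linter.unusedVariables false
set_option linter.unusedSectionVars false

open PowerSeries

namespace Pool.Agent.H35.CE

variable {p n : ℕ} [hpf : Fact p.Prime] (L : Lf p n) (P : PD p)

theorem rs_mul (f g : ℤ_[p]⟦X⟧) : rs p (f * g) = rs p f * rs p g := map_mul _ _ _
theorem rs_pow (f : ℤ_[p]⟦X⟧) (m : ℕ) : rs p (f ^ m) = rs p f ^ m := map_pow _ _ _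
theorem rs_C (a : ℤ_[p]) : rs p (C a) = C (PadicInt.toZMod a) := map_C _ _
theorem rs_x : rs p (X ^ 2 + 4 * X) = X ^ 2 + 4 * X := by
  rw [show (4 : ℤ_[p]⟦X⟧) = C 4 from (map_ofNat C 4).symm]
  rw [rs, map_add, map_mul, map_pow, map_X, map_C, map_ofNat, map_ofNat]
theorem rs_coeff (f : ℤ_[p]⟦X⟧) (m : ℕ) : coeff m (rs p f) = PadicInt.toZMod (coeff m f) := coeff_map _ _ _

theorem Yb_eq : rs p P.Y = C (PadicInt.toZMod P.θ) * (X ^ 2 + 4 * X) * rs p P.h ^ 2 := by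
  rw [P.hY, rs_mul, rs_mul, rs_C, rs_x, rs_pow]

theorem h0b : 2 * constantCoeff (rs p P.h) = 1 := by
  have h := congrArg PadicInt.toZMod P.h0
  rw [map_mul, map_one, map_ofNat] at h
  have : constantCoeff (rs p P.h) = PadicInt.toZMod (constantCoeff P.h) := by
    rw [← coeff_zero_eq_constantCoeff_apply, rs_coeff, coeff_zero_eq_constantCoeff_apply]
  rw [this, h]

theorem Ea (hp : p = 4 * n + 1) (m : ℕ) :
    2 * PadicInt.toZMod P.θ ^ (2 * n + 1) * PadicInt.toZMod (em P m) =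
      Ga n (rs p P.Y ^ (2 * n + m + 1)) := by
  obtain ⟨U, hU⟩ := pow_p_shape ((X + 4) * rs p P.h)
  have hc : constantCoeff ((X + 4) * rs p P.h) = 2 := by
    have := h0b P
    rw [map_mul, map_add, constantCoeff_X, show (4 : (ZMod p)⟦X⟧) = C 4 from (map_ofNat C 4).symm,
      constantCoeff_C]
    linear_combination 2 * this
  rw [hc] at hU
  have e : (X + 4) ^ (2 * n) * rs p P.Y ^ (2 * n + m + 1) =
      X ^ (2 * n + 1) * (C (PadicInt.toZMod P.θ ^ (2 * n + 1)) *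
        (((X + 4) * rs p P.h) ^ p * (rs p P.Y ^ m * rs p P.h))) := by
    have e1 : rs p P.Y ^ (2 * n + m + 1) = rs p P.Y ^ (2 * n + 1) * rs p P.Y ^ m := by
      rw [← pow_add]; congr 1; ring
    have e2 : rs p P.Y ^ (2 * n + 1) = C (PadicInt.toZMod P.θ ^ (2 * n + 1)) * (X ^ (2 * n + 1) *
        (X + 4) ^ (2 * n + 1) * (rs p P.h ^ p * rs p P.h)) := by
      rw [Yb_eq, show (X ^ 2 + 4 * X : (ZMod p)⟦X⟧) = X * (X + 4) by ring, mul_pow, mul_pow, mul_pow,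
        map_pow, ← pow_mul, ← pow_succ (rs p P.h), show 2 * (2 * n + 1) = p + 1 by omega]
      ring
    have e3 : (X + 4 : (ZMod p)⟦X⟧) ^ p = (X + 4) ^ (2 * n) * (X + 4) ^ (2 * n + 1) := by
      rw [← pow_add]; congr 1; omega
    rw [e1, e2, mul_pow, e3]; ring
  rw [Ga, e, show 6 * n + 1 = 4 * n + (2 * n + 1) by ring, coeff_X_pow_mul, coeff_C_mul, hU,
    show (C (2 : ZMod p) + X ^ p * U) * (rs p P.Y ^ m * rs p P.h) =
      C 2 * (rs p P.Y ^ m * rs p P.h) + X ^ p * (U * (rs p P.Y ^ m * rs p P.h)) by ring, map_add,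
    coeff_C_mul, coeff_X_pow_mul', if_neg (by omega), add_zero, em, ← rs_coeff, rs_mul, rs_pow,
    show p - 1 = 4 * n by omega]
  ring

theorem coeff_k : coeff (2 * n) ((X + 4 : (ZMod p)⟦X⟧) ^ (2 * n)) = 1 := by
  have : ((X + 4 : (ZMod p)⟦X⟧) ^ (2 * n)) =
      (((Polynomial.X + Polynomial.C 4) ^ (2 * n) : Polynomial (ZMod p)) : (ZMod p)⟦X⟧) := by
    rw [Polynomial.coe_pow, Polynomial.coe_add, Polynomial.coe_X, Polynomial.coe_C, map_ofNat]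
  rw [this, Polynomial.coeff_coe, Polynomial.coeff_X_add_C_pow]
  simp

theorem Ga_Xp (hp : p = 4 * n + 1) (g : (ZMod p)⟦X⟧) :
    Ga n (X ^ p * g) = coeff (2 * n) ((X + 4) ^ (2 * n) * g) := by
  rw [Ga, show (X + 4 : (ZMod p)⟦X⟧) ^ (2 * n) * (X ^ p * g) = X ^ p * ((X + 4) ^ (2 * n) * g) by ring,
    show 6 * n + 1 = 2 * n + p by omega, coeff_X_pow_mul]

theorem hbp : ∃ U, rs p P.h ^ p = C (constantCoeff (rs p P.h)) + X ^ p * U := pow_p_shape _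

theorem xp_eq : (X ^ 2 + 4 * X : (ZMod p)⟦X⟧) ^ p = X ^ p * (X ^ p + 4) := by
  rw [show (X ^ 2 + 4 * X : (ZMod p)⟦X⟧) = X * (X + 4) by ring, mul_pow, k_pow_p]

theorem Ga_dsx (L : Lf p n) (hn : 1 ≤ n) (U : (ZMod p)⟦X⟧) (c : ZMod p) :
    Ga n (((dlP L (Polynomial.X * (Polynomial.X + 4)) : Polynomial (ZMod p)) : (ZMod p)⟦X⟧) *
      (C c + X ^ p * U)) = 0 := by
  have hp := L.hp
  obtain ⟨d0, hd0, hd0'⟩ := dlP_X L
  obtain ⟨d4, hd4, hd4'⟩ := dlP_k L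
  have hk : ((Polynomial.X + 4 : Polynomial (ZMod p)) : (ZMod p)⟦X⟧) = X + 4 := by
    rw [show (4 : Polynomial (ZMod p)) = Polynomial.C 4 from (map_ofNat Polynomial.C 4).symm,
      Polynomial.coe_add, Polynomial.coe_X, Polynomial.coe_C, map_ofNat]
  have e : ((dlP L (Polynomial.X * (Polynomial.X + 4)) : Polynomial (ZMod p)) : (ZMod p)⟦X⟧) =
      X ^ (2 * n + 1) * ((X ^ p + 4) * (d0 : (ZMod p)⟦X⟧)) + X ^ p * ((X + 4) ^ (2 * n + 1) * (d4 : (ZMod p)⟦X⟧)) := by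
    rw [dlP_mul, hd0, hd4, rp_k, rp_X]
    simp only [Polynomial.coe_add, Polynomial.coe_mul, Polynomial.coe_pow, Polynomial.coe_X]
    rw [Polynomial.coe_add, Polynomial.coe_X] at hk
    rw [hk, k_pow_p]; ring
  have hkm : (Polynomial.X + 4 : Polynomial (ZMod p)).Monic := Polynomial.monic_X_add_C 4
  have hkd : (Polynomial.X + 4 : Polynomial (ZMod p)).natDegree = 1 := Polynomial.natDegree_X_add_C (4 : ZMod p)
  have c4 : d4.coeff (2 * n) = 0 := by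
    by_cases h : d4 = 0
    · rw [h, Polynomial.coeff_zero]
    · rw [hd4, Polynomial.natDegree_mul (hkm.pow _).ne_zero h, hkm.natDegree_pow, hkd] at hd4'
      exact Polynomial.coeff_eq_zero_of_natDegree_lt (by omega)
  have c0 : coeff (4 * n) ((X + 4) ^ (2 * n) * (d0 : (ZMod p)⟦X⟧)) = 0 := by
    have : (X + 4) ^ (2 * n) * (d0 : (ZMod p)⟦X⟧) =
        (((Polynomial.X + 4) ^ (2 * n) * d0 : Polynomial (ZMod p)) : (ZMod p)⟦X⟧) := by
      rw [Polynomial.coe_mul, Polynomial.coe_pow, hk]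
    rw [this, Polynomial.coeff_coe]
    by_cases h : d0 = 0
    · rw [h, mul_zero, Polynomial.coeff_zero]
    · rw [hd0, Polynomial.natDegree_mul (pow_ne_zero _ Polynomial.X_ne_zero) h,
        Polynomial.natDegree_pow, Polynomial.natDegree_X] at hd0'
      refine Polynomial.coeff_eq_zero_of_natDegree_lt ?_
      rw [Polynomial.natDegree_mul (hkm.pow _).ne_zero h, hkm.natDegree_pow, hkd]
      omega
  rw [e, show (X ^ (2 * n + 1) * ((X ^ p + 4) * (d0 : (ZMod p)⟦X⟧)) + X ^ p * ((X + 4) ^ (2 * n + 1) * (d4 : (ZMod p)⟦X⟧))) *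
      (C c + X ^ p * U) = C c * (X ^ (2 * n + 1) * ((X ^ p + 4) * (d0 : (ZMod p)⟦X⟧)) + X ^ p * ((X + 4) ^ (2 * n + 1) * (d4 : (ZMod p)⟦X⟧))) +
      X ^ (p + (2 * n + 1)) * (((X ^ p + 4) * (d0 : (ZMod p)⟦X⟧)) * U) + X ^ (p + p) * (((X + 4) ^ (2 * n + 1) * (d4 : (ZMod p)⟦X⟧)) * U) by
      rw [pow_add X p, pow_add X p]; ring, Ga_add, Ga_add, Ga_C, Ga_add,
    Ga_high (g := X ^ (p + (2 * n + 1)) * _) (Dvd.dvd.mul_right (pow_dvd_pow _ (by omega)) _),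
    Ga_high (g := X ^ (p + p) * _) (Dvd.dvd.mul_right (pow_dvd_pow _ (by omega)) _), Ga_Xp hp]
  have t1 : Ga n (X ^ (2 * n + 1) * ((X ^ p + 4) * (d0 : (ZMod p)⟦X⟧))) = 0 := by
    rw [Ga, show (X + 4 : (ZMod p)⟦X⟧) ^ (2 * n) * (X ^ (2 * n + 1) * ((X ^ p + 4) * (d0 : (ZMod p)⟦X⟧))) =
      X ^ (2 * n + 1) * (C 4 * ((X + 4) ^ (2 * n) * (d0 : (ZMod p)⟦X⟧)) + X ^ p * ((X + 4) ^ (2 * n) * (d0 : (ZMod p)⟦X⟧))) by
      rw [map_ofNat]; ring, show 6 * n + 1 = 4 * n + (2 * n + 1) by ring, coeff_X_pow_mul, map_add,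
      coeff_C_mul, c0, coeff_X_pow_mul', if_neg (by omega)]
    ring
  have t2 : coeff (2 * n) ((X + 4) ^ (2 * n) * ((X + 4) ^ (2 * n + 1) * (d4 : (ZMod p)⟦X⟧))) = 0 := by
    rw [← mul_assoc, ← pow_add, show 2 * n + (2 * n + 1) = p by omega, k_pow_p,
      show (X ^ p + 4) * (d4 : (ZMod p)⟦X⟧) = X ^ p * (d4 : (ZMod p)⟦X⟧) + C 4 * (d4 : (ZMod p)⟦X⟧) by
        rw [map_ofNat]; ring, map_add, coeff_X_pow_mul', if_neg (by omega), coeff_C_mul,
      Polynomial.coeff_coe, c4]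
    ring
  rw [t1, t2]; ring

end Pool.Agent.H35.CE
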