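import Pool.Agent.H35.CE.E1

/-! Assembly, second part. -/

set_option autoImplicit false
set_option linter.unusedVariables false
set_option linter.unusedSectionVars false

open PowerSeries

namespace Pool.Agent.H35.CE

variable {p n : ℕ} [hpf : Fact p.Prime] (L : Lf p n) (P : PD p)

theorem T1 : ∃ W V : (ZMod p)⟦X⟧, (X ^ 2 + 4 * X : (ZMod p)⟦X⟧) ^ p * (rs p P.h ^ p) ^ 2 = X ^ p * 1 + X ^ (p + p) * W ∧
    (rs p P.h ^ p) ^ 2 = C (constantCoeff (rs p P.h) ^ 2) + X ^ p * V := by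
  obtain ⟨U, hU⟩ := hbp P
  have h0 := h0b P
  set c := constantCoeff (rs p P.h) with hc
  have hcc : (4 * C (c ^ 2) : (ZMod p)⟦X⟧) = 1 := by
    rw [show (4 : (ZMod p)⟦X⟧) = C 4 from (map_ofNat C 4).symm, ← map_mul,
      show 4 * c ^ 2 = 1 by linear_combination (2 * c + 1) * h0, map_one]
  refine ⟨C (c ^ 2) + (X ^ p + 4) * (2 * C c * U + X ^ p * U ^ 2), 2 * C c * U + X ^ p * U ^ 2, ?_, ?_⟩
  · rw [xp_eq, hU, pow_add, map_pow] at *
    linear_combination (X ^ p) * hcc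
  · rw [hU, map_pow]; ring

theorem T3 : ∃ W : (ZMod p)⟦X⟧, (X ^ 2 + 4 * X : (ZMod p)⟦X⟧) ^ p * (rs p P.h ^ p) = X ^ p * C 2 + X ^ (p + p) * W := by
  obtain ⟨U, hU⟩ := hbp P
  have h0 := h0b P
  set c := constantCoeff (rs p P.h) with hc
  have hcc : (4 * C c : (ZMod p)⟦X⟧) = C 2 := by
    rw [show (4 : (ZMod p)⟦X⟧) = C 4 from (map_ofNat C 4).symm, ← map_mul,
      show 4 * c = 2 by linear_combination 2 * h0]
  refine ⟨C c + (X ^ p + 4) * U, ?_⟩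
  rw [xp_eq, hU, pow_add]
  linear_combination (X ^ p) * hcc

theorem Ga_Yp (hp : p = 4 * n + 1) : Ga n (rs p P.Y ^ p) = PadicInt.toZMod P.θ := by
  obtain ⟨W, V, hW, hV⟩ := T1 P
  set t := PadicInt.toZMod P.θ with ht
  have e : rs p P.Y ^ p = C t * (X ^ p * 1 + X ^ (p + p) * W) := by
    rw [← hW, Yb_eq, mul_pow, mul_pow, ← map_pow C, ZMod.pow_card, ← pow_mul, ← pow_mul,
      Nat.mul_comm 2 p]
    ring
  rw [e, Ga_C, Ga_add, Ga_high (g := X ^ (p + p) * _) (Dvd.dvd.mul_right (pow_dvd_pow _ (by omega)) _),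
    Ga_Xp hp, mul_one, coeff_k]
  ring

theorem Eb (hn : 1 ≤ n) {δ : ZMod p} (hδ : ds L (C P.θ) = C δ) :
    Ga n (ds L P.Y) = δ + 4 * PadicInt.toZMod P.θ * coeff (2 * n) ((X + 4) ^ (2 * n) * ds L P.h) := by
  have hp := L.hp
  obtain ⟨W, V, hW, hV⟩ := T1 P
  obtain ⟨W3, hW3⟩ := T3 P
  set t := PadicInt.toZMod P.θ with ht
  have hx : (X ^ 2 + 4 * X : ℤ_[p]⟦X⟧) = io p (Polynomial.X * (Polynomial.X + 4)) := by
    rw [show (4 : Polynomial ℤ) = Polynomial.C 4 from (map_ofNat Polynomial.C 4).symm, map_mul,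
      map_add, io_X, io_C]
    have : ((4 : ℤ) : ℤ_[p]) = 4 := by norm_num
    rw [this, map_ofNat]; ring
  have e : ds L P.Y = C δ * (X ^ p * 1 + X ^ (p + p) * W) +
      C t * (((dlP L (Polynomial.X * (Polynomial.X + 4)) : Polynomial (ZMod p)) : (ZMod p)⟦X⟧) *
        (C (constantCoeff (rs p P.h) ^ 2) + X ^ p * V)) +
      C t * (C 2 * (X ^ p * (C 2 * ds L P.h) + X ^ (p + p) * (W3 * ds L P.h))) := by
    rw [P.hY, ds_mul, ds_mul, hδ, pow_two P.h, ds_mul]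
    nth_rewrite 2 [hx]
    rw [ds_io, rs_mul, rs_mul, rs_C, rs_x, ← hV, ← hW, mul_pow (C t), ← map_pow C, ZMod.pow_card]
    have h2 : (C (2 : ZMod p) : (ZMod p)⟦X⟧) = 2 := map_ofNat C 2
    have h3 : X ^ p * (C 2 * ds L P.h) + X ^ (p + p) * (W3 * ds L P.h) =
      ((X ^ 2 + 4 * X : (ZMod p)⟦X⟧) ^ p * (rs p P.h ^ p)) * ds L P.h := by rw [hW3]; ring
    rw [h3, h2, ← ht]
    ring
  rw [e, Ga_add, Ga_add, Ga_C, Ga_add, Ga_C, Ga_dsx L hn, Ga_C, Ga_C, Ga_add,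
    Ga_high (g := X ^ (p + p) * W) (Dvd.dvd.mul_right (pow_dvd_pow _ (by omega)) _),
    Ga_high (g := X ^ (p + p) * (W3 * ds L P.h)) (Dvd.dvd.mul_right (pow_dvd_pow _ (by omega)) _),
    Ga_Xp hp, Ga_Xp hp, mul_one, coeff_k,
    show (X + 4 : (ZMod p)⟦X⟧) ^ (2 * n) * (C 2 * ds L P.h) = C 2 * ((X + 4) ^ (2 * n) * ds L P.h) by ring,
    coeff_C_mul]
  ring

/-- lifting `σ` -/
theorem psi_shape : ∃ V W : ℤ_[p]⟦X⟧, io p L.ψ = X ^ (2 * n + 1) * V + C ((p : ℤ_[p]) ^ 2) * W := by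
  obtain ⟨t, ht⟩ : ∃ t : Polynomial ℤ, L.σ - Polynomial.X ^ (2 * n) = Polynomial.C (p : ℤ) * t := by
    refine rp_zero_iff.1 ?_
    simp only [rp, Polynomial.map_sub, Polynomial.map_pow, Polynomial.map_X, L.m2, sub_self]
  have h := congrArg (io p) ht
  rw [map_sub, map_pow, io_X, map_mul, io_C] at h
  have hs : io p L.σ = X ^ (2 * n) + C ((p : ℤ) : ℤ_[p]) * io p t := by rw [← h]; ring
  refine ⟨X ^ (2 * n) + 2 * C (p : ℤ_[p]) * io p t, X * io p t ^ 2, ?_⟩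
  rw [L.h1, map_mul, map_pow, io_X, hs, map_pow]
  push_cast
  ring

theorem coeff_kR : coeff (2 * n) ((X + 4 : ℤ_[p]⟦X⟧) ^ (2 * n)) = 1 := by
  have : ((X + 4 : ℤ_[p]⟦X⟧) ^ (2 * n)) =
      (((Polynomial.X + Polynomial.C 4) ^ (2 * n) : Polynomial ℤ_[p]) : ℤ_[p]⟦X⟧) := by
    rw [Polynomial.coe_pow, Polynomial.coe_add, Polynomial.coe_X, Polynomial.coe_C, map_ofNat]
  rw [this, Polynomial.coeff_coe, Polynomial.coeff_X_add_C_pow]
  simp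

theorem Ec : ∃ E z : ℤ_[p], PadicInt.toZMod E = coeff (2 * n) ((X + 4) ^ (2 * n) * ds L P.h) ∧
    em P (2 * n) = P.θ ^ (2 * n) * (constantCoeff P.h + p * E + (p : ℤ_[p]) ^ 2 * z) := by
  have hp := L.hp
  obtain ⟨g, hg, hg'⟩ := ds_spec L P.h
  obtain ⟨V, W, hVW⟩ := psi_shape L
  obtain ⟨w, hw⟩ : ∃ w, P.h = C (constantCoeff P.h) + X * w := by
    have h : X ∣ P.h - C (constantCoeff P.h) := by rw [X_dvd_iff]; simp
    obtain ⟨g, hg⟩ := h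
    exact ⟨g, by rw [← hg]; ring⟩
  have hS : sS L P.h = C (constantCoeff P.h) + (X ^ (2 * n + 1) * V + C ((p : ℤ_[p]) ^ 2) * W) * sS L w := by
    conv_lhs => rw [hw]
    rw [map_add, map_mul, sS_C, sS_X, hVW]
  refine ⟨coeff (2 * n) ((X + 4) ^ (2 * n) * g), coeff (2 * n) ((X + 4) ^ (2 * n) * (W * sS L w)), ?_, ?_⟩
  · rw [hg', ← rs_coeff, rs_mul, rs_pow]
    congr 3
    rw [show (4 : ℤ_[p]⟦X⟧) = C 4 from (map_ofNat C 4).symm, rs, map_add, map_X, map_C, map_ofNat,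
      map_ofNat]
  · have e : P.Y ^ (2 * n) * P.h = X ^ (2 * n) * (C (P.θ ^ (2 * n)) * ((X + 4) ^ (2 * n) * P.h ^ p)) := by
      have e3 : P.h ^ p = (P.h ^ 2) ^ (2 * n) * P.h := by
        rw [← pow_mul, ← pow_succ]; congr 1; omega
      rw [e3, P.hY, show (X ^ 2 + 4 * X : ℤ_[p]⟦X⟧) = X * (X + 4) by ring, map_pow, mul_pow, mul_pow,
        mul_pow]
      ring
    rw [em, e, show p - 1 = 2 * n + 2 * n by omega, coeff_X_pow_mul, coeff_C_mul, hg, hS]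
    have e2 : (X + 4 : ℤ_[p]⟦X⟧) ^ (2 * n) * (C (constantCoeff P.h) +
        (X ^ (2 * n + 1) * V + C ((p : ℤ_[p]) ^ 2) * W) * sS L w + C (p : ℤ_[p]) * g) =
        C (constantCoeff P.h) * (X + 4) ^ (2 * n) + C (p : ℤ_[p]) * ((X + 4) ^ (2 * n) * g) +
        C ((p : ℤ_[p]) ^ 2) * ((X + 4) ^ (2 * n) * (W * sS L w)) +
        X ^ (2 * n + 1) * ((X + 4) ^ (2 * n) * V * sS L w) := by ring
    rw [e2, map_add, map_add, map_add, coeff_C_mul, coeff_C_mul, coeff_C_mul, coeff_kR, coeff_X_pow_mul',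
      if_neg (by omega)]
    ring

end Pool.Agent.H35.CE
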