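import Pool.Agent.H35.CE.E2

/-! Assembly, third part. -/

set_option autoImplicit false
set_option linter.unusedVariables false
set_option linter.unusedSectionVars false

open PowerSeries

namespace Pool.Agent.H35.CE

variable {p n : ℕ} [hpf : Fact p.Prime] (L : Lf p n) (P : PD p)

theorem Ga_sum {F ι : Type*} [CommRing F] (s : Finset ι) (f : ι → F⟦X⟧) :
    Ga n (∑ i ∈ s, f i) = ∑ i ∈ s, Ga n (f i) := by
  classical
  induction s using Finset.induction_on with
  | empty => simp [Ga]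
  | insert a s ha ih => rw [Finset.sum_insert ha, Finset.sum_insert ha, Ga_add, ih]

theorem cb_p (hp2 : p ≠ 2) : ∃ w : ℕ, Nat.centralBinom p = 2 + p ^ 2 * w := by
  have hp0 := hpf.out.pos
  rw [Nat.centralBinom_eq_two_mul_choose, two_mul, Nat.add_choose_eq,
    Finset.Nat.sum_antidiagonal_eq_sum_range_succ (fun i j => p.choose i * p.choose j),
    Finset.sum_range_succ, Finset.range_eq_Ico, Finset.sum_eq_sum_Ico_succ_bot hp0]
  have : p ^ 2 ∣ ∑ k ∈ Finset.Ico (0 + 1) p, p.choose k * p.choose (p - k) := by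
    refine Finset.dvd_sum fun k hk => ?_
    obtain ⟨h1, h2⟩ := Finset.mem_Ico.1 hk
    rw [sq]
    exact mul_dvd_mul (hpf.out.dvd_choose_self (by omega) h2)
      (hpf.out.dvd_choose_self (by omega) (by omega))
  obtain ⟨w, hw⟩ := this
  refine ⟨w, ?_⟩
  rw [hw]
  simp
  ring

theorem bt_bb (hp : p = 4 * n + 1) (hp2 : p ≠ 2) {r3 : ℤ_[p]} (h3 : 4 * r3 = -3) {m : ℕ} (hm : m < p) :
    PadicInt.toZMod (bt r3 m) = bb p n m := by
  have h4 : (4 : ZMod p) ≠ 0 := by
    have h2 : ((2 : ℕ) : ZMod p) ≠ 0 := by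
      rw [Ne, ZMod.natCast_eq_zero_iff]
      intro hd
      exact hp2 ((Nat.prime_dvd_prime_iff_eq hpf.out Nat.prime_two).1 hd)
    have h4 : (4 : ZMod p) = ((2 : ℕ) : ZMod p) * ((2 : ℕ) : ZMod p) := by norm_num
    rw [h4]; exact mul_ne_zero h2 h2
  have hr : PadicInt.toZMod r3 = ((3 * n : ℕ) : ZMod p) := by
    have h := congrArg PadicInt.toZMod h3
    rw [map_mul, map_neg, map_ofNat, map_ofNat] at h
    have hz : ((4 * n + 1 : ℕ) : ZMod p) = 0 := by rw [← hp]; exact CharP.cast_eq_zero _ _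
    push_cast at hz ⊢
    refine mul_left_cancel₀ h4 ?_
    linear_combination h - 3 * hz
  have e1 := fac_choose r3 m
  have e2 := fac_choose ((3 * n : ℕ) : ℤ_[p]) m
  rw [Ring.choose_natCast] at e2
  have f1 := congrArg PadicInt.toZMod e1
  have f2 := congrArg PadicInt.toZMod e2
  rw [map_mul, map_natCast, map_prod] at f1 f2
  have hf : (m.factorial : ZMod p) ≠ 0 := by
    rw [Ne, ZMod.natCast_eq_zero_iff, hpf.out.dvd_factorial]; omega
  have : PadicInt.toZMod (Ring.choose r3 m) = ((3 * n).choose m : ZMod p) := by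
    rw [map_natCast] at f2
    refine mul_left_cancel₀ hf ?_
    rw [f1, f2]
    refine Finset.prod_congr rfl fun j _ => ?_
    rw [map_sub, map_sub, hr, map_natCast, map_natCast]
  rw [bt, bb, map_mul, map_pow, map_neg, map_one, this]

theorem S_final (L : Lf p n) (hn : 1 ≤ n) (hp2 : p ≠ 2) (D : CD p) (hYH : P.Y * io p D.H = io p D.N)
    {r1 r3 : ℤ_[p]} (h1 : 4 * r1 = -1) (h3 : 4 * r3 = -3) {ε : ℤ_[p]} (hε : ε ^ 2 = 1)
    (hθ : PadicInt.toZMod (P.θ ^ (2 * n)) = PadicInt.toZMod ε) {U : ℤ_[p]}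
    (hU : PadicInt.toZMod U = P1 p n) (hθ0 : PadicInt.toZMod P.θ ≠ 0) :
    (p : ℤ_[p]) ^ 2 ∣ SS p r1 P.κ - ε * (bt r3 (2 * n) + p * U) := by
  have hp := L.hp
  have hb := bb_ne (p := p) hp
  have h2 : (2 : ZMod p) ≠ 0 := by
    have h2 : ((2 : ℕ) : ZMod p) ≠ 0 := by
      rw [Ne, ZMod.natCast_eq_zero_iff]
      intro hd
      exact hp2 ((Nat.prime_dvd_prime_iff_eq hpf.out Nat.prime_two).1 hd)
    exact_mod_cast h2
  obtain ⟨w, hw⟩ := cb_p (p := p) hp2
  have hwc : (Nat.centralBinom p : ℤ_[p]) = 2 + (p : ℤ_[p]) ^ 2 * w := by rw [hw]; push_cast; ring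
  obtain ⟨E, z, hE, hem⟩ := Ec L P
  -- inverses of 2m+1
  have hiv : ∀ m : ℕ, ∃ iv : ℤ_[p], m ∈ (Finset.range p).erase (2 * n) → ((2 * m + 1 : ℕ) : ℤ_[p]) * iv = 1 := by
    intro m
    by_cases hm : m ∈ (Finset.range p).erase (2 * n)
    · obtain ⟨ha, hb⟩ := Finset.mem_erase.1 hm
      have hu := unit_natCast (two_m_unit (Finset.mem_range.1 hb) (by omega) hp2)
      obtain ⟨u, hu⟩ := hu
      exact ⟨((u⁻¹ : ℤ_[p]ˣ) : ℤ_[p]), fun _ => by rw [← hu, Units.mul_inv]⟩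
    · exact ⟨0, fun h => absurd h hm⟩
  choose iv hiv using hiv
  set T : ℤ_[p] := ∑ m ∈ (Finset.range p).erase (2 * n), bt r3 m * em P m * iv m with hT
  have hSS : SS p r1 P.κ = (Nat.centralBinom p : ℤ_[p]) * (bt r3 (2 * n) * em P (2 * n) + p * T) := by
    have hmem : 2 * n ∈ Finset.range p := Finset.mem_range.2 (by omega)
    rw [SS_eq hp2 P h1 h3, ← Finset.add_sum_erase _ _ hmem, lm_mid hp2 P (by omega), hT, Finset.mul_sum,
      mul_add, Finset.mul_sum]
    congr 1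
    · ring
    · refine Finset.sum_congr rfl fun m hm => ?_
      have e1 := lm_eq hp2 P m
      have e2 := hiv m hm
      have : lm P m = (((2 * m + 1 : ℕ) : ℤ_[p]) * lm P m) * iv m := by
        linear_combination (-lm P m) * e2
      rw [this, e1]; ring
  -- the sign
  obtain ⟨t1, ht1⟩ : ∃ t1, P.θ ^ (2 * n) = ε + p * t1 := by
    obtain ⟨t1, h⟩ := toZMod_eq_iff.1 hθ
    exact ⟨t1, by rw [← h]; ring⟩
  have hδ : ds L (C P.θ) = C (PadicInt.toZMod (P.θ * (2 * ε * t1 + (p : ℤ_[p]) * t1 ^ 2))) := by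
    refine ds_C L ?_
    have : P.θ ^ p = P.θ * (P.θ ^ (2 * n)) ^ 2 := by
      rw [← pow_mul, ← pow_succ']; congr 1; omega
    rw [this, ht1]
    linear_combination P.θ * hε
  have hEb := Eb L P hn hδ
  rw [← hE] at hEb
  have hcore := core L D hp2 hn hYH
  rw [Yy, Ga_sub, Ga_sub, Ga_neg, Ga_C, Ga_C, Ga_Yp P hp] at hcore
  have hSi : Ga n (Polynomial.aeval (rs p P.Y) (Si p n)) =
      2 * PadicInt.toZMod P.θ ^ (2 * n + 1) * PadicInt.toZMod T := by
    rw [Si, map_sum, Ga_sum, hT, map_sum, Finset.mul_sum]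
    refine Finset.sum_congr rfl fun m hm => ?_
    obtain ⟨ha, hbm⟩ := Finset.mem_erase.1 hm
    have hm' := Finset.mem_range.1 hbm
    have e2 := congrArg PadicInt.toZMod (hiv m hm)
    rw [map_mul, map_natCast, map_one] at e2
    have h0 := two_m hp hm' ha
    have e3 : PadicInt.toZMod (iv m) = 1 / ((2 * m + 1 : ℕ) : ZMod p) := by
      rw [eq_div_iff h0, mul_comm]; exact e2
    have e4 := Ea P hp m
    rw [map_mul, Polynomial.aeval_C, map_pow, Polynomial.aeval_X,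
      show (algebraMap (ZMod p) (ZMod p)⟦X⟧) (bb p n m / ((2 * m + 1 : ℕ) : ZMod p)) =
        C (bb p n m / ((2 * m + 1 : ℕ) : ZMod p)) from rfl, Ga_C, ← e4, map_mul, map_mul,
      bt_bb hp hp2 h3 hm', e3]
    ring
  set θb := PadicInt.toZMod P.θ with hθb
  set εb := PadicInt.toZMod ε with hεb
  have hεb2 : εb ^ 2 = 1 := by rw [hεb, ← map_pow, hε, map_one]
  have hθn : θb ^ (2 * n) = εb := by rw [hθb, ← map_pow, hθ]
  rw [hSi, pow_succ, hθn] at hcore
  have hp0 : PadicInt.toZMod (p : ℤ_[p]) = 0 := by simp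
  have hβ := bt_bb hp hp2 h3 (m := 2 * n) (by omega)
  -- reduction of Z
  have hZ : PadicInt.toZMod (bt r3 (2 * n) * t1 + (2 * bt r3 (2 * n) * P.θ ^ (2 * n) * E + 2 * T) - ε * U) = 0 := by
    simp only [map_mul, map_add, map_pow, map_ofNat, hp0, zero_mul, add_zero] at hEb
    rw [← hθb, ← hεb] at hEb
    simp only [map_sub, map_add, map_mul, map_pow, map_ofNat]
    rw [hβ, hU, ← hθb, ← hεb, hθn]
    set β := bb p n (2 * n) with hβd
    have hcc : cc p n = -(2 / β) * P1 p n := rfl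
    rw [hcc] at hcore
    have h5 : β * (2 / β) = 2 := by field_simp
    -- multiply by θb * εb * 2
    have h6 : (2 * θb * εb) * (β * PadicInt.toZMod t1 + (2 * β * εb * PadicInt.toZMod E + 2 * PadicInt.toZMod T) -
        εb * P1 p n) = 0 := by
      have e1 : β * Ga n (ds L P.Y) + 2 * (2 * (εb * θb) * PadicInt.toZMod T) - 2 * P1 p n * θb = 0 := by
        linear_combination (-β) * hcore + (-(2 * (εb * θb) * PadicInt.toZMod T) + P1 p n * θb) * h5
      rw [hEb] at e1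
      linear_combination e1 + (4 * β * θb * PadicInt.toZMod E - 2 * θb * P1 p n) * hεb2
    have h7 : (2 * θb * εb) ≠ 0 := by
      refine mul_ne_zero (mul_ne_zero h2 hθ0) ?_
      intro h; rw [h] at hεb2; simp at hεb2
    rcases mul_eq_zero.1 h6 with h | h
    · exact absurd h h7
    · exact h
  obtain ⟨v, hv⟩ := (Pool.Agent.H35.Q51.padic_dvd_iff _).1 hZ
  have h0 := P.h0
  refine ⟨v + (2 * bt r3 (2 * n) * P.θ ^ (2 * n) * z + w * (bt r3 (2 * n) * em P (2 * n) + p * T)), ?_⟩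
  rw [hSS, hwc]
  have e5 : (2 + (p : ℤ_[p]) ^ 2 * w) * (bt r3 (2 * n) * em P (2 * n) + p * T) =
      2 * (bt r3 (2 * n) * em P (2 * n)) + 2 * (p * T) +
      (p : ℤ_[p]) ^ 2 * (w * (bt r3 (2 * n) * em P (2 * n) + p * T)) := by ring
  rw [e5]
  have e6 : 2 * (bt r3 (2 * n) * em P (2 * n)) = bt r3 (2 * n) * (ε + p * t1) +
      2 * bt r3 (2 * n) * P.θ ^ (2 * n) * (p * E + (p : ℤ_[p]) ^ 2 * z) := by
    rw [hem]
    linear_combination bt r3 (2 * n) * P.θ ^ (2 * n) * h0 + bt r3 (2 * n) * ht1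
  rw [e6]
  linear_combination (p : ℤ_[p]) * hv

end Pool.Agent.H35.CE
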