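import Pool.Graph.R_seed8.R439.FD.FC

/-! The universal value modulo `p^2`. -/

set_option autoImplicit false
set_option linter.unusedVariables false
set_option linter.unusedSectionVars false

namespace Pool.Agent.H35.CE

open Finset Pool.Agent.R439.PL Pool.Agent.R439.PL.S4 Pool.Agent.R439.PL.FD
open Pool.Agent.R488.Cub (H prod1 H_sub H_mem prodH prod_choose)

theorem pf (N : ℕ) : ∀ x : ℚ, 0 < x → (∑ m ∈ range (N + 1), (-1 : ℚ) ^ m * (N.choose m : ℚ) / (x + m)) *
    ∏ i ∈ range (N + 1), (x + i) = N.factorial := by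
  induction N with
  | zero =>
    intro x hx
    have : x ≠ 0 := hx.ne'
    simp [this]
  | succ N ih =>
    intro x hx
    have h1 := ih x hx
    have h2 := ih (x + 1) (by linarith)
    set A := ∑ m ∈ range (N + 1), (-1 : ℚ) ^ m * (N.choose m : ℚ) / (x + m) with hA
    set B := ∑ m ∈ range (N + 1), (-1 : ℚ) ^ m * (N.choose m : ℚ) / (x + 1 + m) with hB
    have h3 : ∑ m ∈ range (N + 1 + 1), (-1 : ℚ) ^ m * ((N + 1).choose m : ℚ) / (x + m) = A - B := by
      rw [sum_range_succ']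
      have e1 : A = ∑ m ∈ range (N + 1), (-1 : ℚ) ^ (m + 1) * (N.choose (m + 1) : ℚ) / (x + (m + 1 : ℕ)) +
          (-1 : ℚ) ^ 0 * (N.choose 0 : ℚ) / (x + (0 : ℕ)) := by
        rw [← sum_range_succ' (fun m : ℕ => (-1 : ℚ) ^ m * (N.choose m : ℚ) / (x + m)) (N + 1), hA,
          sum_range_succ _ (N + 1), Nat.choose_succ_self]
        simp
      rw [e1, hB, Nat.choose_zero_right, Nat.choose_zero_right, add_sub_right_comm,
        ← sum_sub_distrib]
      congr 1
      refine sum_congr rfl fun m _ => ?_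
      rw [Nat.choose_succ_succ]
      push_cast
      have : x + 1 + (m : ℚ) = x + (m + 1) := by ring
      rw [this, pow_succ]; ring
    rw [h3]
    have hP0 : ∏ i ∈ range (N + 1 + 1), (x + (i : ℚ)) = (∏ i ∈ range (N + 1), (x + i)) * (x + (N + 1)) := by
      rw [prod_range_succ]; push_cast; ring
    have hP1 : ∏ i ∈ range (N + 1 + 1), (x + (i : ℚ)) = (∏ i ∈ range (N + 1), (x + 1 + i)) * x := by
      rw [prod_range_succ']
      simp only [Nat.cast_zero, add_zero]
      congr 1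
      refine prod_congr rfl fun i _ => ?_
      push_cast; ring
    rw [sub_mul]
    nth_rewrite 1 [hP0]
    rw [hP1, ← mul_assoc, ← mul_assoc, h1, h2, Nat.factorial_succ]
    push_cast; ring

theorem dfac (N : ℕ) : (∏ i ∈ range (N + 1), (2 * (i : ℚ) + 1)) * 2 ^ N * N.factorial =
    ((2 * N + 1).factorial : ℚ) := by
  induction N with
  | zero => simp
  | succ N ih =>
    rw [prod_range_succ, show 2 * (N + 1) + 1 = 2 * N + 1 + 1 + 1 by ring,
      Nat.factorial_succ (2 * N + 1 + 1), Nat.factorial_succ (2 * N + 1), Nat.factorial_succ N]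
    push_cast
    rw [← ih]; ring

/-- `∑ (-1)^m (N choose m)/(2m+1)` -/
def aa (N : ℕ) : ℚ := ∑ m ∈ range (N + 1), (-1 : ℚ) ^ m * (N.choose m : ℚ) / (2 * m + 1)

theorem aa_val (N : ℕ) : aa N * ((2 * N + 1).factorial : ℚ) = 4 ^ N * (N.factorial : ℚ) ^ 2 := by
  have h := pf N (1 / 2) (by norm_num)
  have e1 : ∑ m ∈ range (N + 1), (-1 : ℚ) ^ m * (N.choose m : ℚ) / (1 / 2 + m) = 2 * aa N := by
    rw [aa, mul_sum]
    refine sum_congr rfl fun m _ => ?_
    have : (1 / 2 + (m : ℚ)) = (2 * m + 1) / 2 := by ring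
    rw [this]
    have : (2 * (m : ℚ) + 1) ≠ 0 := by positivity
    field_simp
  have e2 : (∏ i ∈ range (N + 1), (1 / 2 + (i : ℚ))) * 2 ^ (N + 1) = ∏ i ∈ range (N + 1), (2 * (i : ℚ) + 1) := by
    rw [← card_range (N + 1), ← prod_const, card_range, ← prod_mul_distrib]
    refine prod_congr rfl fun i _ => by ring
  rw [e1] at h
  rw [← dfac, ← e2]
  have h4 : (4 : ℚ) ^ N = 2 ^ N * 2 ^ N := by rw [← mul_pow]; norm_num
  rw [h4, pow_succ]
  linear_combination 2 ^ N * 2 ^ N * (N.factorial : ℚ) * h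

theorem cbn (n : ℕ) : ∏ i ∈ range n, (((2 * n : ℕ) : ℚ) - i) = 2 ^ n * ∏ i ∈ range n, (2 * (i : ℚ) + 1) := by
  rw [prod_choose _ _ (by omega), ← Nat.centralBinom_eq_two_mul_choose]
  induction n with
  | zero => simp
  | succ n ih =>
    rw [prod_range_succ, pow_succ, Nat.factorial_succ]
    have := Nat.succ_mul_centralBinom_succ n
    have h : ((n : ℚ) + 1) * (Nat.centralBinom (n + 1) : ℚ) = 2 * (2 * n + 1) * Nat.centralBinom n := by
      exact_mod_cast this
    push_cast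
    linear_combination (n.factorial : ℚ) * h + 2 * (2 * (n : ℚ) + 1) * ih

variable {p n : ℕ} [hp : Fact p.Prime]

theorem pow2 (hpn : p = 4 * n + 1) : EQ p 2 ((2 : ℚ) ^ (2 * n))
    ((-1) ^ n * (1 + p * (2 : ℚ)⁻¹ * (H (2 * n) - H n))) := by
  have hn := hn0 hpn
  have u2 := unit2 hpn
  have hpq : (p : ℚ) = 4 * n + 1 := by exact_mod_cast hpn
  have uo : ∀ i ∈ range n, U p (2 * (i : ℚ) + 1) := by
    intro i hi
    have := U_nat (p := p) (k := 2 * i + 1) (by omega) (by have := mem_range.1 hi; omega)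
    exact_mod_cast this
  have u2n : ∀ i ∈ range n, U p (((2 * n : ℕ) : ℚ) - i) := by
    intro i hi
    have hi' := mem_range.1 hi
    have := U_nat (p := p) (k := 2 * n - i) (by omega) (by omega)
    rwa [Nat.cast_sub (by omega)] at this
  have h1 := prod1 (p := p) (s := range n) (e := fun i => 2 * (i : ℚ) + 1) (δ := p) uo I_p
  have h2 : (2 : ℚ) ^ (2 * n) * ∏ i ∈ range n, (2 * (i : ℚ) + 1) =
      (-1) ^ n * ∏ i ∈ range n, (2 * (i : ℚ) + 1 - p) := by
    have e := cbn n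
    have e1 : (2 : ℚ) ^ (2 * n) = 2 ^ n * 2 ^ n := by rw [← pow_add]; congr 1; ring
    rw [e1, mul_assoc, ← e, ← card_range n, ← prod_const, ← prod_const, card_range,
      ← prod_mul_distrib, ← prod_mul_distrib]
    refine prod_congr rfl fun i _ => ?_
    rw [hpq]; push_cast; ring
  have uP := U.prod uo
  set Pd := ∏ i ∈ range n, (2 * (i : ℚ) + 1) with hPd
  set O := ∑ i ∈ range n, (2 * (i : ℚ) + 1)⁻¹ with hO
  have mO : O ∈ Zp p := sum_mem fun i hi => (uo i hi).2.2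
  have m1 := H_mem (p := p) (m := n) (by omega)
  have m2 := H_mem (p := p) (m := 2 * n) (by omega)
  have ms : (-1 : ℚ) ^ n ∈ Zp p := pow_mem (neg_mem (one_mem _)) n
  -- O = -(H(2n)-H(n))/2 mod p
  have h3 : I p 1 (O + (2 : ℚ)⁻¹ * (H (2 * n) - H n)) := by
    have h0 := H_sub (2 * n) n (by omega)
    rw [show 2 * n - n = n by omega] at h0
    rw [← h0, hO, mul_sum, ← sum_add_distrib]
    refine I.sum fun i hi => ?_
    have a1 := uo i hi
    have a2 := u2n i hi
    refine ⟨(2 * (i : ℚ) + 1)⁻¹ * ((2 : ℚ)⁻¹ * (((2 * n : ℕ) : ℚ) - i)⁻¹),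
      mul_mem a1.2.2 (mul_mem u2.2.2 a2.2.2), ?_⟩
    have b1 := a1.1
    have b2 := a2.1
    rw [hpq]
    push_cast at b2 ⊢
    have b3 : (4 * (n : ℚ) + 1) = 2 * (2 * n - i) + (2 * i + 1) := by ring
    rw [b3]
    generalize (2 * (n : ℚ) - i) = x at *
    generalize (2 * (i : ℚ) + 1) = y at *
    field_simp
  have h4 : EQ p 2 ((2 : ℚ) ^ (2 * n)) ((-1) ^ n * (1 - p * O)) := by
    refine ⟨pow_mem u2.2.1 _, mul_mem ms (sub_mem (one_mem _) (mul_mem p_mem mO)), ?_⟩
    refine uP.cancel ?_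
    have := h1.2.2.mulL ms
    have e : Pd * ((2 : ℚ) ^ (2 * n) - (-1) ^ n * (1 - p * O)) =
        (-1) ^ n * (∏ i ∈ range n, (2 * (i : ℚ) + 1 - p) - Pd * (1 - p * O)) := by
      linear_combination h2
    rw [e]; exact this
  refine h4.trans ⟨h4.2.1, mul_mem ms (add_mem (one_mem _) (mul_mem (mul_mem p_mem u2.2.2) (sub_mem m2 m1))), ?_⟩
  have h5 := ((I_p (p := p)).mul h3).mulL (neg_mem ms)
  convert h5 using 1
  ring

/-- the universal value -/
theorem Qval (hpn : p = 4 * n + 1) : EQ p 2 (p * aa (3 * n))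
    ((-1) ^ n * ((2 * n).choose n : ℚ) * (1 + p * (2 : ℚ)⁻¹ * (H n - H (2 * n)))) := by
  have hn := hn0 hpn
  have u2 := unit2 hpn
  have hpq : (p : ℚ) = 4 * n + 1 := by exact_mod_cast hpn
  have m1 := H_mem (p := p) (m := n) (by omega)
  have m2 := H_mem (p := p) (m := 2 * n) (by omega)
  have ms : (-1 : ℚ) ^ n ∈ Zp p := pow_mem (neg_mem (one_mem _)) n
  have hs : (-1 : ℚ) ^ n * (-1) ^ n = 1 := by rw [← mul_pow]; norm_num
  have mC : ((2 * n).choose n : ℚ) ∈ Zp p := nat_mem _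
  have c3 := C3_val hpn
  have q2 := pow2 hpn
  -- the two products
  have h1 := prodH (p := p) (a := 2 * n) (b := 2 * n) le_rfl (by omega) (δ := -p) (I_p.neg)
  have h2 := prodH (p := p) (a := n) (b := n) le_rfl (by omega) (δ := p) I_p
  rw [prod_choose _ _ le_rfl, Nat.choose_self, Nat.sub_self] at h1 h2
  have hH0 : H 0 = 0 := by simp [H]
  rw [hH0, sub_zero] at h1 h2
  set P2 := ∏ i ∈ range (2 * n), (((2 * n : ℕ) : ℚ) - i - -(p : ℚ)) with hP2
  set P1 := ∏ i ∈ range n, ((n : ℚ) - i - p) with hP1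
  have e1 : ((3 * n).factorial : ℚ) * ((-1) ^ n * P1) = ((4 * n).factorial : ℚ) := by
    have a1 := prod_choose (4 * n) n (by omega)
    have a2 : (((4 * n).choose n * n.factorial * (4 * n - n).factorial : ℕ) : ℚ) = (4 * n).factorial := by
      exact_mod_cast congrArg (Nat.cast (R := ℚ)) (Nat.choose_mul_factorial_mul_factorial (show n ≤ 4 * n by omega))
    rw [show 4 * n - n = 3 * n by omega] at a2
    have a3 : (-1) ^ n * P1 = ∏ i ∈ range n, (((4 * n : ℕ) : ℚ) - i) := by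
      rw [hP1, ← prod_range_reflect (fun i : ℕ => ((n : ℚ) - i - p)), ← card_range n, ← prod_const,
        card_range, ← prod_mul_distrib]
      refine prod_congr rfl fun i hi => ?_
      have hi' := mem_range.1 hi
      have e : ((n - 1 - i : ℕ) : ℚ) = n - 1 - i := by
        rw [Nat.cast_sub (by omega), Nat.cast_sub (by omega)]; push_cast; ring
      rw [e, hpq]; push_cast; ring
    rw [a3, a1, ← a2]; push_cast; ring
  have e2 : P2 * ((4 * n + 1).factorial : ℚ) = ((6 * n + 1).factorial : ℚ) := by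
    have a1 := prod_choose (6 * n + 1) (2 * n) (by omega)
    have a2 : (((6 * n + 1).choose (2 * n) * (2 * n).factorial * (6 * n + 1 - 2 * n).factorial : ℕ) : ℚ) =
        (6 * n + 1).factorial := by
      exact_mod_cast congrArg (Nat.cast (R := ℚ)) (Nat.choose_mul_factorial_mul_factorial (show 2 * n ≤ 6 * n + 1 by omega))
    rw [show 6 * n + 1 - 2 * n = 4 * n + 1 by omega] at a2
    have a3 : P2 = ∏ i ∈ range (2 * n), (((6 * n + 1 : ℕ) : ℚ) - i) := by
      rw [hP2]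
      refine prod_congr rfl fun i hi => ?_
      rw [hpq]; push_cast; ring
    rw [a3, a1, ← a2]; push_cast; ring
  have e3 := aa_val (3 * n)
  have h4n : ((4 * n + 1).factorial : ℚ) = p * (4 * n).factorial := by
    rw [Nat.factorial_succ, hpn]; push_cast; ring
  have h3f : ((3 * n).factorial : ℚ) = (3 * n).choose n * n.factorial * (2 * n).factorial := by
    have := Nat.choose_mul_factorial_mul_factorial (show n ≤ 3 * n by omega)
    rw [show 3 * n - n = 2 * n by omega] at this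
    exact_mod_cast this.symm
  have h3f0 : ((3 * n).factorial : ℚ) ≠ 0 := by exact_mod_cast (3 * n).factorial_ne_zero
  set Q := (p : ℚ) * aa (3 * n) with hQ
  -- exact relation
  have key : Q * (P2 * ((-1) ^ n * P1)) = (2 ^ (2 * n)) ^ 3 * ((3 * n).choose n * n.factorial * (2 * n).factorial) := by
    have h64 : (4 : ℚ) ^ (3 * n) = (2 ^ (2 * n)) ^ 3 := by
      rw [show (4 : ℚ) = 2 ^ 2 by norm_num, ← pow_mul, ← pow_mul]; congr 1; ring
    rw [← h3f, ← h64]
    have : ((3 * n).factorial : ℚ) * (Q * (P2 * ((-1) ^ n * P1))) =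
        (3 * n).factorial * (4 ^ (3 * n) * (3 * n).factorial) := by
      have e2' := e2
      rw [h4n, ← e1] at e2'
      rw [show 2 * (3 * n) + 1 = 6 * n + 1 by ring] at e3
      linear_combination aa (3 * n) * e2' + e3
    exact mul_left_cancel₀ h3f0 this
  have uf1 : U p (n.factorial : ℚ) := U_nat' (by rw [hp.out.dvd_factorial]; omega)
  have uf2 : U p ((2 * n).factorial : ℚ) := U_nat' (by rw [hp.out.dvd_factorial]; omega)
  have ha : I p 1 ((p : ℚ) * H n) := I_p.mulR m1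
  have hb : I p 1 ((p : ℚ) * H (2 * n)) := I_p.mulR m2
  have q3 := q2.pow 3
  set a := (p : ℚ) * H n with had
  set b := (p : ℚ) * H (2 * n) with hbd
  have h1' : EQ p 2 P2 ((2 * n).factorial * (1 + b)) := by
    convert h1 using 1
    push_cast; ring
  have h2' : EQ p 2 P1 (n.factorial * (1 - a)) := by
    convert h2 using 1
    push_cast; ring
  have hc : I p 1 (b - a) := hb.sub ha
  have u1a : U p (1 - a) := (EQ.refl (k := 1) (one_mem (Zp p))).sub (EQ.of_I ha) |>.symm.unit one_pos (by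
    rw [sub_zero]; exact U.one)
  have u1b : U p (1 + b) := (EQ.refl (k := 1) (one_mem (Zp p))).add (EQ.of_I hb) |>.symm.unit one_pos (by
    rw [add_zero]; exact U.one)
  have un : U p ((-1 : ℚ) ^ n) := by
    have : U p (-1 : ℚ) := ⟨by norm_num, neg_mem (one_mem _), by
      rw [inv_neg, inv_one]; exact neg_mem (one_mem _)⟩
    exact this.pow n
  have uP : U p (P2 * ((-1) ^ n * P1)) :=
    (h1'.symm.unit two_pos (uf2.mul u1b)).mul (un.mul (h2'.symm.unit two_pos (uf1.mul u1a)))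
  have mQ : Q ∈ Zp p := by
    have : Q = ((2 ^ (2 * n)) ^ 3 * ((3 * n).choose n * n.factorial * (2 * n).factorial)) *
        (P2 * ((-1) ^ n * P1))⁻¹ := by
      rw [← key, mul_assoc, mul_inv_cancel₀ uP.1, mul_one]
    rw [this]
    exact mul_mem (mul_mem (pow_mem (pow_mem u2.2.1 _) _) (mul_mem (mul_mem (nat_mem _) uf1.2.1) uf2.2.1)) uP.2.2
  refine ⟨mQ, mul_mem (mul_mem ms mC) (add_mem (one_mem _) (mul_mem (mul_mem p_mem u2.2.2) (sub_mem m1 m2))), ?_⟩
  -- compare
  have k1 := (EQ.refl (k := 2) mQ).mul (h1'.mul ((EQ.refl (k := 2) ms).mul h2'))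
  rw [key] at k1
  have k2 := q3.mul ((c3.mul (EQ.refl (k := 2) uf1.2.1)).mul (EQ.refl (k := 2) uf2.2.1))
  have k3 := (k1.symm.trans k2).2.2
  refine (uf1.mul (uf2.mul (un.mul (u1a.mul u1b)))).cancel ?_
  have k4 : I p 2 ((b - a) * (b - a) * (-(2 : ℚ)⁻¹ * (2 : ℚ)⁻¹ - 5 * ((2 : ℚ)⁻¹ * (2 : ℚ)⁻¹ * (2 : ℚ)⁻¹) * (b - a) -
      ((2 : ℚ)⁻¹ * (2 : ℚ)⁻¹ * (2 : ℚ)⁻¹) * (b - a) * (b - a)) + a * b * (1 - (2 : ℚ)⁻¹ * (b - a))) := by
    have mc := hc.mem
    have mh := u2.2.2
    have m5 : (5 : ℚ) ∈ Zp p := by exact_mod_cast nat_mem (p := p) 5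
    refine ((hc.mul hc).mulR ?_).add ((ha.mul hb).mulR ?_)
    · exact sub_mem (sub_mem (mul_mem (neg_mem mh) mh) (mul_mem (mul_mem m5 (mul_mem (mul_mem mh mh) mh)) mc))
        (mul_mem (mul_mem (mul_mem (mul_mem mh mh) mh) mc) mc)
    · exact sub_mem (one_mem _) (mul_mem mh mc)
  have k5 := k3.add (k4.mulL (mul_mem (mul_mem uf1.2.1 uf2.2.1) mC))
  convert k5 using 1
  have hpa : (p : ℚ) * (2 : ℚ)⁻¹ * (H (2 * n) - H n) = (2 : ℚ)⁻¹ * (b - a) := by rw [had, hbd]; ring
  have hpb : (p : ℚ) * (2 : ℚ)⁻¹ * (H n - H (2 * n)) = (2 : ℚ)⁻¹ * (a - b) := by rw [had, hbd]; ring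
  have hpc : (p : ℚ) * (H n - H (2 * n)) = a - b := by rw [had, hbd]; ring
  rw [hpa, hpb, hpc]
  generalize (-1 : ℚ) ^ n = s at hs ⊢
  generalize ((2 * n).choose n : ℚ) = C2
  generalize (n.factorial : ℚ) = f1
  generalize ((2 * n).factorial : ℚ) = f2
  clear_value a b Q
  linear_combination (-f1 * f2 * C2 * (1 - a) * (1 + b) * (1 - (2 : ℚ)⁻¹ * (b - a)) +
    f1 * f2 * C2 * (1 + (2 : ℚ)⁻¹ * (b - a)) ^ 3 * (1 - (b - a)) * (s * s + 1)) * hs

end Pool.Agent.H35.CE
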