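import Pool.Agent.H35.CE.B2

/-! Power series data. -/

set_option autoImplicit false
set_option linter.unusedVariables false
set_option linter.unusedSectionVars false

open PowerSeries

namespace Pool.Agent.H35.CE

variable {p : ℕ} [hpf : Fact p.Prime]

/-- inverse square root -/
theorem inv_sqrt {c2 : ℤ_[p]} (h2 : 2 * c2 = 1) {w : ℤ_[p]⟦X⟧} (hw : constantCoeff w = 1) :
    ∃ s : ℤ_[p]⟦X⟧, s ^ 2 * w = 1 ∧ constantCoeff s = 1 := by
  set B : ℤ_[p]⟦X⟧ := binomialSeries ℤ_[p] (-c2) with hB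
  have hB2 : B ^ 2 * (1 + X) = 1 := by
    rw [sq, hB, ← pow_one (1 + X), ← binomialSeries_nat (R := ℤ_[p]) 1,
      ← binomialSeries_add, ← binomialSeries_add,
      show -c2 + -c2 + ((1 : ℕ) : ℤ_[p]) = 0 by push_cast; linear_combination -h2, binomialSeries_zero]
  have hsub : HasSubst (w - 1) := HasSubst.of_constantCoeff_zero' (by rw [map_sub, hw, map_one, sub_self])
  set f : ℤ_[p]⟦X⟧ →ₐ[ℤ_[p]] ℤ_[p]⟦X⟧ := substAlgHom hsub with hf
  have h1 : f B ^ 2 * w = 1 := by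
    have := congrArg f hB2
    rw [map_mul, map_pow, map_add, map_one] at this
    have hX : f X = w - 1 := substAlgHom_X hsub
    rw [hX] at this
    rw [← this]; ring
  have hc : constantCoeff (f B) ^ 2 = 1 := by
    have := congrArg constantCoeff h1
    rw [map_mul, map_pow, hw, map_one, mul_one] at this
    exact this
  have hc' : (constantCoeff (f B) - 1) * (constantCoeff (f B) + 1) = 0 := by linear_combination hc
  have hc'' : constantCoeff (f B) = 1 ∨ constantCoeff (f B) = -1 := by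
    rcases mul_eq_zero.1 hc' with h | h
    · left; linear_combination h
    · right; linear_combination h
  rcases hc'' with h | h
  · exact ⟨f B, h1, h⟩
  · exact ⟨-f B, by rw [neg_sq, h1], by rw [map_neg, h, neg_neg]⟩

theorem two_cancel {a b : ℤ_[p]⟦X⟧} {c2 : ℤ_[p]} (h2 : 2 * c2 = 1) (h : 4 * a = 4 * b) : a = b := by
  have e : (2 : ℤ_[p]⟦X⟧) * C c2 = 1 := by
    rw [show (2 : ℤ_[p]⟦X⟧) = C 2 from (map_ofNat C 2).symm, ← map_mul, h2, map_one]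
  linear_combination C c2 * C c2 * h + (a - b) * (-(2 * C c2) - 1) * e

theorem dn (k : ℕ) : d⁄dX ℤ_[p] ((k : ℕ) : ℤ_[p]⟦X⟧) = 0 := by
  rw [← map_natCast C, derivative_C]

theorem deriv_s {s w : ℤ_[p]⟦X⟧} (h : s ^ 2 * w = 1) : 2 * d⁄dX ℤ_[p] s * w + s * d⁄dX ℤ_[p] w = 0 := by
  have h1 := congrArg (d⁄dX ℤ_[p]) h
  rw [Derivation.leibniz, derivative_pow, derivative_one] at h1
  simp only [smul_eq_mul, Nat.cast_ofNat, show 2 - 1 = 1 from rfl, pow_one] at h1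
  have h2 : s * (2 * d⁄dX ℤ_[p] s * w + s * d⁄dX ℤ_[p] w) = 0 := by linear_combination h1
  rcases mul_eq_zero.1 h2 with h3 | h3
  · rw [h3] at h; simp at h
  · exact h3

theorem pd1 {u : ℤ_[p]} (hu : 144 * u = 1) : ∃ P : PD p, P.θ = -108 * u ∧ P.κ = -12 * u ∧
    P.Y * (X - 12) ^ 3 = X * (X + 36) ^ 2 := by
  have hCu : (144 : ℤ_[p]⟦X⟧) * C u = 1 := by
    rw [show (144 : ℤ_[p]⟦X⟧) = C 144 from (map_ofNat C 144).symm, ← map_mul, hu, map_one]
  set t : ℤ_[p]⟦X⟧ := C u * X with ht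
  have hX : (X : ℤ_[p]⟦X⟧) = 144 * t := by rw [ht]; linear_combination (-X) * hCu
  have h2 : 2 * (72 * u) = 1 := by linear_combination hu
  have ht0 : constantCoeff t = 0 := by rw [ht, map_mul, constantCoeff_X, mul_zero]
  have hdt : d⁄dX ℤ_[p] t = C u := by
    rw [ht, Derivation.leibniz, derivative_X, derivative_C]; simp
  have hn : ∀ a : ℤ_[p], constantCoeff (C a) = a := fun a => constantCoeff_C a
  have d4 : d⁄dX ℤ_[p] (4 : ℤ_[p]⟦X⟧) = 0 := by exact_mod_cast dn (p := p) 4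
  have d12 : d⁄dX ℤ_[p] (12 : ℤ_[p]⟦X⟧) = 0 := by exact_mod_cast dn (p := p) 12
  have d36 : d⁄dX ℤ_[p] (36 : ℤ_[p]⟦X⟧) = 0 := by exact_mod_cast dn (p := p) 36
  obtain ⟨s, hs, hs0⟩ := inv_sqrt h2 (w := (1 - 12 * t) * (1 + 36 * t)) (by
    simp only [map_mul, map_sub, map_add, map_one, ht0, mul_zero, sub_zero, add_zero, mul_one])
  have hs' := deriv_s hs
  have hdw : d⁄dX ℤ_[p] ((1 - 12 * t) * (1 + 36 * t)) =
      (-12 * (1 + 36 * t) + 36 * (1 - 12 * t)) * C u := by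
    simp only [map_add, map_sub, derivative_one, Derivation.leibniz, derivative_C, hdt, smul_eq_mul,
      d12, d36]
    ring
  rw [hdw] at hs'
  set h : ℤ_[p]⟦X⟧ := C (72 * u) * ((1 + 4 * t) * s ^ 3 * (1 + 36 * t)) with hh
  have hdh : d⁄dX ℤ_[p] h = C (72 * u) * (4 * C u * s ^ 3 * (1 + 36 * t) +
      (1 + 4 * t) * (3 * s ^ 2 * d⁄dX ℤ_[p] s) * (1 + 36 * t) + (1 + 4 * t) * s ^ 3 * (36 * C u)) := by
    rw [hh]
    simp only [map_add, map_sub, derivative_one, Derivation.leibniz, derivative_C, hdt, smul_eq_mul,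
      d4, d36, derivative_pow, Nat.cast_ofNat, show 3 - 1 = 2 from rfl]
    ring
  have h2C : 2 * C (72 * u) = (1 : ℤ_[p]⟦X⟧) := by
    rw [show (2 : ℤ_[p]⟦X⟧) = C 2 from (map_ofNat C 2).symm, ← map_mul, h2, map_one]
  have hxu : (X ^ 2 + 4 * X) * C u = 4 * t * (1 + 36 * t) := by
    have : (X : ℤ_[p]⟦X⟧) * C u = t := by rw [ht]; ring
    linear_combination (X + 4) * this + t * hX
  have hDD : DD h = s ^ 5 * (1 + 36 * t) ^ 4 := by
    refine two_cancel h2 ?_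
    rw [DD, hdh, hh]
    have e1 : 4 * ((X + 2) * (C (72 * u) * ((1 + 4 * t) * s ^ 3 * (1 + 36 * t))) +
        (X ^ 2 + 4 * X) * (C (72 * u) * (4 * C u * s ^ 3 * (1 + 36 * t) +
      (1 + 4 * t) * (3 * s ^ 2 * d⁄dX ℤ_[p] s) * (1 + 36 * t) + (1 + 4 * t) * s ^ 3 * (36 * C u)))) =
      (2 * C (72 * u)) * (2 * ((X + 2) * ((1 + 4 * t) * s ^ 3 * (1 + 36 * t)) +
        (((X ^ 2 + 4 * X) * C u) * (4 * s ^ 3 * (1 + 36 * t) + (1 + 4 * t) * s ^ 3 * 36) +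
      (1 + 4 * t) * (3 * s ^ 2 * ((X ^ 2 + 4 * X) * d⁄dX ℤ_[p] s)) * (1 + 36 * t)))) := by ring
    rw [e1, h2C, hxu]
    have hv : 2 * ((X ^ 2 + 4 * X) * d⁄dX ℤ_[p] s) * ((1 - 12 * t) * (1 + 36 * t)) +
        s * ((-12 * (1 + 36 * t) + 36 * (1 - 12 * t)) * (4 * t * (1 + 36 * t))) = 0 := by
      rw [← hxu]; linear_combination (X ^ 2 + 4 * X) * hs'
    generalize (X ^ 2 + 4 * X) * d⁄dX ℤ_[p] s = v at hv ⊢
    rw [hX]
    have hs2 := hs
    linear_combination (3 * (1 + 4 * t) * (1 + 36 * t) * s ^ 4) * hv +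
      (-(6 * (1 + 4 * t) * s ^ 2 * (1 + 36 * t) * v) - s ^ 3 * (2 * ((144 * t + 2) * ((1 + 4 * t) * (1 + 36 * t)) +
        (4 * t * (1 + 36 * t)) * (4 * (1 + 36 * t) + (1 + 4 * t) * 36)))) * hs2
  have hYe : C (-108 * u) * (X ^ 2 + 4 * X) * h ^ 2 = -108 * t * (1 + 36 * t) ^ 3 * (1 + 4 * t) ^ 2 * s ^ 6 := by
    rw [hh, hX, map_mul, map_mul, show (C (-108 : ℤ_[p]) : ℤ_[p]⟦X⟧) = -108 by rw [map_neg, map_ofNat],
      map_ofNat]
    have : (144 : ℤ_[p]⟦X⟧) * C u = 1 := hCu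
    have e : (144 * C u) ^ 3 = (1 : ℤ_[p]⟦X⟧) := by rw [this]; ring
    linear_combination (-108 * t * (1 + 36 * t) ^ 3 * (1 + 4 * t) ^ 2 * s ^ 6) * e
  have h1Y : 1 - C (-108 * u) * (X ^ 2 + 4 * X) * h ^ 2 = s ^ 6 * (1 + 36 * t) ^ 5 := by
    rw [hYe]
    have e : (s ^ 2 * ((1 - 12 * t) * (1 + 36 * t))) ^ 3 = 1 := by rw [hs]; ring
    linear_combination -e
  refine ⟨⟨-108 * u, -12 * u, C (-108 * u) * (X ^ 2 + 4 * X) * h ^ 2, h, rfl, ?_, ?_⟩, rfl, rfl, ?_⟩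
  · simp only [hh, map_mul, map_add, map_pow, hs0, ht0, map_one, constantCoeff_C, map_ofNat, mul_zero,
      add_zero, one_pow, mul_one]
    linear_combination h2
  · rw [hDD, h1Y]
    have e : (C (-12 * u) * X : ℤ_[p]⟦X⟧) = -12 * t := by
      rw [ht, map_mul, map_neg, map_ofNat]; ring
    rw [e]
    linear_combination (s ^ 18 * (1 + 36 * t) ^ 15) * hs
  · show C (-108 * u) * (X ^ 2 + 4 * X) * h ^ 2 * (X - 12) ^ 3 = X * (X + 36) ^ 2
    rw [hYe, hX]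
    have e : (s ^ 2 * ((1 - 12 * t) * (1 + 36 * t))) ^ 3 = 1 := by rw [hs]; ring
    linear_combination (186624 * t * (1 + 4 * t) ^ 2) * e

end Pool.Agent.H35.CE
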