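import Pool.Agent.H35.CE.G1

/-! Power series data, second case. -/

set_option autoImplicit false
set_option linter.unusedVariables false
set_option linter.unusedSectionVars false
set_option linter.unusedSimpArgs false

open PowerSeries

namespace Pool.Agent.H35.CE

variable {p : ℕ} [hpf : Fact p.Prime]

theorem pd2 {u : ℤ_[p]} (hu : 19440 * u = 1) : ∃ P : PD p, P.θ = 13500 * u ∧ P.κ = 60 * u ∧
    P.Y * ((X + 324) ^ 3 * (X + 4) ^ 2) = X * (X ^ 2 - 760 * X - 19440) ^ 2 := by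
  have hCu : (19440 : ℤ_[p]⟦X⟧) * C u = 1 := by
    rw [show (19440 : ℤ_[p]⟦X⟧) = C 19440 from (map_ofNat C 19440).symm, ← map_mul, hu, map_one]
  set t : ℤ_[p]⟦X⟧ := C u * X with ht
  have hX : (X : ℤ_[p]⟦X⟧) = 19440 * t := by rw [ht]; linear_combination (-X) * hCu
  have h2 : 2 * (9720 * u) = 1 := by linear_combination hu
  have ht0 : constantCoeff t = 0 := by rw [ht, map_mul, constantCoeff_X, mul_zero]
  have hdt : d⁄dX ℤ_[p] t = C u := by
    rw [ht, Derivation.leibniz, derivative_X, derivative_C]; simp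
  have d60 : d⁄dX ℤ_[p] (60 : ℤ_[p]⟦X⟧) = 0 := by exact_mod_cast dn (p := p) 60
  have d4860 : d⁄dX ℤ_[p] (4860 : ℤ_[p]⟦X⟧) = 0 := by exact_mod_cast dn (p := p) 4860
  have d760 : d⁄dX ℤ_[p] (760 : ℤ_[p]⟦X⟧) = 0 := by exact_mod_cast dn (p := p) 760
  have d19440 : d⁄dX ℤ_[p] (19440 : ℤ_[p]⟦X⟧) = 0 := by exact_mod_cast dn (p := p) 19440
  obtain ⟨s, hs, hs0⟩ := inv_sqrt h2 (w := (1 + 60 * t) * (1 + 4860 * t)) (by
    simp only [map_mul, map_sub, map_add, map_one, ht0, mul_zero, sub_zero, add_zero, mul_one])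
  have hs' := deriv_s hs
  have hdw : d⁄dX ℤ_[p] ((1 + 60 * t) * (1 + 4860 * t)) =
      (60 * (1 + 4860 * t) + 4860 * (1 + 60 * t)) * C u := by
    simp only [map_add, map_sub, derivative_one, Derivation.leibniz, derivative_C, hdt, smul_eq_mul,
      d60, d4860]
    ring
  rw [hdw] at hs'
  set h : ℤ_[p]⟦X⟧ := C (9720 * u) * ((1 + 760 * t - 19440 * (t * t)) * s ^ 3) with hh
  have hdh : d⁄dX ℤ_[p] h = C (9720 * u) * ((760 - 38880 * t) * C u * s ^ 3 +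
      (1 + 760 * t - 19440 * (t * t)) * (3 * s ^ 2 * d⁄dX ℤ_[p] s)) := by
    rw [hh]
    simp only [map_add, map_sub, derivative_one, Derivation.leibniz, derivative_C, hdt, smul_eq_mul,
      d760, d19440, derivative_pow, Nat.cast_ofNat, show 3 - 1 = 2 from rfl]
    ring
  have h2C : 2 * C (9720 * u) = (1 : ℤ_[p]⟦X⟧) := by
    rw [show (2 : ℤ_[p]⟦X⟧) = C 2 from (map_ofNat C 2).symm, ← map_mul, h2, map_one]
  have hxu : (X ^ 2 + 4 * X) * C u = 4 * t * (1 + 4860 * t) := by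
    have : (X : ℤ_[p]⟦X⟧) * C u = t := by rw [ht]; ring
    linear_combination (X + 4) * this + t * hX
  have hDD : DD h = s ^ 5 * ((1 - 900 * t) ^ 3 * (1 + 4860 * t)) := by
    refine two_cancel h2 ?_
    rw [DD, hdh, hh]
    have e1 : 4 * ((X + 2) * (C (9720 * u) * ((1 + 760 * t - 19440 * (t * t)) * s ^ 3)) +
        (X ^ 2 + 4 * X) * (C (9720 * u) * ((760 - 38880 * t) * C u * s ^ 3 +
      (1 + 760 * t - 19440 * (t * t)) * (3 * s ^ 2 * d⁄dX ℤ_[p] s)))) =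
      (2 * C (9720 * u)) * (2 * ((X + 2) * ((1 + 760 * t - 19440 * (t * t)) * s ^ 3) +
        (((X ^ 2 + 4 * X) * C u) * ((760 - 38880 * t) * s ^ 3) +
      (1 + 760 * t - 19440 * (t * t)) * (3 * s ^ 2 * ((X ^ 2 + 4 * X) * d⁄dX ℤ_[p] s))))) := by ring
    rw [e1, h2C, hxu]
    have hv : 2 * ((X ^ 2 + 4 * X) * d⁄dX ℤ_[p] s) * ((1 + 60 * t) * (1 + 4860 * t)) +
        s * ((60 * (1 + 4860 * t) + 4860 * (1 + 60 * t)) * (4 * t * (1 + 4860 * t))) = 0 := by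
      rw [← hxu]; linear_combination (X ^ 2 + 4 * X) * hs'
    generalize (X ^ 2 + 4 * X) * d⁄dX ℤ_[p] s = v at hv ⊢
    rw [hX]
    linear_combination (3 * (1 + 760 * t - 19440 * (t * t)) * s ^ 4) * hv +
      (-(6 * (1 + 760 * t - 19440 * (t * t)) * s ^ 2 * v) - s ^ 3 * (2 * ((19440 * t + 2) * (1 + 760 * t - 19440 * (t * t)) +
        (760 - 38880 * t) * (4 * t * (1 + 4860 * t))))) * hs
  have hYe : C (13500 * u) * (X ^ 2 + 4 * X) * h ^ 2 = 13500 * t * (1 + 4860 * t) *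
      (1 + 760 * t - 19440 * (t * t)) ^ 2 * s ^ 6 := by
    rw [hh, hX, map_mul, map_mul, map_ofNat, map_ofNat]
    have : (19440 : ℤ_[p]⟦X⟧) * C u = 1 := hCu
    have e : (19440 * C u) ^ 3 = (1 : ℤ_[p]⟦X⟧) := by rw [this]; ring
    linear_combination (13500 * t * (1 + 4860 * t) * (1 + 760 * t - 19440 * (t * t)) ^ 2 * s ^ 6) * e
  have h1Y : 1 - C (13500 * u) * (X ^ 2 + 4 * X) * h ^ 2 = s ^ 6 * ((1 - 900 * t) ^ 4 * (1 + 4860 * t)) := by
    rw [hYe]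
    have e : (s ^ 2 * ((1 + 60 * t) * (1 + 4860 * t))) ^ 3 = 1 := by rw [hs]; ring
    linear_combination -e
  refine ⟨⟨13500 * u, 60 * u, C (13500 * u) * (X ^ 2 + 4 * X) * h ^ 2, h, rfl, ?_, ?_⟩, rfl, rfl, ?_⟩
  · simp only [hh, map_mul, map_add, map_sub, map_pow, hs0, ht0, map_one, constantCoeff_C, map_ofNat, mul_zero,
      add_zero, one_pow, mul_one, sub_zero]
    linear_combination h2
  · rw [hDD, h1Y]
    have e : (C (60 * u) * X : ℤ_[p]⟦X⟧) = 60 * t := by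
      rw [ht, map_mul, map_ofNat]; ring
    rw [e]
    linear_combination (s ^ 18 * (1 - 900 * t) ^ 12 * (1 + 4860 * t) ^ 3) * hs
  · show C (13500 * u) * (X ^ 2 + 4 * X) * h ^ 2 * ((X + 324) ^ 3 * (X + 4) ^ 2) =
      X * (X ^ 2 - 760 * X - 19440) ^ 2
    rw [hYe, hX]
    have e : (s ^ 2 * ((1 + 60 * t) * (1 + 4860 * t))) ^ 3 = 1 := by rw [hs]; ring
    linear_combination (7346640384000 * t * (1 + 760 * t - 19440 * (t * t)) ^ 2) * e

end Pool.Agent.H35.CE
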