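import Pool.Agent.H35.CE.D1

/-! Polynomial data of the two coverings. -/

set_option autoImplicit false
set_option linter.unusedVariables false
set_option linter.unusedSectionVars false
set_option linter.unusedSimpArgs false

open Polynomial

namespace Pool.Agent.H35.CE

variable {p : ℕ} [hpf : Fact p.Prime]

theorem nd23 (h5 : 5 ≤ p) (a b : ℕ) : ¬ p ∣ 2 ^ a * 3 ^ b := by
  intro h
  rcases (Nat.Prime.dvd_mul hpf.out).1 h with h | h
  · have := Nat.le_of_dvd (by norm_num) (hpf.out.dvd_of_dvd_pow h); omega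
  · have := Nat.le_of_dvd (by norm_num) (hpf.out.dvd_of_dvd_pow h); omega

theorem nd235 (h5 : 7 ≤ p) (a b c : ℕ) : ¬ p ∣ 2 ^ a * 3 ^ b * 5 ^ c := by
  intro h
  rcases (Nat.Prime.dvd_mul hpf.out).1 h with h | h
  · exact nd23 (by omega) a b h
  · have := Nat.le_of_dvd (by norm_num) (hpf.out.dvd_of_dvd_pow h); omega

theorem cop {f g : ℤ[X]} (u v : ℤ[X]) (c : ℕ) (h : u * f + v * g = C (c : ℤ)) (hc : ¬ p ∣ c) :
    IsCoprime (rp p f) (rp p g) := by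
  have hc' : ((c : ℤ) : ZMod p) ≠ 0 := by
    rw [Int.cast_natCast, Ne, ZMod.natCast_eq_zero_iff]; exact hc
  refine ⟨C (((c : ℤ) : ZMod p)⁻¹) * rp p u, C (((c : ℤ) : ZMod p)⁻¹) * rp p v, ?_⟩
  have h1 := congrArg (Polynomial.map (Int.castRingHom (ZMod p))) h
  rw [Polynomial.map_add, Polynomial.map_mul, Polynomial.map_mul, Polynomial.map_C] at h1
  rw [mul_assoc, mul_assoc, ← mul_add]
  rw [show rp p u * rp p f + rp p v * rp p g = C ((Int.castRingHom (ZMod p)) (c : ℤ)) from h1, ← C_mul,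
    show (Int.castRingHom (ZMod p)) (c : ℤ) = ((c : ℤ) : ZMod p) from rfl, inv_mul_cancel₀ hc', C_1]

theorem rX : rp p X = X := by simp [rp]
theorem rk : rp p (X + 4) = X + 4 := by simp [rp]

theorem cd1 (h5 : 5 ≤ p) : ∃ D : CD p, D.H = (X - 12) ^ 3 ∧ D.N = X * (X + 36) ^ 2 := by
  have r36 : rp p (X + 36) = X + C 36 := by
    simp only [map_ofNat, rp, Polynomial.map_add, Polynomial.map_ofNat, map_X]
  have r12 : rp p (X - 12) = X - C 12 := by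
    simp only [map_ofNat, rp, Polynomial.map_sub, Polynomial.map_ofNat, map_X]
  have r1 : rp p 1 = 1 := by simp [rp]
  have c1 : ∀ f : (ZMod p)[X], IsCoprime f (rp p 1) := fun f => by rw [r1]; exact isCoprime_one_right
  have c1' : ∀ f : (ZMod p)[X], IsCoprime (rp p 1) f := fun f => by rw [r1]; exact isCoprime_one_left
  have cXk : IsCoprime (rp p X) (rp p (X + 4)) :=
    cop (-1) 1 (2 ^ 2 * 3 ^ 0) (by simp <;> ring) (nd23 h5 2 0)
  have cXρ : IsCoprime (rp p X) (rp p (X + 36)) :=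
    cop (-1) 1 (2 ^ 2 * 3 ^ 2) (by simp <;> ring) (nd23 h5 2 2)
  have cXq : IsCoprime (rp p X) (rp p (X - 12)) :=
    cop 1 (-1) (2 ^ 2 * 3 ^ 1) (by simp <;> ring) (nd23 h5 2 1)
  have ckρ : IsCoprime (rp p (X + 4)) (rp p (X + 36)) :=
    cop (-1) 1 (2 ^ 5 * 3 ^ 0) (by simp <;> ring) (nd23 h5 5 0)
  have ckq : IsCoprime (rp p (X + 4)) (rp p (X - 12)) :=
    cop 1 (-1) (2 ^ 4 * 3 ^ 0) (by simp <;> ring) (nd23 h5 4 0)
  have cρq : IsCoprime (rp p (X + 36)) (rp p (X - 12)) :=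
    cop 1 (-1) (2 ^ 4 * 3 ^ 1) (by simp <;> ring) (nd23 h5 4 1)
  rw [rX] at cXk cXρ cXq
  rw [rk] at cXk ckρ ckq
  refine ⟨⟨-108, 1, X + 36, X - 12, 1, 0, 2, rfl, ?_, ?_, ?_, ?_, ?_, ?_, ?_, ?_, cXk, c1 _, cXρ, cXq,
    c1 _, ckρ, ckq, c1' _, c1' _, cρq, ?_⟩, ?_, ?_⟩
  · simp only [Nat.mul_one, Nat.mul_zero, pow_zero, map_neg, map_ofNat]; ring
  · simp only [one_pow, mul_one]; compute_degree
  · simp only [mul_zero, pow_zero, mul_one]; compute_degree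
  · compute_degree
  · rw [r1, r36, r12, natDegree_one, natDegree_X_add_C, natDegree_X_sub_C]
  · rw [r1]; exact one_ne_zero
  · rw [r36]; exact X_add_C_ne_zero 36
  · rw [r12]; exact X_sub_C_ne_zero 12
  · rw [r12, eval_sub, eval_X, eval_C, zero_sub, neg_ne_zero]
    have : ((2 ^ 2 * 3 ^ 1 : ℕ) : ZMod p) ≠ 0 := by
      rw [Ne, ZMod.natCast_eq_zero_iff]; exact nd23 h5 2 1
    norm_num at this ⊢
    exact this
  · simp [CD.H]
  · simp [CD.N]

theorem cd2 (h7 : 7 ≤ p) : ∃ D : CD p, D.H = (X + 324) ^ 3 * (X + 4) ^ 2 ∧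
    D.N = X * (X ^ 2 - 760 * X - 19440) ^ 2 := by
  have rK : rp p (5 * X - 108) = C 5 * X + C (-108) := by
    simp only [map_neg, map_ofNat, rp, Polynomial.map_sub, Polynomial.map_mul, Polynomial.map_ofNat, map_X]; ring
  have rρ : rp p (X ^ 2 - 760 * X - 19440) = C 1 * X ^ 2 + C (-760) * X + C (-19440) := by
    simp only [map_neg, map_ofNat, map_one, rp, Polynomial.map_sub, Polynomial.map_mul,
      Polynomial.map_pow, Polynomial.map_ofNat, map_X]; ring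
  have rq' : rp p (X + 324) = X + C 324 := by
    simp only [map_ofNat, rp, Polynomial.map_add, Polynomial.map_ofNat, map_X]
  have n5 : (5 : ZMod p) ≠ 0 := by
    have : ((2 ^ 0 * 3 ^ 0 * 5 ^ 1 : ℕ) : ZMod p) ≠ 0 := by
      rw [Ne, ZMod.natCast_eq_zero_iff]; exact nd235 h7 0 0 1
    norm_num at this ⊢
    exact this
  have cXk : IsCoprime (rp p X) (rp p (X + 4)) :=
    cop (-1) 1 (2 ^ 2 * 3 ^ 0 * 5 ^ 0) (by simp <;> ring) (nd235 h7 2 0 0)
  have cXK : IsCoprime (rp p X) (rp p (5 * X - 108)) :=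
    cop 5 (-1) (2 ^ 2 * 3 ^ 3 * 5 ^ 0) (by simp <;> ring) (nd235 h7 2 3 0)
  have cXρ : IsCoprime (rp p X) (rp p (X ^ 2 - 760 * X - 19440)) :=
    cop (X - 760) (-1) (2 ^ 4 * 3 ^ 5 * 5 ^ 1) (by simp <;> ring) (nd235 h7 4 5 1)
  have cXq : IsCoprime (rp p X) (rp p (X + 324)) :=
    cop (-1) 1 (2 ^ 2 * 3 ^ 4 * 5 ^ 0) (by simp <;> ring) (nd235 h7 2 4 0)
  have ckK : IsCoprime (rp p (X + 4)) (rp p (5 * X - 108)) :=
    cop 5 (-1) (2 ^ 7 * 3 ^ 0 * 5 ^ 0) (by simp <;> ring) (nd235 h7 7 0 0)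
  have ckρ : IsCoprime (rp p (X + 4)) (rp p (X ^ 2 - 760 * X - 19440)) :=
    cop (X - 764) (-1) (2 ^ 14 * 3 ^ 0 * 5 ^ 0) (by simp <;> ring) (nd235 h7 14 0 0)
  have ckq : IsCoprime (rp p (X + 4)) (rp p (X + 324)) :=
    cop (-1) 1 (2 ^ 6 * 3 ^ 0 * 5 ^ 1) (by simp <;> ring) (nd235 h7 6 0 1)
  have cKρ : IsCoprime (rp p (5 * X - 108)) (rp p (X ^ 2 - 760 * X - 19440)) :=
    cop (5 * X - 3692) (-25) (2 ^ 15 * 3 ^ 3 * 5 ^ 0) (by simp <;> ring) (nd235 h7 15 3 0)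
  have cKq : IsCoprime (rp p (5 * X - 108)) (rp p (X + 324)) :=
    cop (-1) 5 (2 ^ 6 * 3 ^ 3 * 5 ^ 0) (by simp <;> ring) (nd235 h7 6 3 0)
  have cρq : IsCoprime (rp p (X ^ 2 - 760 * X - 19440)) (rp p (X + 324)) :=
    cop 1 (-(X - 1084)) (2 ^ 12 * 3 ^ 4 * 5 ^ 0) (by simp <;> ring) (nd235 h7 12 4 0)
  rw [rX] at cXk cXK cXρ cXq
  rw [rk] at cXk ckK ckρ ckq
  refine ⟨⟨4, 5 * X - 108, X ^ 2 - 760 * X - 19440, X + 324, 0, 1, 4, rfl, ?_, ?_, ?_, ?_, ?_, ?_, ?_, ?_,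
    cXk, cXK, cXρ, cXq, ckK, ckρ, ckq, cKρ, cKq, cρq, ?_⟩, ?_, ?_⟩
  · simp only [Nat.mul_one, Nat.mul_zero, pow_zero, map_ofNat]; ring
  · simp only [mul_zero, pow_zero, mul_one]; compute_degree
  · simp only [mul_one]; compute_degree
  · compute_degree
  · rw [rK, rρ, rq', natDegree_linear n5, natDegree_quadratic one_ne_zero, natDegree_X_add_C]
  · rw [rK]; intro h
    have := natDegree_linear (b := (-108 : ZMod p)) n5
    rw [h] at this; simp at this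
  · rw [rρ]; intro h
    have := natDegree_quadratic (b := (-760 : ZMod p)) (c := (-19440 : ZMod p)) (a := (1 : ZMod p)) one_ne_zero
    rw [h] at this; simp at this
  · rw [rq']; exact X_add_C_ne_zero 324
  · rw [rq', eval_add, eval_X, eval_C, zero_add]
    have : ((2 ^ 2 * 3 ^ 4 * 5 ^ 0 : ℕ) : ZMod p) ≠ 0 := by
      rw [Ne, ZMod.natCast_eq_zero_iff]; exact nd235 h7 2 4 0
    norm_num at this ⊢
    exact this
  · simp [CD.H]
  · simp [CD.N]

end Pool.Agent.H35.CE
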