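import Pool.Agent.H35.CE.E3
import Pool.Agent.H35.CE.F1

/-! Transfer between rational numbers and `p`-adic integers. -/

set_option autoImplicit false
set_option linter.unusedVariables false
set_option linter.unusedSectionVars false
set_option linter.unusedSimpArgs false

namespace Pool.Agent.H35.CE

open Finset Pool.Agent.R439.PL
open Pool.Agent.R488.Cub (H H_mem prodH prod_choose)

variable {p n : ℕ} [hpf : Fact p.Prime]

theorem int_dvd_of {a : ℤ} (h : (p : ℤ_[p]) ∣ (a : ℤ_[p])) : (p : ℤ) ∣ a := by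
  have := (Pool.Agent.H35.Q51.padic_dvd_iff _).2 h
  rw [map_intCast] at this
  exact (ZMod.intCast_zmod_eq_zero_iff_dvd _ _).1 this

theorem I_of_dvd {x : ℚ} {Z : ℤ_[p]} {k : ℕ} (h : (Z : ℚ_[p]) = ((x : ℚ) : ℚ_[p]))
    (hd : (p : ℤ_[p]) ^ k ∣ Z) : I p k x := by
  obtain ⟨Z', hZ'⟩ := hd
  have hp0 : (p : ℚ) ≠ 0 := by exact_mod_cast hpf.out.ne_zero
  have hpk : (p : ℚ) ^ k ≠ 0 := pow_ne_zero _ hp0
  have hpk' : (p : ℚ_[p]) ^ k ≠ 0 := by
    have : (p : ℚ_[p]) ≠ 0 := by exact_mod_cast hpf.out.ne_zero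
    exact pow_ne_zero _ this
  set y : ℚ := x / (p : ℚ) ^ k with hy
  have hxy : x = (p : ℚ) ^ k * y := by rw [hy]; field_simp
  have h2 : (Z' : ℚ_[p]) = ((y : ℚ) : ℚ_[p]) := by
    rw [hZ', hxy] at h
    push_cast at h
    exact mul_left_cancel₀ hpk' h
  refine ⟨y, ⟨y.num, y.den, ?_, ?_⟩, hxy⟩
  · intro hdv
    have h3 : Z' * (y.den : ℤ_[p]) = (y.num : ℤ_[p]) := by
      apply PadicInt.ext
      push_cast
      rw [h2]
      have : y * (y.den : ℚ) = (y.num : ℚ) := Rat.mul_den_eq_num y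
      exact_mod_cast congrArg (fun q : ℚ => (q : ℚ_[p])) this
    have h4 : (p : ℤ_[p]) ∣ (y.num : ℤ_[p]) := by
      rw [← h3]
      obtain ⟨c, hc⟩ := hdv
      refine Dvd.dvd.mul_left ⟨(c : ℤ_[p]), ?_⟩ _
      have : ((y.den : ℤ) : ℤ_[p]) = ((p * c : ℤ) : ℤ_[p]) := by rw [hc]
      push_cast at this
      exact this
    have h5 := int_dvd_of h4
    have h6 : p ∣ y.num.natAbs := by
      have := Int.natAbs_dvd_natAbs.2 h5
      simpa using this
    have h7 : p ∣ y.den := by exact_mod_cast hdv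
    exact Nat.not_coprime_of_dvd_of_dvd hpf.out.one_lt h6 h7 y.reduced
  · push_cast
    exact (Rat.num_div_den y).symm

theorem dvd_of_I {x : ℚ} {Z : ℤ_[p]} {k : ℕ} (h : (Z : ℚ_[p]) = ((x : ℚ) : ℚ_[p])) (hI : I p k x) :
    (p : ℤ_[p]) ^ k ∣ Z := by
  obtain ⟨y, ⟨a, b, hb, hy⟩, hx⟩ := hI
  have hb0 : (b : ℚ) ≠ 0 := by
    intro h0; apply hb
    have : b = 0 := by exact_mod_cast h0
    rw [this]; exact dvd_zero _
  have hu : IsUnit (b : ℤ_[p]) := by
    refine Pool.Agent.H35.Q51.padic_unit ?_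
    intro h0
    rw [map_intCast] at h0
    exact hb ((ZMod.intCast_zmod_eq_zero_iff_dvd _ _).1 h0)
  have h1 : x * b = (p : ℚ) ^ k * a := by rw [hx, hy]; field_simp
  have h2 : Z * (b : ℤ_[p]) = (p : ℤ_[p]) ^ k * (a : ℤ_[p]) := by
    apply PadicInt.ext
    push_cast
    rw [h]
    exact_mod_cast congrArg (fun q : ℚ => (q : ℚ_[p])) h1
  exact (hu.dvd_mul_right).1 ⟨_, h2⟩

/-- generalized binomial coefficients -/
def bin (a : ℚ) (k : ℕ) : ℚ := (∏ i ∈ range k, (a - i)) / k.factorial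

theorem prod_coe {r : ℤ_[p]} {q : ℚ} (h : (r : ℚ_[p]) = ((q : ℚ) : ℚ_[p])) (k : ℕ) :
    ((((k.factorial : ℤ_[p]) * Ring.choose r k : ℤ_[p])) : ℚ_[p]) = (((∏ i ∈ range k, (q - i) : ℚ)) : ℚ_[p]) := by
  rw [fac_choose]
  rw [← PadicInt.Coe.ringHom_apply, map_prod]
  push_cast
  refine prod_congr rfl fun i _ => ?_
  rw [PadicInt.Coe.ringHom_apply]
  push_cast
  rw [h]

end Pool.Agent.H35.CE
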