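import Pool.Agent.H35.CE.G4

/-! The rational sums. -/

set_option autoImplicit false
set_option linter.unusedVariables false
set_option linter.unusedSectionVars false
set_option linter.unusedSimpArgs false

namespace Pool.Agent.H35.CE

open Finset Pool.Agent.R439.PL Pool.Agent.R439.PL.FD
open Pool.Agent.R488.Cub (H H_mem prodH prod_choose)

variable {p n : ℕ} [hpf : Fact p.Prime]

theorem choose_coe {r : ℤ_[p]} {q : ℚ} (h : (r : ℚ_[p]) = ((q : ℚ) : ℚ_[p])) (k : ℕ) :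
    ((Ring.choose r k : ℤ_[p]) : ℚ_[p]) = ((bin q k : ℚ) : ℚ_[p]) := by
  have h1 := prod_coe h k
  have hf : ((k.factorial : ℕ) : ℚ_[p]) ≠ 0 := by exact_mod_cast k.factorial_ne_zero
  rw [bin]
  push_cast at h1 ⊢
  rw [← h1]
  field_simp

theorem bin_half (k : ℕ) : bin (-1 / 2) k = (-1) ^ k * (Nat.centralBinom k : ℚ) / 4 ^ k := by
  have key : (∏ i ∈ range k, ((-1 / 2 : ℚ) - i)) * 4 ^ k = (-1) ^ k * (Nat.centralBinom k : ℚ) * k.factorial := by
    induction k with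
    | zero => simp
    | succ k ih =>
      have h : ((k : ℚ) + 1) * (Nat.centralBinom (k + 1) : ℚ) = 2 * (2 * k + 1) * Nat.centralBinom k := by
        exact_mod_cast Nat.succ_mul_centralBinom_succ k
      rw [prod_range_succ, Nat.factorial_succ, pow_succ, pow_succ]
      push_cast
      linear_combination (4 * (-1 / 2 - (k : ℚ))) * ih + (-1) ^ k * (k.factorial : ℚ) * h
  rw [bin]
  have hf : (k.factorial : ℚ) ≠ 0 := by exact_mod_cast k.factorial_ne_zero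
  have h4 : (4 : ℚ) ^ k ≠ 0 := by positivity
  rw [div_eq_div_iff hf h4]
  exact key

/-- the rational sum -/
def RS (p : ℕ) (z : ℚ) : ℚ := ∑ k ∈ range p, bin (-1 / 4) k * bin (-1 / 2) k * z ^ k

theorem c2 : ((2 : ℤ_[p]) : ℚ_[p]) = 2 := map_ofNat PadicInt.Coe.ringHom 2
theorem c3 : ((3 : ℤ_[p]) : ℚ_[p]) = 3 := map_ofNat PadicInt.Coe.ringHom 3
theorem c4 : ((4 : ℤ_[p]) : ℚ_[p]) = 4 := map_ofNat PadicInt.Coe.ringHom 4

theorem r1_coe {r1 : ℤ_[p]} (h1 : 4 * r1 = -1) : (r1 : ℚ_[p]) = (((-1 / 4 : ℚ)) : ℚ_[p]) := by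
  have h := congrArg (fun x : ℤ_[p] => (x : ℚ_[p])) h1
  push_cast at h ⊢
  rw [c4] at h
  linear_combination (1 / 4) * h

theorem r3_coe {r3 : ℤ_[p]} (h3 : 4 * r3 = -3) : (r3 : ℚ_[p]) = (((-3 / 4 : ℚ)) : ℚ_[p]) := by
  have h := congrArg (fun x : ℤ_[p] => (x : ℚ_[p])) h3
  push_cast at h ⊢
  rw [c4, c3] at h
  linear_combination (1 / 4) * h

theorem SS_coe {r1 κ : ℤ_[p]} (h1 : 4 * r1 = -1) {z : ℚ} (hκ : (κ : ℚ_[p]) = ((z / 4 : ℚ) : ℚ_[p])) :
    ((SS p r1 κ : ℤ_[p]) : ℚ_[p]) = ((RS p z : ℚ) : ℚ_[p]) := by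
  rw [SS, RS, PadicInt.coe_sum]
  push_cast
  refine sum_congr rfl fun k _ => ?_
  rw [choose_coe (r1_coe h1), bin_half, hκ]
  push_cast
  rw [div_pow]
  ring

/-- `β_{2n}` modulo `p^2` -/
theorem bt_mid (hpn : p = 4 * n + 1) {r3 : ℤ_[p]} (h3 : 4 * r3 = -3) :
    (p : ℤ_[p]) ^ 2 ∣ bt r3 (2 * n) - ((3 * n).choose (2 * n) : ℕ) := by
  have hn := hn0 hpn
  have u2 := unit2 hpn
  have hpq : (p : ℚ) = 4 * n + 1 := by exact_mod_cast hpn
  have e1 : bt r3 (2 * n) = Ring.choose r3 (2 * n) := by rw [bt, pow_mul]; norm_num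
  have u4 : U p (4 : ℚ) := by
    have := u2.mul u2; norm_num at this; exact this
  have m3 : (3 : ℚ) ∈ Zp p := by exact_mod_cast nat_mem (p := p) 3
  have hδ : I p 1 ((p : ℚ) * (3 * (4 : ℚ)⁻¹)) := I_p.mulR (mul_mem m3 u4.2.2)
  have h1 := prodH (p := p) (a := 3 * n) (b := 2 * n) (by omega) (by omega) hδ
  rw [show 3 * n - 2 * n = n by omega] at h1
  have h2 := H_refl hpn
  have hI : I p 2 ((∏ i ∈ range (2 * n), ((-3 / 4 : ℚ) - i)) - ((3 * n).choose (2 * n) : ℚ) * (2 * n).factorial) := by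
    have e : ∏ i ∈ range (2 * n), ((-3 / 4 : ℚ) - i) =
        ∏ i ∈ range (2 * n), (((3 * n : ℕ) : ℚ) - i - (p : ℚ) * (3 * (4 : ℚ)⁻¹)) := by
      refine prod_congr rfl fun i _ => ?_
      rw [hpq]; push_cast; ring
    rw [e, ← prod_choose (3 * n) (2 * n) (by omega)]
    have h4 := (hδ.mul h2).mulL (neg_mem (mul_mem (nat_mem (p := p) ((3 * n).choose (2 * n))) (nat_mem (p := p) (2 * n).factorial)))
    rw [← prod_choose (3 * n) (2 * n) (by omega), neg_mul] at h4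
    have h5 := h1.2.2.add h4
    convert h5 using 1
    ring
  have hcoe := prod_coe (r3_coe h3) (2 * n)
  have hZ : (((2 * n).factorial : ℤ_[p]) * Ring.choose r3 (2 * n) - (((3 * n).choose (2 * n) : ℕ) : ℤ_[p]) * (2 * n).factorial : ℤ_[p]) =
      ((2 * n).factorial : ℤ_[p]) * (Ring.choose r3 (2 * n) - ((3 * n).choose (2 * n) : ℕ)) := by ring
  have hd := dvd_of_I (Z := (((2 * n).factorial : ℤ_[p]) * Ring.choose r3 (2 * n) - (((3 * n).choose (2 * n) : ℕ) : ℤ_[p]) * (2 * n).factorial : ℤ_[p])) (x := (∏ i ∈ range (2 * n), ((-3 / 4 : ℚ) - i)) - ((3 * n).choose (2 * n) : ℚ) * (2 * n).factorial) (by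
    rw [PadicInt.coe_sub, hcoe]
    push_cast
    ring) hI
  rw [hZ] at hd
  have hu : IsUnit (((2 * n).factorial : ℕ) : ℤ_[p]) := unit_natCast (by rw [hpf.out.dvd_factorial]; omega)
  rw [e1]
  exact (hu.dvd_mul_left).1 hd

theorem U_ex (hpn : p = 4 * n + 1) (hp2 : p ≠ 2) : ∃ U : ℤ_[p], PadicInt.toZMod U = P1 p n ∧
    (((((3 * n).choose (2 * n) : ℕ) : ℤ_[p]) + p * U : ℤ_[p]) : ℚ_[p]) = (((p * aa (3 * n) : ℚ)) : ℚ_[p]) := by
  have hn := hn0 hpn
  have hiv : ∀ m : ℕ, ∃ iv : ℤ_[p], m ∈ (Finset.range p).erase (2 * n) → ((2 * m + 1 : ℕ) : ℤ_[p]) * iv = 1 := by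
    intro m
    by_cases hm : m ∈ (Finset.range p).erase (2 * n)
    · obtain ⟨ha, hb⟩ := Finset.mem_erase.1 hm
      have hu := unit_natCast (two_m_unit (Finset.mem_range.1 hb) (by omega) hp2)
      obtain ⟨u, hu⟩ := hu
      exact ⟨((u⁻¹ : ℤ_[p]ˣ) : ℤ_[p]), fun _ => by rw [← hu, Units.mul_inv]⟩
    · exact ⟨0, fun h => absurd h hm⟩
  choose iv hiv using hiv
  refine ⟨∑ m ∈ (Finset.range p).erase (2 * n), (-1) ^ m * (((3 * n).choose m : ℕ) : ℤ_[p]) * iv m, ?_, ?_⟩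
  · rw [map_sum, P1]
    refine sum_congr rfl fun m hm => ?_
    obtain ⟨ha, hb⟩ := Finset.mem_erase.1 hm
    have h0 := two_m hpn (Finset.mem_range.1 hb) ha
    have e2 := congrArg PadicInt.toZMod (hiv m hm)
    rw [map_mul, map_natCast, map_one] at e2
    have e3 : PadicInt.toZMod (iv m) = 1 / ((2 * m + 1 : ℕ) : ZMod p) := by
      rw [eq_div_iff h0, mul_comm]; exact e2
    rw [map_mul, map_mul, map_pow, map_neg, map_one, map_natCast, e3, bb]
    ring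
  · have hpq : (p : ℚ) = 4 * n + 1 := by exact_mod_cast hpn
    have hext : aa (3 * n) = ∑ m ∈ range p, (-1 : ℚ) ^ m * ((3 * n).choose m : ℚ) / (2 * m + 1) := by
      rw [aa]
      refine sum_subset (by intro x hx; rw [mem_range] at *; omega) ?_
      intro m _ hm
      rw [Nat.choose_eq_zero_of_lt (by rw [mem_range] at hm; omega)]; simp
    have hmem : 2 * n ∈ Finset.range p := Finset.mem_range.2 (by omega)
    rw [hext, ← Finset.add_sum_erase _ _ hmem, PadicInt.coe_add, PadicInt.coe_mul, PadicInt.coe_sum]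
    push_cast
    have hp0 : (p : ℚ_[p]) ≠ 0 := by exact_mod_cast hpf.out.ne_zero
    have hpc : (2 * (2 * (n : ℚ_[p])) + 1) = p := by
      have : ((4 * n + 1 : ℕ) : ℚ_[p]) = p := by rw [← hpn]
      push_cast at this
      linear_combination this
    rw [hpc, mul_add, mul_div_cancel₀ _ hp0]
    have hsgn : (-1 : ℚ_[p]) ^ (2 * n) = 1 := by rw [pow_mul]; norm_num
    rw [hsgn, one_mul]
    congr 2
    refine sum_congr rfl fun m hm => ?_
    have e := congrArg (fun x : ℤ_[p] => (x : ℚ_[p])) (hiv m hm)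
    push_cast at e
    rw [c2] at e
    have h0 : (2 * (m : ℚ_[p]) + 1) ≠ 0 := by
      intro h; rw [h, zero_mul] at e; exact zero_ne_one e
    rw [eq_div_iff h0]
    linear_combination ((-1) ^ m * (((3 * n).choose m : ℕ) : ℚ_[p])) * e

end Pool.Agent.H35.CE
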