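import Pool.Agent.H35.CE.G5
import Pool.Agent.H35.CE.G3
import Pool.Agent.H35.CE.G2

/-! The congruences for the rational sums. -/

set_option autoImplicit false
set_option linter.unusedVariables false
set_option linter.unusedSectionVars false
set_option linter.unusedSimpArgs false

namespace Pool.Agent.H35.CE

open Finset Pool.Agent.R439.PL Pool.Agent.R439.PL.FD
open Pool.Agent.R488.Cub (H H_mem prodH prod_choose)

variable {p n : ℕ} [hpf : Fact p.Prime]

theorem exists_inv {m : ℕ} (h : ¬ p ∣ m) : ∃ u : ℤ_[p], (m : ℤ_[p]) * u = 1 :=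
  (unit_natCast h).exists_right_inv

theorem r_ex (hp2 : p ≠ 2) : ∃ r1 r3 : ℤ_[p], 4 * r1 = -1 ∧ 4 * r3 = -3 := by
  obtain ⟨u, hu⟩ := exists_inv (p := p) (m := 4) (by
    intro h
    have : p ∣ 2 ^ 2 := by simpa using h
    exact hp2 ((Nat.prime_dvd_prime_iff_eq hpf.out Nat.prime_two).1 (hpf.out.dvd_of_dvd_pow this)))
  push_cast at hu
  exact ⟨-u, -3 * u, by linear_combination -hu, by linear_combination -3 * hu⟩

theorem gen (hpn : p = 4 * n + 1) (P : PD p) (D : CD p) (hYH : P.Y * io p D.H = io p D.N) {z : ℚ}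
    (hκ : (P.κ : ℚ_[p]) = ((z / 4 : ℚ) : ℚ_[p])) {ε : ℤ} (hε : ε ^ 2 = 1)
    (hθ : PadicInt.toZMod (P.θ ^ (2 * n)) = (ε : ZMod p)) (hθ0 : PadicInt.toZMod P.θ ≠ 0) :
    EQ p 2 (RS p z) (ε * (p * aa (3 * n))) := by
  have hn := hn0 hpn
  have hp2 : p ≠ 2 := by omega
  obtain ⟨L⟩ := lf_exists hpn
  obtain ⟨r1, r3, h1, h3⟩ := r_ex (p := p) hp2
  obtain ⟨U, hU1, hU2⟩ := U_ex hpn hp2
  have hS := S_final P L (by omega) hp2 D hYH h1 h3 (ε := (ε : ℤ_[p])) (by exact_mod_cast hε)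
    (by rw [hθ, map_intCast]) hU1 hθ0
  have hb := bt_mid hpn h3
  have hd : (p : ℤ_[p]) ^ 2 ∣ SS p r1 P.κ - (ε : ℤ_[p]) * ((((3 * n).choose (2 * n) : ℕ) : ℤ_[p]) + (p : ℤ_[p]) * U) := by
    have := dvd_add hS (Dvd.dvd.mul_left hb (ε : ℤ_[p]))
    convert this using 1
    ring
  have hI : I p 2 (RS p z - ε * (p * aa (3 * n))) := by
    refine I_of_dvd (Z := SS p r1 P.κ - (ε : ℤ_[p]) * ((((3 * n).choose (2 * n) : ℕ) : ℤ_[p]) + (p : ℤ_[p]) * U)) ?_ hd
    rw [PadicInt.coe_sub, PadicInt.coe_mul, hU2, SS_coe h1 hκ]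
    push_cast
    ring
  have hm : (ε : ℚ) * (p * aa (3 * n)) ∈ Zp p := mul_mem (int_mem ε) (Qval hpn).1
  refine ⟨?_, hm, hI⟩
  have : RS p z = (RS p z - ε * (p * aa (3 * n))) + ε * (p * aa (3 * n)) := by ring
  rw [this]
  exact add_mem hI.mem hm

theorem io_ofNat (k : ℕ) [k.AtLeastTwo] : io p (OfNat.ofNat k) = OfNat.ofNat k := map_ofNat _ _

theorem S1 (h5 : 5 ≤ p) (hpn : p = 4 * n + 1) {ε : ℤ} (hε : ε ^ 2 = 1)
    (hθ : (-3 : ZMod p) ^ (2 * n) = (ε : ZMod p)) : EQ p 2 (RS p (-1 / 3)) (ε * (p * aa (3 * n))) := by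
  obtain ⟨u, hu⟩ := exists_inv (p := p) (m := 144) (by
    have := nd23 h5 4 2; norm_num at this; exact this)
  push_cast at hu
  obtain ⟨P, hPθ, hPκ, hPY⟩ := pd1 hu
  obtain ⟨D, hH, hN⟩ := cd1 (p := p) h5
  have hub : (144 : ZMod p) * PadicInt.toZMod u = 1 := by
    have := congrArg PadicInt.toZMod hu
    rwa [map_mul, map_one, map_ofNat] at this
  have huq : (144 : ℚ_[p]) * (u : ℚ_[p]) = 1 := by
    have := congrArg (fun x : ℤ_[p] => (x : ℚ_[p])) hu
    have c : ((144 : ℤ_[p]) : ℚ_[p]) = 144 := map_ofNat PadicInt.Coe.ringHom 144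
    push_cast at this
    rwa [c] at this
  have h4 : 4 * PadicInt.toZMod P.θ = -3 := by
    rw [hPθ, map_mul, map_neg, map_ofNat]
    linear_combination -3 * hub
  have h2z : (2 : ZMod p) ≠ 0 := by
    intro h; rw [show (144 : ZMod p) = 2 * 72 by norm_num, h] at hub; simp at hub
  refine gen hpn P D ?_ ?_ hε ?_ ?_
  · rw [hH, hN]
    simp only [map_pow, map_sub, map_mul, map_add, io_X, map_ofNat]
    exact hPY
  · rw [hPκ]
    have c : ((12 : ℤ_[p]) : ℚ_[p]) = 12 := map_ofNat PadicInt.Coe.ringHom 12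
    push_cast
    rw [c]
    linear_combination (-1 / 12) * huq
  · have e : (4 : ZMod p) ^ (2 * n) = 1 := by
      have := ZMod.pow_card_sub_one_eq_one h2z
      rw [show (4 : ZMod p) = 2 ^ 2 by norm_num, ← pow_mul, ← this]; congr 1; omega
    rw [map_pow, ← hθ, ← h4, mul_pow, e, one_mul]
  · intro h
    rw [h, mul_zero] at h4
    have : ((2 ^ 0 * 3 ^ 1 : ℕ) : ZMod p) ≠ 0 := by
      rw [Ne, ZMod.natCast_eq_zero_iff]; exact nd23 h5 0 1
    norm_num at this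
    exact this (by linear_combination h4)

theorem T1' (h7 : 7 ≤ p) (hpn : p = 4 * n + 1) : EQ p 2 (RS p (1 / 81)) (p * aa (3 * n)) := by
  obtain ⟨u, hu⟩ := exists_inv (p := p) (m := 19440) (by
    have := nd235 h7 4 5 1; norm_num at this; exact this)
  push_cast at hu
  obtain ⟨P, hPθ, hPκ, hPY⟩ := pd2 hu
  obtain ⟨D, hH, hN⟩ := cd2 (p := p) h7
  have hub : (19440 : ZMod p) * PadicInt.toZMod u = 1 := by
    have := congrArg PadicInt.toZMod hu
    rwa [map_mul, map_one, map_ofNat] at this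
  have huq : (19440 : ℚ_[p]) * (u : ℚ_[p]) = 1 := by
    have := congrArg (fun x : ℤ_[p] => (x : ℚ_[p])) hu
    have c : ((19440 : ℤ_[p]) : ℚ_[p]) = 19440 := map_ofNat PadicInt.Coe.ringHom 19440
    push_cast at this
    rwa [c] at this
  have n5 : (5 : ZMod p) ≠ 0 := by
    have : ((2 ^ 0 * 3 ^ 0 * 5 ^ 1 : ℕ) : ZMod p) ≠ 0 := by
      rw [Ne, ZMod.natCast_eq_zero_iff]; exact nd235 h7 0 0 1
    norm_num at this ⊢
    exact this
  have n6 : (6 : ZMod p) ≠ 0 := by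
    have : ((2 ^ 1 * 3 ^ 1 * 5 ^ 0 : ℕ) : ZMod p) ≠ 0 := by
      rw [Ne, ZMod.natCast_eq_zero_iff]; exact nd235 h7 1 1 0
    norm_num at this ⊢
    exact this
  have h36 : 6 ^ 2 * PadicInt.toZMod P.θ = 5 ^ 2 := by
    rw [hPθ, map_mul, map_ofNat]
    linear_combination 25 * hub
  have hg := gen hpn P D (z := 1 / 81) (ε := 1) ?_ ?_ (by norm_num) ?_ ?_
  · rwa [Int.cast_one, one_mul] at hg
  · rw [hH, hN]
    simp only [map_pow, map_sub, map_mul, map_add, io_X, map_ofNat]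
    exact hPY
  · rw [hPκ]
    have c : ((60 : ℤ_[p]) : ℚ_[p]) = 60 := map_ofNat PadicInt.Coe.ringHom 60
    push_cast
    rw [c]
    linear_combination (1 / 324) * huq
  · have e5 : ((5 : ZMod p) ^ 2) ^ (2 * n) = 1 := by
      rw [← ZMod.pow_card_sub_one_eq_one n5, ← pow_mul]; congr 1; omega
    have e6 : ((6 : ZMod p) ^ 2) ^ (2 * n) = 1 := by
      rw [← ZMod.pow_card_sub_one_eq_one n6, ← pow_mul]; congr 1; omega
    have := congrArg (fun x => x ^ (2 * n)) h36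
    simp only [mul_pow] at this
    rw [← mul_pow] at this
    rw [map_pow, Int.cast_one]
    rw [mul_pow, e6, e5, one_mul] at this
    exact this
  · intro h
    rw [h, mul_zero] at h36
    exact n5 (pow_eq_zero_iff (two_ne_zero) |>.1 h36.symm)

/-- The case `p ≡ 3 mod 4`. -/
theorem genb (hpn : p = 4 * n + 3) (P : PD p) {z : ℚ}
    (hκ : (P.κ : ℚ_[p]) = ((z / 4 : ℚ) : ℚ_[p])) : I p 1 (RS p z) := by
  have hp2 : p ≠ 2 := by omega
  obtain ⟨r1, r3, h1, h3⟩ := r_ex (p := p) hp2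
  have h := SS_mod hp2 P h1 h3 (m := 2 * n + 1) (by omega)
  have hb : (p : ℤ_[p]) ∣ bt r3 (2 * n + 1) := by
    have hf := fac_choose r3 (2 * n + 1)
    have hu : IsUnit (((2 * n + 1).factorial : ℕ) : ℤ_[p]) :=
      unit_natCast (by rw [hpf.out.dvd_factorial]; omega)
    have hmem : n ∈ range (2 * n + 1) := by rw [mem_range]; omega
    have hd : (p : ℤ_[p]) ∣ ∏ j ∈ range (2 * n + 1), (r3 - j) := by
      refine Dvd.dvd.trans ?_ (dvd_prod_of_mem _ hmem)
      have h4 : IsUnit ((4 : ℕ) : ℤ_[p]) := unit_natCast (by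
        intro h
        have : p ∣ 2 ^ 2 := by simpa using h
        exact hp2 ((Nat.prime_dvd_prime_iff_eq hpf.out Nat.prime_two).1 (hpf.out.dvd_of_dvd_pow this)))
      refine (h4.dvd_mul_left).1 ⟨-1, ?_⟩
      have hq : (p : ℤ_[p]) = 4 * n + 3 := by
        have := congrArg (Nat.cast (R := ℤ_[p])) hpn
        push_cast at this; exact this
      push_cast
      linear_combination h3 + hq
    rw [← hf] at hd
    exact Dvd.dvd.mul_left ((hu.dvd_mul_left).1 hd) _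
  have h0 : (p : ℤ_[p]) ∣ SS p r1 P.κ := by
    rw [← Pool.Agent.H35.Q51.padic_dvd_iff, h, Pool.Agent.H35.Q51.padic_dvd_iff]
    exact Dvd.dvd.mul_right hb _
  exact I_of_dvd (Z := SS p r1 P.κ) (SS_coe h1 hκ) (by rw [pow_one]; exact h0)

theorem Sb (h5 : 5 ≤ p) (hpn : p = 4 * n + 3) : I p 1 (RS p (-1 / 3)) := by
  obtain ⟨u, hu⟩ := exists_inv (p := p) (m := 144) (by
    have := nd23 h5 4 2; norm_num at this; exact this)
  push_cast at hu
  obtain ⟨P, hPθ, hPκ, hPY⟩ := pd1 hu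
  have huq : (144 : ℚ_[p]) * (u : ℚ_[p]) = 1 := by
    have := congrArg (fun x : ℤ_[p] => (x : ℚ_[p])) hu
    have c : ((144 : ℤ_[p]) : ℚ_[p]) = 144 := map_ofNat PadicInt.Coe.ringHom 144
    push_cast at this
    rwa [c] at this
  refine genb hpn P ?_
  rw [hPκ]
  have c : ((12 : ℤ_[p]) : ℚ_[p]) = 12 := map_ofNat PadicInt.Coe.ringHom 12
  push_cast
  rw [c]
  linear_combination (-1 / 12) * huq

theorem Tb (h7 : 7 ≤ p) (hpn : p = 4 * n + 3) : I p 1 (RS p (1 / 81)) := by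
  obtain ⟨u, hu⟩ := exists_inv (p := p) (m := 19440) (by
    have := nd235 h7 4 5 1; norm_num at this; exact this)
  push_cast at hu
  obtain ⟨P, hPθ, hPκ, hPY⟩ := pd2 hu
  have huq : (19440 : ℚ_[p]) * (u : ℚ_[p]) = 1 := by
    have := congrArg (fun x : ℤ_[p] => (x : ℚ_[p])) hu
    have c : ((19440 : ℤ_[p]) : ℚ_[p]) = 19440 := map_ofNat PadicInt.Coe.ringHom 19440
    push_cast at this
    rwa [c] at this
  refine genb hpn P ?_
  rw [hPκ]
  have c : ((60 : ℤ_[p]) : ℚ_[p]) = 60 := map_ofNat PadicInt.Coe.ringHom 60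
  push_cast
  rw [c]
  linear_combination (1 / 324) * huq

end Pool.Agent.H35.CE
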